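import Pool.Agent.Helper864_WL.Defs
import Pool.Agent.W332.SL6.LogC

set_option autoImplicit false
set_option linter.unusedSectionVars false

/-!
# Units of an algebraic closure: first properties
-/

namespace Pool.Agent.Helper864WL

open NumberField TensorProduct Pool.Agent.W289.SL Module
open Pool.Agent.W332.SL6 (NearU pre_alg brumerC hypC log_mem exists_pow_one lam lam_tmul push
  eq_zero_of_lam lam_push)
open Pool.Agent.W254.PA (ic norm_ic exists_theta exists_pow_near LgP Hyp LtE)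

variable {p : ℕ} [Fact p.Prime]

section maps

variable {H M N : Type} [Field H] [Field M] [Field N]

lemma uHom_coe (f : H →+* M) (u : Additive (𝓞 H)ˣ) :
    (((Additive.toMul (uHom f u) : (𝓞 M)ˣ) : 𝓞 M) : M) = f ((Additive.toMul u : (𝓞 H)ˣ) : 𝓞 H) :=
  rfl

lemma uHom_comp (f : H →+* M) (g : M →+* N) (u : Additive (𝓞 H)ˣ) :
    uHom g (uHom f u) = uHom (g.comp f) u := by
  apply Additive.toMul.injective
  apply Units.ext
  apply RingOfIntegers.ext
  rfl

lemma uHom_id (u : Additive (𝓞 H)ˣ) : uHom (RingHom.id H) u = u := by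
  apply Additive.toMul.injective
  apply Units.ext
  apply RingOfIntegers.ext
  rfl

lemma act_tmul (f : H →+* M) (c : ℂ_[p]) (u : Additive (𝓞 H)ˣ) :
    act p f (c ⊗ₜ u : UU p H) = c ⊗ₜ uHom f u := rfl

lemma act_comp (f : H →+* M) (g : M →+* N) (x : UU p H) :
    act p g (act p f x) = act p (g.comp f) x := by
  induction x using TensorProduct.induction_on with
  | zero => simp
  | tmul c u => rw [act_tmul, act_tmul, act_tmul, uHom_comp]
  | add x y hx hy => rw [map_add, map_add, map_add, hx, hy]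

lemma act_id (x : UU p H) : act p (RingHom.id H) x = x := by
  induction x using TensorProduct.induction_on with
  | zero => simp
  | tmul c u => rw [act_tmul, uHom_id]
  | add x y hx hy => rw [map_add, hx, hy]

lemma logT_tmul {L : ℂ_[p] → ℂ_[p]} (hL : IsIwasawaLog p L) (σ : H →+* ℂ_[p]) (c : ℂ_[p])
    (u : Additive (𝓞 H)ˣ) :
    logT hL σ (c ⊗ₜ u) = c * L (σ ((Additive.toMul u : (𝓞 H)ˣ) : 𝓞 H)) := rfl

lemma logT_act {L : ℂ_[p] → ℂ_[p]} (hL : IsIwasawaLog p L) (f : H →+* M) (σ : M →+* ℂ_[p])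
    (x : UU p H) : logT hL σ (act p f x) = logT hL (σ.comp f) x := by
  induction x using TensorProduct.induction_on with
  | zero => simp
  | tmul c u => rw [act_tmul, logT_tmul, logT_tmul]; rfl
  | add x y hx hy => rw [map_add, map_add, map_add, hx, hy]

/-- `u ↦ θ⁻¹ (log |s u|)` -/
noncomputable def lamU (θ : ℂ_[p] ≃+* ℂ) (s : H →+* ℂ) : Additive (𝓞 H)ˣ →+ ℂ_[p] where
  toFun u := θ.symm ((Real.log ‖s ((Additive.toMul u : (𝓞 H)ˣ) : 𝓞 H)‖ : ℝ) : ℂ)
  map_zero' := by simp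
  map_add' u v := by
    rw [toMul_add, Units.val_mul]
    have h1 : ∀ w : (𝓞 H)ˣ, ‖s ((w : 𝓞 H) : H)‖ ≠ 0 := by
      intro w
      rw [norm_ne_zero_iff, Ne, map_eq_zero]
      simp
    have h2 : s (((Additive.toMul u : (𝓞 H)ˣ) : 𝓞 H) * ((Additive.toMul v : (𝓞 H)ˣ) : 𝓞 H) : 𝓞 H)
        = s ((Additive.toMul u : (𝓞 H)ˣ) : 𝓞 H) * s ((Additive.toMul v : (𝓞 H)ˣ) : 𝓞 H) := by
      rw [← map_mul]; rfl
    rw [h2, norm_mul, Real.log_mul (h1 _) (h1 _)]
    push_cast
    rw [map_add]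

/-- the `ℂ_p`-linear extension of `lamU` -/
noncomputable def lamT (θ : ℂ_[p] ≃+* ℂ) (s : H →+* ℂ) : UU p H →ₗ[ℂ_[p]] ℂ_[p] :=
  (lamU θ s).toIntLinearMap.liftBaseChange ℂ_[p]

lemma lamT_tmul (θ : ℂ_[p] ≃+* ℂ) (s : H →+* ℂ) (c : ℂ_[p]) (u : Additive (𝓞 H)ˣ) :
    lamT θ s (c ⊗ₜ u) =
      c * θ.symm ((Real.log ‖s ((Additive.toMul u : (𝓞 H)ˣ) : 𝓞 H)‖ : ℝ) : ℂ) := rfl

lemma lamT_act (θ : ℂ_[p] ≃+* ℂ) (f : H →+* M) (t : M →+* ℂ) (x : UU p H) :
    lamT θ t (act p f x) = lamT θ (t.comp f) x := by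
  induction x using TensorProduct.induction_on with
  | zero => simp
  | tmul c u => rw [act_tmul, lamT_tmul, lamT_tmul]; rfl
  | add x y hx hy => rw [map_add, map_add, map_add, hx, hy]

lemma lamT_congr (θ : ℂ_[p] ≃+* ℂ) (s t : H →+* ℂ) (h : ∀ y, ‖s y‖ = ‖t y‖) (x : UU p H) :
    lamT θ s x = lamT θ t x := by
  induction x using TensorProduct.induction_on with
  | zero => simp
  | tmul c u => rw [lamT_tmul, lamT_tmul, h]
  | add x y hx hy => rw [map_add, map_add, hx, hy]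

end maps

section level

variable {Ω : Type} [Field Ω] [CharZero Ω] [Algebra.IsAlgebraic ℚ Ω]

/-- every element of `ℂ_p ⊗ 𝓞_Ω^×` comes from a number field -/
lemma exists_level (x : UU p Ω) : ∃ (F : IntermediateField ℚ Ω), FiniteDimensional ℚ F ∧
    ∃ y : UU p F, act p (F.val : F →+* Ω) y = x := by
  induction x using TensorProduct.induction_on with
  | zero => exact ⟨⊥, inferInstance, 0, by simp⟩
  | tmul c u =>
    let a : Ω := ((Additive.toMul u : (𝓞 Ω)ˣ) : 𝓞 Ω)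
    let b : Ω := (((Additive.toMul u : (𝓞 Ω)ˣ)⁻¹ : (𝓞 Ω)ˣ) : 𝓞 Ω)
    have hab : a * b = 1 := by
      have h1 := Units.mul_inv (Additive.toMul u : (𝓞 Ω)ˣ)
      exact congrArg (fun z : 𝓞 Ω => (z : Ω)) h1
    have ha : IsIntegral ℤ a := RingOfIntegers.isIntegral_coe _
    have hb : IsIntegral ℤ b := RingOfIntegers.isIntegral_coe _
    let F : IntermediateField ℚ Ω := IntermediateField.adjoin ℚ {a, b}
    have hfd : FiniteDimensional ℚ F := by
      apply IntermediateField.finiteDimensional_adjoin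
      intro x _
      exact (Algebra.IsAlgebraic.isAlgebraic (R := ℚ) x).isIntegral
    have haF : a ∈ F := IntermediateField.subset_adjoin ℚ _ (by simp)
    have hbF : b ∈ F := IntermediateField.subset_adjoin ℚ _ (by simp)
    have hint : ∀ (z : Ω) (hz : z ∈ F), IsIntegral ℤ z → IsIntegral ℤ (⟨z, hz⟩ : F) := by
      intro z hz h
      rwa [← isIntegral_algebraMap_iff (B := Ω) (A := F) (algebraMap F Ω).injective]
    let a' : 𝓞 F := ⟨⟨a, haF⟩, hint a haF ha⟩
    let b' : 𝓞 F := ⟨⟨b, hbF⟩, hint b hbF hb⟩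
    have hab' : a' * b' = 1 := by
      apply RingOfIntegers.ext
      apply Subtype.ext
      exact hab
    let v : (𝓞 F)ˣ := ⟨a', b', hab', by rw [mul_comm]; exact hab'⟩
    refine ⟨F, hfd, c ⊗ₜ Additive.ofMul v, ?_⟩
    rfl
  | add x y hx hy =>
    obtain ⟨F, hF, x', rfl⟩ := hx
    obtain ⟨F', hF', y', rfl⟩ := hy
    have h1 : F ≤ F ⊔ F' := le_sup_left
    have h2 : F' ≤ F ⊔ F' := le_sup_right
    refine ⟨F ⊔ F', inferInstance, act p (IntermediateField.inclusion h1 : F →+* _) x' +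
      act p (IntermediateField.inclusion h2 : F' →+* _) y', ?_⟩
    rw [map_add, act_comp, act_comp]
    rfl

lemma eq_zero_of_lamT (θ : ℂ_[p] ≃+* ℂ) (x : UU p Ω) (hx : ∀ s : Ω →+* ℂ, lamT θ s x = 0) :
    x = 0 := by
  obtain ⟨F, hF, y, rfl⟩ := exists_level x
  have : NumberField F := { to_charZero := inferInstance, to_finiteDimensional := hF }
  have h : y = 0 := by
    refine eq_zero_of_lam (H := F) θ y fun s => ?_
    obtain ⟨t, ht⟩ : ∃ t : Ω →+* ℂ, t.comp (F.val : F →+* Ω) = s := by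
      let := s.toAlgebra
      have : Algebra.IsAlgebraic F Ω := Algebra.IsAlgebraic.tower_top (K := ℚ) F
      let φ : Ω →ₐ[F] ℂ := IsAlgClosed.lift
      exact ⟨φ, φ.comp_algebraMap⟩
    have h1 := hx t
    rw [lamT_act, ht] at h1
    exact h1
  rw [h, map_zero]

lemma nearU_unitΩ (s : Ω →+* ℂ_[p]) (u : (𝓞 Ω)ˣ) : NearU (s (u : 𝓞 Ω)) := by
  have halg : IsAlgebraic ℚ (s (u : 𝓞 Ω)) :=
    (Algebra.IsAlgebraic.isAlgebraic (R := ℚ) ((u : 𝓞 Ω) : Ω)).algHom (RingHom.toRatAlgHom s)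
  refine ⟨?_, halg, ?_⟩
  · rw [Ne, map_eq_zero]; simp
  · intro δ hδ
    obtain ⟨v, -, hv⟩ := pre_alg halg
    have h1 : ‖v‖ = 1 := by
      rw [← norm_ic, hv]
      exact norm_emb_unit s u
    obtain ⟨N, hN, h2⟩ := exists_pow_near p v h1 δ hδ
    refine ⟨N, hN, ?_⟩
    rw [← hv]
    have h3 : ic p v ^ N - 1 = ic p (v ^ N - 1) := by rw [map_sub, map_pow, map_one]
    rw [h3, norm_ic]
    exact h2

end level

end Pool.Agent.Helper864WL
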