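import Mathlib

set_option autoImplicit false
set_option linter.unusedSectionVars false

/-!
# Burnside's theorem on irreducible groups of matrices
-/

namespace Pool.Agent.Helper864WL

open Module

variable {k : Type} [Field k] [IsAlgClosed k] {d : ℕ} {G : Type} [Group G]

/-- **Burnside's theorem.** -/
theorem burnside (ρ : G →* GL (Fin d) k)
    (hirr : ∀ W : Submodule k (Fin d → k),
      (∀ g : G, ∀ x ∈ W, (ρ g : Matrix (Fin d) (Fin d) k).mulVec x ∈ W) → W = ⊥ ∨ W = ⊤)
    (hd : 0 < d) :
    Submodule.span k (Set.range fun g => (ρ g : Matrix (Fin d) (Fin d) k)) = ⊤ := by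
  classical
  let V := Fin d → k
  -- the subalgebra
  let S : Submonoid (Module.End k V) := MonoidHom.mrange
    ((Matrix.toLinAlgEquiv' (R := k) (n := Fin d) : _ →* Module.End k V).comp
      ((Units.coeHom _).comp ρ))
  let A : Subalgebra k (Module.End k V) := Algebra.adjoin k (S : Set (Module.End k V))
  have hA : Subalgebra.toSubmodule A = Submodule.span k (S : Set (Module.End k V)) := by
    rw [Algebra.adjoin_eq_span, Submonoid.closure_eq]
  have hgA : ∀ g : G, Matrix.toLin' (ρ g : Matrix (Fin d) (Fin d) k) ∈ A :=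
    fun g => Algebra.subset_adjoin ⟨g, rfl⟩
  have : Nontrivial V := by
    have : Nonempty (Fin d) := ⟨⟨0, hd⟩⟩
    infer_instance
  have hsimple : IsSimpleModule A V := by
    rw [isSimpleModule_iff]
    refine { exists_pair_ne := ⟨⊥, ⊤, bot_ne_top⟩, eq_bot_or_eq_top := fun W => ?_ }
    let W' : Submodule k V := W.restrictScalars k
    rcases hirr W' (fun g x hx => W.smul_mem ⟨_, hgA g⟩ hx) with h | h
    · left
      ext x
      have h1 : x ∈ W' ↔ x ∈ (⊥ : Submodule k V) := by rw [h]
      exact h1
    · right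
      ext x
      have h1 : x ∈ W' ↔ x ∈ (⊤ : Submodule k V) := by rw [h]
      exact h1
  have hend := IsSimpleModule.algebraMap_end_bijective_of_isAlgClosed (A := A) (V := V) k
  rw [eq_top_iff]
  rintro M -
  let f0 : V →ₗ[k] V := Matrix.toLin' M
  let f : Module.End (Module.End A V) V :=
    { toFun := f0
      map_add' := map_add f0
      map_smul' := fun φ v => by
        obtain ⟨c, hc⟩ := hend.2 φ
        have h1 : ∀ v : V, φ • v = c • v := by
          intro v
          rw [← hc]
          rfl
        rw [RingHom.id_apply, h1, h1, map_smul] }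
  obtain ⟨r, hr⟩ := jacobson_density (R := A) (M := V) f
    (Finset.univ.image fun i : Fin d => (Pi.single i (1 : k) : V))
  have hf0 : f0 = (r : Module.End k V) := by
    apply LinearMap.pi_ext'
    intro i
    apply LinearMap.ext_ring
    exact hr _ (Finset.mem_image_of_mem _ (Finset.mem_univ i))
  have h1 : f0 ∈ Submodule.span k (S : Set (Module.End k V)) := by
    rw [← hA, hf0]
    exact r.2
  have h2 : (S : Set (Module.End k V)) = (Matrix.toLin' : Matrix (Fin d) (Fin d) k ≃ₗ[k] _) ''
      (Set.range fun g => (ρ g : Matrix (Fin d) (Fin d) k)) := by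
    ext φ
    constructor
    · rintro ⟨g, rfl⟩
      exact ⟨_, ⟨g, rfl⟩, rfl⟩
    · rintro ⟨_, ⟨g, rfl⟩, rfl⟩
      exact ⟨g, rfl⟩
  have h3 : f0 ∈ (Submodule.span k (Set.range fun g => (ρ g : Matrix (Fin d) (Fin d) k))).map
      ((Matrix.toLin' : Matrix (Fin d) (Fin d) k ≃ₗ[k] _) : Matrix (Fin d) (Fin d) k →ₗ[k] _) := by
    rw [Submodule.map_span]
    rw [h2] at h1
    exact h1
  obtain ⟨M', hM', h4⟩ := h3
  have h5 : M' = M := (Matrix.toLin' : Matrix (Fin d) (Fin d) k ≃ₗ[k] _).injective h4
  rwa [← h5]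

end Pool.Agent.Helper864WL
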