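import Pool.Agent.Helper864_WL.Ind

set_option autoImplicit false
set_option linter.unusedSectionVars false

/-!
# The number of conjugates of an element of the kernel is bounded by its coordinates
-/

namespace Pool.Agent.Helper864WL

open NumberField TensorProduct Pool.Agent.W289.SL Module

variable {p : ℕ} [Fact p.Prime]

/-- extension of embeddings -/
lemma exists_extend {K Ω Ω' : Type} [Field K] [Field Ω] [Field Ω'] [Algebra K Ω]
    [Algebra.IsAlgebraic K Ω] [IsAlgClosed Ω'] (τ : K →+* Ω') :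
    ∃ f : Ω →+* Ω', f.comp (algebraMap K Ω) = τ := by
  let := τ.toAlgebra
  let f : Ω →ₐ[K] Ω' := IsAlgClosed.lift
  exact ⟨f, f.comp_algebraMap⟩

/-- embeddings into an algebraically closed algebraic extension extend to automorphisms -/
lemma exists_autΩ {K Ω : Type} [Field K] [Field Ω] [CharZero Ω] [Algebra K Ω]
    [Algebra.IsAlgebraic K Ω] [Algebra.IsAlgebraic ℚ Ω] [IsAlgClosed Ω] (τ : K →+* Ω) :
    ∃ α : RingAut Ω, ∀ x, (α : Ω ≃+* Ω) (algebraMap K Ω x) = τ x := by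
  obtain ⟨f, hf⟩ := exists_extend (Ω := Ω) τ
  have hbij : Function.Bijective (RingHom.toRatAlgHom f) :=
    Algebra.IsAlgebraic.algHom_bijective (RingHom.toRatAlgHom f)
  exact ⟨RingEquiv.ofBijective f hbij, fun x => RingHom.congr_fun hf x⟩

variable {Ω : Type} [Field Ω] [CharZero Ω] [Algebra.IsAlgebraic ℚ Ω] [IsAlgClosed Ω]
  {K : Type} [Field K] [NumberField K] [Algebra K Ω] [Algebra.IsAlgebraic K Ω] {d : ℕ}

lemma not_mem_range {α : (K →+* Ω) → RingAut Ω}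
    (hα : ∀ τ x, (α τ : Ω ≃+* Ω) (algebraMap K Ω x) = τ x) {τ τ' : K →+* Ω} (hne : τ ≠ τ') :
    (α τ)⁻¹ * α τ' ∉ (toR : (Ω ≃ₐ[K] Ω) →* RingAut Ω).range := by
  rw [mem_range_toR]
  intro hcon
  apply hne
  ext x
  have h1 := hcon x
  have h2 : (α τ : Ω ≃+* Ω) (((α τ)⁻¹ * α τ' : RingAut Ω) (algebraMap K Ω x)) =
      (α τ : Ω ≃+* Ω) (algebraMap K Ω x) := congrArg _ h1
  have h3 : (α τ : Ω ≃+* Ω) (((α τ)⁻¹ * α τ' : RingAut Ω) (algebraMap K Ω x)) =
      (α τ' : Ω ≃+* Ω) (algebraMap K Ω x) := by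
    change (α τ * ((α τ)⁻¹ * α τ') : RingAut Ω) (algebraMap K Ω x) = _
    rw [mul_inv_cancel_left]
  rw [← hα τ, ← hα τ', ← h2, h3]

/-- **Bound for the number of conjugates.** -/
theorem conj_bound {ρ : (Ω ≃ₐ[K] Ω) →* GL (Fin d) ℂ_[p]} (hρ : IsIrred ρ)
    {κ : (Ω ≃ₐ[K] Ω) →* ℂ_[p]} (N : Subgroup (RingAut Ω)) (hN : N.Normal)
    (c : N →* (Ω ≃ₐ[K] Ω)) (hc : ∀ β, toR (c β) = β) (hρN : ∀ β, ρ (c β) = 1)
    (α : (K →+* Ω) → RingAut Ω)
    (hsep : ∀ τ τ', τ ≠ τ' → ∃ g g' : N,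
      (g' : RingAut Ω) = ((α τ)⁻¹ * α τ')⁻¹ * g * ((α τ)⁻¹ * α τ') ∧ κ (c g) ≠ κ (c g'))
    {y : Fin d → UU p Ω} (hy : y ∈ Xsp ρ κ) (hy0 : y ≠ 0) {L : ℂ_[p] → ℂ_[p]}
    (hL : IsIwasawaLog p L) (hlog : ∀ (σ : Ω →+* ℂ_[p]) j, logT hL σ (y j) = 0)
    (A : Submodule (algebraicClosure ℚ ℂ_[p]) ℂ_[p])
    [FiniteDimensional (algebraicClosure ℚ ℂ_[p]) A] (hA : ∀ j, HasCo A (y j)) :
    finrank ℚ K * d ≤ finrank (algebraicClosure ℚ ℂ_[p]) A *
      (finrank (algebraicClosure ℚ ℂ_[p]) A - 1) := by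
  classical
  let conj : RingAut Ω → (N →* N) := fun a =>
    { toFun := fun β => ⟨a⁻¹ * β * a, by
        have := hN.conj_mem β β.2 a⁻¹
        rwa [inv_inv] at this⟩
      map_one' := by ext1; simp
      map_mul' := fun x y => by
        ext1
        change a⁻¹ * ((x : RingAut Ω) * y) * a = a⁻¹ * x * a * (a⁻¹ * y * a)
        group }
  have hconj : ∀ a β, ((conj a β : N) : RingAut Ω) = a⁻¹ * β * a := fun a β => rfl
  let χ : (K →+* Ω) → (N →* ℂ_[p]) := fun τ => κ.comp (c.comp (conj (α τ)))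
  have hχ : Function.Injective χ := by
    intro τ τ' h
    by_contra hne
    obtain ⟨g, g', hg, hgg⟩ := hsep τ τ' hne
    apply hgg
    let β : N := ⟨α τ * g * (α τ)⁻¹, hN.conj_mem g g.2 (α τ)⟩
    have h1 : conj (α τ) β = g := by
      apply Subtype.ext
      rw [hconj]
      change (α τ)⁻¹ * (α τ * g * (α τ)⁻¹) * α τ = g
      group
    have h2 : conj (α τ') β = g' := by
      apply Subtype.ext
      rw [hconj, hg]
      change (α τ')⁻¹ * (α τ * g * (α τ)⁻¹) * α τ' = _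
      group
    have h3 := DFunLike.congr_fun h β
    change κ (c (conj (α τ) β)) = κ (c (conj (α τ') β)) at h3
    rwa [h1, h2] at h3
  have hli := indep_of_irred hρ hy hy0
  have hconjy := indep_conjΩ y hli α N χ hχ (by
    intro τ β i
    have h1 : ract (β : RingAut Ω) (ract (α τ) (y i)) =
        ract (α τ) (ract ((conj (α τ) β : N) : RingAut Ω) (y i)) := by
      rw [← ract_mul, ← ract_mul, hconj]
      congr 2
      group
    rw [h1, ← hc, hy, hρN]
    rw [Finset.sum_eq_single i]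
    · rw [map_smul]
      congr 1
      simp [χ]
    · intro j _ hj
      simp [Matrix.one_apply_ne hj]
    · intro h
      exact absurd (Finset.mem_univ i) h)
  obtain ⟨σ⟩ : Nonempty (Ω →+* ℂ_[p]) := by
    obtain ⟨f, -⟩ := exists_extend (K := ℚ) (Ω := Ω) (algebraMap ℚ ℂ_[p])
    exact ⟨f⟩
  have h1 := core_ineq hL σ A (fun q : (K →+* Ω) × Fin d => ract (α q.1) (y q.2)) hconjy
    (fun q => (hA q.2).act _) (fun q => by
      unfold ract
      rw [logT_act]
      exact hlog _ _)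
  rwa [Fintype.card_prod, NumberField.Embeddings.card, Fintype.card_fin] at h1

end Pool.Agent.Helper864WL
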