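import Pool.Agent.Helper864_WL.Basic
import Pool.Agent.W254.Ab.Rel

set_option autoImplicit false
set_option linter.unusedSectionVars false

/-!
# Coordinates of elements of `ℂ_p ⊗ 𝓞_Ω^×`, and the hyperplane theorem
-/

namespace Pool.Agent.Helper864WL

open NumberField TensorProduct Pool.Agent.W289.SL Module
open Pool.Agent.W332.SL6 (NearU pre_alg brumerC hypC log_mem exists_pow_one)
open Pool.Agent.W254.PA (LgP Hyp LtE)

variable {p : ℕ} [Fact p.Prime] {Ω : Type} [Field Ω]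

/-- `x` is a sum of tensors `a ⊗ u` with `a ∈ A` -/
def HasCo (A : Submodule (algebraicClosure ℚ ℂ_[p]) ℂ_[p]) (x : UU p Ω) : Prop :=
  x ∈ AddSubmonoid.closure {y : UU p Ω | ∃ a ∈ A, ∃ u : Additive (𝓞 Ω)ˣ, y = a ⊗ₜ[ℤ] u}

lemma HasCo.zero (A : Submodule (algebraicClosure ℚ ℂ_[p]) ℂ_[p]) : HasCo A (0 : UU p Ω) :=
  AddSubmonoid.zero_mem _

lemma HasCo.add {A : Submodule (algebraicClosure ℚ ℂ_[p]) ℂ_[p]} {x y : UU p Ω}
    (hx : HasCo A x) (hy : HasCo A y) : HasCo A (x + y) :=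
  AddSubmonoid.add_mem _ hx hy

lemma HasCo.sum {A : Submodule (algebraicClosure ℚ ℂ_[p]) ℂ_[p]} {κ : Type*} (s : Finset κ)
    {x : κ → UU p Ω} (hx : ∀ k ∈ s, HasCo A (x k)) : HasCo A (∑ k ∈ s, x k) :=
  AddSubmonoid.sum_mem _ hx

lemma HasCo.tmul {A : Submodule (algebraicClosure ℚ ℂ_[p]) ℂ_[p]} {a : ℂ_[p]} (ha : a ∈ A)
    (u : Additive (𝓞 Ω)ˣ) : HasCo A (a ⊗ₜ[ℤ] u : UU p Ω) :=
  AddSubmonoid.subset_closure ⟨a, ha, u, rfl⟩

lemma HasCo.act {Ω' : Type} [Field Ω'] {A : Submodule (algebraicClosure ℚ ℂ_[p]) ℂ_[p]}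
    {x : UU p Ω} (hx : HasCo A x) (f : Ω →+* Ω') : HasCo A (act p f x) := by
  refine AddSubmonoid.closure_induction (motive := fun x _ => HasCo A (Helper864WL.act p f x))
    ?_ ?_ ?_ hx
  · rintro _ ⟨a, ha, u, rfl⟩
    rw [act_tmul]
    exact HasCo.tmul ha _
  · rw [map_zero]; exact HasCo.zero A
  · rintro x y - - h1 h2
    rw [map_add]; exact h1.add h2

/-- elements with algebraic coordinates, multiplied by `c ∈ A` -/
lemma HasCo.smul {A : Submodule (algebraicClosure ℚ ℂ_[p]) ℂ_[p]} {x : UU p Ω}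
    (hx : HasCo 1 x) {c : ℂ_[p]} (hc : c ∈ A) : HasCo A (c • x) := by
  refine AddSubmonoid.closure_induction (motive := fun x _ => HasCo A (c • x)) ?_ ?_ ?_ hx
  · rintro _ ⟨a, ha, u, rfl⟩
    rw [TensorProduct.smul_tmul', smul_eq_mul]
    apply HasCo.tmul
    obtain ⟨b, rfl⟩ := Submodule.mem_one.1 ha
    rw [mul_comm, ← Algebra.smul_def]
    exact A.smul_mem b hc
  · rw [smul_zero]; exact HasCo.zero A
  · rintro x y - - h1 h2
    rw [smul_add]; exact h1.add h2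

/-- the map `φ ⊗ 1` -/
noncomputable def tw (φ : ℂ_[p] →ₗ[algebraicClosure ℚ ℂ_[p]] ℂ_[p]) : UU p Ω →ₗ[ℤ] UU p Ω :=
  (φ.toAddMonoidHom.toIntLinearMap).rTensor (Additive (𝓞 Ω)ˣ)

lemma tw_tmul (φ : ℂ_[p] →ₗ[algebraicClosure ℚ ℂ_[p]] ℂ_[p]) (c : ℂ_[p])
    (u : Additive (𝓞 Ω)ˣ) : tw φ (c ⊗ₜ[ℤ] u : UU p Ω) = φ c ⊗ₜ[ℤ] u := rfl

lemma tw_act (φ : ℂ_[p] →ₗ[algebraicClosure ℚ ℂ_[p]] ℂ_[p]) (f : Ω →+* Ω) (x : UU p Ω) :
    tw φ (act p f x) = act p f (tw φ x) := by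
  induction x using TensorProduct.induction_on with
  | zero => simp
  | tmul c u => rw [act_tmul, tw_tmul, tw_tmul, act_tmul]
  | add x y hx hy => rw [map_add, map_add, map_add, map_add, hx, hy]

lemma tw_smul (φ : ℂ_[p] →ₗ[algebraicClosure ℚ ℂ_[p]] ℂ_[p]) {c : ℂ_[p]}
    (hc : IsAlgebraic ℚ c) (x : UU p Ω) : tw φ (c • x) = c • tw φ x := by
  induction x using TensorProduct.induction_on with
  | zero => simp
  | tmul a u =>
    rw [TensorProduct.smul_tmul', tw_tmul, tw_tmul, TensorProduct.smul_tmul']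
    congr 1
    exact φ.map_smul (⟨c, mem_algebraicClosure_iff.2 hc⟩ : algebraicClosure ℚ ℂ_[p]) a
  | add x y hx hy => rw [smul_add, map_add, map_add, smul_add, hx, hy]

variable (p Ω) in
/-- a basis of `ℂ_p ⊗ 𝓞_Ω^×` consisting of units -/
lemma exists_basis : ∃ (ι : Type) (B : Basis ι ℂ_[p] (UU p Ω)) (u : ι → Additive (𝓞 Ω)ˣ),
    ∀ i, B i = (1 : ℂ_[p]) ⊗ₜ[ℤ] u i := by
  obtain ⟨b, hb, hspan, hli⟩ := exists_linearIndependent ℂ_[p]
    (Set.range fun u : Additive (𝓞 Ω)ˣ => (1 : ℂ_[p]) ⊗ₜ[ℤ] u)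
  have htop : ⊤ ≤ Submodule.span ℂ_[p] b := by
    rw [hspan]
    rintro x -
    induction x using TensorProduct.induction_on with
    | zero => exact zero_mem _
    | tmul c u =>
      have h1 : (c ⊗ₜ[ℤ] u : UU p Ω) = c • ((1 : ℂ_[p]) ⊗ₜ[ℤ] u) := by
        rw [TensorProduct.smul_tmul', smul_eq_mul, mul_one]
      rw [h1]
      exact Submodule.smul_mem _ _ (Submodule.subset_span ⟨u, rfl⟩)
    | add x y hx hy => exact add_mem hx hy
  refine ⟨b, Basis.mk hli (by rwa [Subtype.range_coe]), fun i => (hb i.2).choose, fun i => ?_⟩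
  rw [Basis.mk_apply]
  exact (hb i.2).choose_spec.symm

section basis

variable {ι : Type} (B : Basis ι ℂ_[p] (UU p Ω)) {u : ι → Additive (𝓞 Ω)ˣ}
  (hB : ∀ i, B i = (1 : ℂ_[p]) ⊗ₜ[ℤ] u i)

include hB

lemma repr_tw (φ : ℂ_[p] →ₗ[algebraicClosure ℚ ℂ_[p]] ℂ_[p]) (x : UU p Ω) (i : ι) :
    B.repr (tw φ x) i = φ (B.repr x i) := by
  classical
  have h1 := B.linearCombination_repr x
  rw [Finsupp.linearCombination_apply, Finsupp.sum] at h1
  have h2 : tw φ x = ∑ i ∈ (B.repr x).support, φ (B.repr x i) • B i := by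
    conv_lhs => rw [← h1]
    rw [map_sum]
    refine Finset.sum_congr rfl fun i _ => ?_
    rw [hB, TensorProduct.smul_tmul', smul_eq_mul, mul_one, tw_tmul, TensorProduct.smul_tmul',
      smul_eq_mul, mul_one]
  rw [h2, map_sum, Finsupp.finsetSum_apply]
  have h3 : ∀ k ∈ (B.repr x).support, (B.repr (φ (B.repr x k) • B k)) i =
      if k = i then φ (B.repr x k) else 0 := by
    intro k _
    rw [map_smul, Finsupp.smul_apply, B.repr_self, Finsupp.single_apply, smul_eq_mul]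
    split_ifs <;> simp
  rw [Finset.sum_congr rfl h3, Finset.sum_ite_eq']
  split_ifs with h
  · rfl
  · rw [Finsupp.notMem_support_iff.1 h, map_zero]

/-- units have algebraic coordinates -/
lemma repr_unit (v : Additive (𝓞 Ω)ˣ) (i : ι) :
    B.repr ((1 : ℂ_[p]) ⊗ₜ[ℤ] v) i ∈ (1 : Submodule (algebraicClosure ℚ ℂ_[p]) ℂ_[p]) := by
  by_contra hcon
  obtain ⟨f, hf, hf1⟩ := Submodule.exists_le_ker_of_notMem hcon
  let φ : ℂ_[p] →ₗ[algebraicClosure ℚ ℂ_[p]] ℂ_[p] :=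
    (Algebra.linearMap (algebraicClosure ℚ ℂ_[p]) ℂ_[p]).comp f
  have h1 := repr_tw B hB φ ((1 : ℂ_[p]) ⊗ₜ[ℤ] v) i
  rw [tw_tmul] at h1
  have h2 : φ 1 = 0 := by
    have h3 : f 1 = 0 := hf1 (Submodule.mem_one.2 ⟨1, map_one _⟩)
    change algebraMap _ _ (f 1) = 0
    rw [h3, map_zero]
  rw [h2, TensorProduct.zero_tmul, map_zero, Finsupp.zero_apply] at h1
  apply hf
  have h4 : algebraMap (algebraicClosure ℚ ℂ_[p]) ℂ_[p]
    (f (B.repr ((1 : ℂ_[p]) ⊗ₜ[ℤ] v) i)) = 0 := h1.symm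
  exact (map_eq_zero _).1 h4

lemma HasCo.repr {A : Submodule (algebraicClosure ℚ ℂ_[p]) ℂ_[p]} {x : UU p Ω}
    (hx : HasCo A x) (i : ι) : B.repr x i ∈ A := by
  refine AddSubmonoid.closure_induction (motive := fun x _ => B.repr x i ∈ A) ?_ ?_ ?_ hx
  · rintro _ ⟨a, ha, v, rfl⟩
    have h1 : (a ⊗ₜ[ℤ] v : UU p Ω) = a • ((1 : ℂ_[p]) ⊗ₜ[ℤ] v) := by
      rw [TensorProduct.smul_tmul', smul_eq_mul, mul_one]
    rw [h1, map_smul, Finsupp.smul_apply, smul_eq_mul]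
    obtain ⟨b, hb⟩ := Submodule.mem_one.1 (repr_unit B hB v i)
    rw [← hb, mul_comm, ← Algebra.smul_def]
    exact A.smul_mem b ha
  · rw [map_zero, Finsupp.zero_apply]; exact A.zero_mem
  · rintro x y - - h1 h2
    rw [map_add, Finsupp.add_apply]; exact A.add_mem h1 h2

lemma hasCo_of_repr {A : Submodule (algebraicClosure ℚ ℂ_[p]) ℂ_[p]} {x : UU p Ω}
    (hx : ∀ i, B.repr x i ∈ A) : HasCo A x := by
  have h1 := B.linearCombination_repr x
  rw [Finsupp.linearCombination_apply, Finsupp.sum] at h1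
  rw [← h1]
  refine HasCo.sum _ fun i _ => ?_
  rw [hB, TensorProduct.smul_tmul', smul_eq_mul, mul_one]
  exact HasCo.tmul (hx i) _

end basis

/-- **The hyperplane theorem for `ℂ_p ⊗ 𝓞_Ω^×`.** -/
theorem core_ineq [CharZero Ω] [Algebra.IsAlgebraic ℚ Ω] {L : ℂ_[p] → ℂ_[p]}
    (hL : IsIwasawaLog p L) (σ : Ω →+* ℂ_[p])
    (A : Submodule (algebraicClosure ℚ ℂ_[p]) ℂ_[p]) [FiniteDimensional (algebraicClosure ℚ ℂ_[p]) A]
    {κ : Type*} [Fintype κ] (x : κ → UU p Ω) (hx : LinearIndependent ℂ_[p] x)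
    (hA : ∀ k, HasCo A (x k)) (h0 : ∀ k, logT hL σ (x k) = 0) :
    Fintype.card κ ≤ finrank (algebraicClosure ℚ ℂ_[p]) A *
      (finrank (algebraicClosure ℚ ℂ_[p]) A - 1) := by
  classical
  obtain ⟨ι, B, u, hB⟩ := exists_basis p Ω
  let w : ι → ℂ_[p] := fun i => L (σ ((Additive.toMul (u i) : (𝓞 Ω)ˣ) : 𝓞 Ω))
  have hnear : ∀ v : Additive (𝓞 Ω)ˣ, NearU (σ ((Additive.toMul v : (𝓞 Ω)ˣ) : 𝓞 Ω)) :=
    fun v => nearU_unitΩ σ _
  -- the logarithms are independent over `ℚ`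
  have hwQ : LinearIndependent ℚ w := by
    rw [← LinearIndependent.iff_fractionRing ℤ ℚ, linearIndependent_iff']
    intro s n hn i hi
    have h1 : logU hL σ (∑ k ∈ s, n k • u k) = 0 := by
      rw [map_sum, ← hn]
      refine Finset.sum_congr rfl fun k _ => ?_
      rw [map_zsmul]
      rfl
    set v : (𝓞 Ω)ˣ := Additive.toMul (∑ k ∈ s, n k • u k) with hv
    have h2 : L (σ (v : 𝓞 Ω)) = 0 := h1
    obtain ⟨m, hm, h3⟩ := exists_pow_one hL (nearU_unitΩ σ v) h2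
    have h4 : v ^ m = 1 := by
      apply Units.ext
      apply RingOfIntegers.ext
      apply σ.injective
      rw [Units.val_pow_eq_pow_val]
      simpa using h3
    have h5 : (m : ℤ) • ∑ k ∈ s, n k • u k = 0 := by
      apply Additive.toMul.injective
      rw [toMul_zsmul, zpow_natCast, ← hv, h4, toMul_zero]
    have h6 : ∑ k ∈ s, ((n k : ℂ_[p]) * (m : ℂ_[p])) • B k = 0 := by
      have h7 := congrArg (fun z : Additive (𝓞 Ω)ˣ => (1 : ℂ_[p]) ⊗ₜ[ℤ] z) h5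
      simp only [TensorProduct.tmul_zero] at h7
      have h8 : ∀ (a : ℤ) (v : Additive (𝓞 Ω)ˣ), (1 : ℂ_[p]) ⊗ₜ[ℤ] (a • v) =
          (a : ℂ_[p]) • ((1 : ℂ_[p]) ⊗ₜ[ℤ] v) := by
        intro a v
        rw [Int.cast_smul_eq_zsmul]
        exact map_zsmul ((TensorProduct.mk ℤ ℂ_[p] (Additive (𝓞 Ω)ˣ)) 1) a v
      rw [← h7, h8, TensorProduct.tmul_sum, Finset.smul_sum]
      refine Finset.sum_congr rfl fun k _ => ?_
      rw [h8, hB, smul_smul]
      congr 1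
      push_cast
      ring
    have h9 := linearIndependent_iff'.1 B.linearIndependent s _ h6 i hi
    have hm0 : (m : ℂ_[p]) ≠ 0 := by
      have : m ≠ 0 := by omega
      exact_mod_cast this
    exact_mod_cast (mul_eq_zero.1 h9).resolve_right hm0
  -- hence over the algebraic numbers
  have hw : LinearIndependent (algebraicClosure ℚ ℂ_[p]) w := by
    rw [linearIndependent_iff']
    intro s c hc i hi
    have h1 := brumerC hL (fun k : s => σ ((Additive.toMul (u k) : (𝓞 Ω)ˣ) : 𝓞 Ω))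
      (fun k => hnear _) (hwQ.comp _ Subtype.val_injective) (fun k => (c k : ℂ_[p]))
      (fun k => mem_algebraicClosure_iff.1 (c k).2)
      ((Finset.sum_coe_sort s (fun k => (c k : ℂ_[p]) * w k)).trans hc) ⟨i, hi⟩
    exact Subtype.ext h1
  let e := Fintype.equivFinOfCardEq (rfl : Fintype.card κ = Fintype.card κ)
  have hf : LinearIndependent ℂ_[p] (fun m => B.repr (x (e.symm m))) := by
    have h1 := (hx.comp e.symm e.symm.injective).map' (B.repr : UU p Ω →ₗ[ℂ_[p]] ι →₀ ℂ_[p])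
      (LinearEquiv.ker _)
    exact h1
  have hone : finrank (algebraicClosure ℚ ℂ_[p])
      (1 : Submodule (algebraicClosure ℚ ℂ_[p]) ℂ_[p]) = 1 := by
    rw [Submodule.one_eq_span, finrank_span_singleton one_ne_zero]
  have hfd1 : FiniteDimensional (algebraicClosure ℚ ℂ_[p])
      (1 : Submodule (algebraicClosure ℚ ℂ_[p]) ℂ_[p]) := by
    rw [Submodule.one_eq_span]
    infer_instance
  have h1 := Pool.Agent.W254.Ab.rel_core hypC w hw
    (fun i => Submodule.subset_span (Or.inr (log_mem hL (hnear (u i))))) A 1 A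
    (fun b hb a ha => by
      have := Submodule.mul_mem_mul hb ha
      rwa [one_mul] at this) (Fintype.card κ) (fun m => B.repr (x (e.symm m))) hf
    (fun m i => (hA (e.symm m)).repr B hB i) (fun m => by
      have h2 := B.linearCombination_repr (x (e.symm m))
      have h3 := h0 (e.symm m)
      rw [← h2, Finsupp.linearCombination_apply, Finsupp.sum, map_sum] at h3
      rw [Finsupp.sum, ← h3]
      refine Finset.sum_congr rfl fun i _ => ?_
      rw [map_smul, hB, logT_tmul, one_mul, smul_eq_mul])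
  rwa [hone, mul_one] at h1

end Pool.Agent.Helper864WL
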