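import Mathlib
import Pool.Agent.W289.SL.Defs

set_option autoImplicit false

/-!
# Units of an algebraic closure, tensored with `ℂ_p`
-/

namespace Pool.Agent.Helper864WL

open NumberField TensorProduct Pool.Agent.W289.SL

section defs

variable (p : ℕ) [Fact p.Prime]

/-- `ℂ_p ⊗ 𝓞_H^×`, for a field `H` of any degree over `ℚ` -/
abbrev UU (H : Type) [Field H] : Type := ℂ_[p] ⊗[ℤ] Additive (𝓞 H)ˣ

variable {H M N : Type} [Field H] [Field M] [Field N]

/-- the map on units induced by a ring homomorphism, written additively -/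
noncomputable def uHom (f : H →+* M) : Additive (𝓞 H)ˣ →+ Additive (𝓞 M)ˣ :=
  MonoidHom.toAdditive (Units.map (RingOfIntegers.mapRingHom f).toMonoidHom)

/-- the map on `ℂ_p ⊗ 𝓞_H^×` induced by a ring homomorphism -/
noncomputable def act (f : H →+* M) : UU p H →ₗ[ℂ_[p]] UU p M :=
  (uHom f).toIntLinearMap.baseChange ℂ_[p]

variable {p}

/-- `u ↦ log_p (σ u)` on units -/
noncomputable def logU {L : ℂ_[p] → ℂ_[p]} (hL : IsIwasawaLog p L) (σ : H →+* ℂ_[p]) :
    Additive (𝓞 H)ˣ →+ ℂ_[p] where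
  toFun u := L (σ ((Additive.toMul u : (𝓞 H)ˣ) : 𝓞 H))
  map_zero' := by
    have h := hL.mul 1 1 one_ne_zero one_ne_zero
    rw [mul_one] at h
    have h2 : L 1 = 0 := left_eq_add.1 h
    simpa using h2
  map_add' u v := by
    rw [toMul_add, Units.val_mul, ← hL.mul]
    · congr 1
      rw [← map_mul]
      rfl
    · rw [Ne, map_eq_zero]
      simp
    · rw [Ne, map_eq_zero]
      simp

/-- the `ℂ_p`-linear extension of `u ↦ log_p (σ u)` -/
noncomputable def logT {L : ℂ_[p] → ℂ_[p]} (hL : IsIwasawaLog p L) (σ : H →+* ℂ_[p]) :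
    UU p H →ₗ[ℂ_[p]] ℂ_[p] :=
  (logU hL σ).toIntLinearMap.liftBaseChange ℂ_[p]

end defs

end Pool.Agent.Helper864WL
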