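import Mathlib

set_option autoImplicit false
set_option linter.unusedSectionVars false

/-!
# Homomorphisms to `ℤ_p` with large image
-/

namespace Pool.Agent.Helper864WL

open Module

variable {p : ℕ} [Fact p.Prime] {G : Type*} [Group G] [TopologicalSpace G]

lemma exists_divide (ψ : G →* Multiplicative ℤ_[p]) (hψ : Continuous ψ) {n : ℕ} (hn : n ≠ 0)
    (hrange : ∀ z : Multiplicative ℤ_[p], ∃ g, ψ g = z ^ n) :
    ∃ (r : ℕ) (ψ' : G →* Multiplicative ℤ_[p]), Continuous ψ' ∧ Function.Surjective ψ' ∧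
      ∀ g, ψ g = ψ' g ^ (p ^ r) := by
  classical
  have hn0 : (n : ℤ_[p]) ≠ 0 := by exact_mod_cast hn
  have hnI : Ideal.span {(n : ℤ_[p])} ≠ ⊥ := by
    rw [Ne, Ideal.span_singleton_eq_bot]
    exact hn0
  obtain ⟨j, hj⟩ := PadicInt.ideal_eq_span_pow_p hnI
  have hadd : ∀ g h, Multiplicative.toAdd (ψ (g * h)) =
      Multiplicative.toAdd (ψ g) + Multiplicative.toAdd (ψ h) := by
    intro g h
    rw [map_mul, toAdd_mul]
  have hmulN : ∀ z : ℤ_[p], ∃ g, Multiplicative.toAdd (ψ g) = n * z := by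
    intro z
    obtain ⟨g, hg⟩ := hrange (Multiplicative.ofAdd z)
    refine ⟨g, ?_⟩
    rw [hg, toAdd_pow, nsmul_eq_mul]
    rfl
  let I : Ideal ℤ_[p] :=
    { carrier := {z | ∃ g, Multiplicative.toAdd (ψ g) = z}
      zero_mem' := ⟨1, by rw [map_one, toAdd_one]⟩
      add_mem' := by
        rintro _ _ ⟨g, rfl⟩ ⟨h, rfl⟩
        exact ⟨g * h, hadd g h⟩
      smul_mem' := by
        rintro x _ ⟨g, rfl⟩
        have h1 := PadicInt.appr_spec j x
        rw [← hj, Ideal.mem_span_singleton] at h1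
        obtain ⟨y, hy⟩ := h1
        obtain ⟨h, hh⟩ := hmulN (y * Multiplicative.toAdd (ψ g))
        refine ⟨h * g ^ (x.appr j), ?_⟩
        rw [hadd, hh, map_pow, toAdd_pow, nsmul_eq_mul, smul_eq_mul]
        have h2 : x = n * y + (x.appr j : ℤ_[p]) := by rw [← hy]; ring
        conv_rhs => rw [h2]
        ring }
  have hI : ∀ z, z ∈ I ↔ ∃ g, Multiplicative.toAdd (ψ g) = z := fun z => Iff.rfl
  have hI0 : I ≠ ⊥ := by
    intro h
    obtain ⟨g, hg⟩ := hmulN 1
    have h1 : (n : ℤ_[p]) ∈ I := (hI _).2 ⟨g, by rw [hg, mul_one]⟩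
    rw [h, Ideal.mem_bot] at h1
    exact hn0 h1
  obtain ⟨r, hr⟩ := PadicInt.ideal_eq_span_pow_p hI0
  have hp0 : (p : ℤ_[p]) ^ r ≠ 0 := pow_ne_zero _ (by exact_mod_cast (Fact.out : p.Prime).ne_zero)
  have hdiv : ∀ g, ∃ y, Multiplicative.toAdd (ψ g) = (p : ℤ_[p]) ^ r * y := by
    intro g
    have h1 : Multiplicative.toAdd (ψ g) ∈ I := (hI _).2 ⟨g, rfl⟩
    rw [hr, Ideal.mem_span_singleton] at h1
    exact h1
  choose f hf using hdiv
  let ψ' : G →* Multiplicative ℤ_[p] := MonoidHom.mk' (fun g => Multiplicative.ofAdd (f g)) (by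
    intro g h
    rw [← ofAdd_add]
    congr 1
    apply mul_left_cancel₀ hp0
    rw [← hf, mul_add, ← hf, ← hf, hadd])
  have hψ' : ∀ g, Multiplicative.toAdd (ψ' g) = f g := fun g => rfl
  refine ⟨r, ψ', ?_, ?_, ?_⟩
  · have hemb : Topology.IsClosedEmbedding (fun y : ℤ_[p] => (p : ℤ_[p]) ^ r * y) :=
      (continuous_const.mul continuous_id).isClosedEmbedding (mul_right_injective₀ hp0)
    have h1 : Continuous f := by
      rw [hemb.isInducing.continuous_iff]
      have h2 : (fun y : ℤ_[p] => (p : ℤ_[p]) ^ r * y) ∘ f =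
          fun g => Multiplicative.toAdd (ψ g) := by
        funext g
        exact (hf g).symm
      rw [h2]
      exact continuous_toAdd.comp hψ
    exact continuous_ofAdd.comp h1
  · intro z
    have h1 : (p : ℤ_[p]) ^ r * Multiplicative.toAdd z ∈ I := by
      rw [hr]
      exact Ideal.mul_mem_right _ _ (Ideal.mem_span_singleton_self _)
    obtain ⟨g, hg⟩ := (hI _).1 h1
    refine ⟨g, ?_⟩
    apply Multiplicative.toAdd.injective
    rw [hψ']
    apply mul_left_cancel₀ hp0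
    rw [← hf, hg]
  · intro g
    apply Multiplicative.toAdd.injective
    rw [hf, toAdd_pow, nsmul_eq_mul, hψ']
    push_cast
    rfl

end Pool.Agent.Helper864WL
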