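import Mathlib

set_option autoImplicit false
set_option linter.unusedSectionVars false

/-!
# Counting dimensions by eigenspaces
-/

namespace Pool.Agent.Helper864WL

open Module Polynomial

section lin

variable {k V : Type*} [Field k] [AddCommGroup V] [Module k V] [FiniteDimensional k V]

lemma finrank_ker_mul_le (f g : Module.End k V) :
    finrank k (LinearMap.ker (f * g)) ≤
      finrank k (LinearMap.ker f) + finrank k (LinearMap.ker g) := by
  let h : LinearMap.ker (f * g) →ₗ[k] LinearMap.ker f :=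
    (g.comp (LinearMap.ker (f * g)).subtype).codRestrict _ (fun x => by
      rw [LinearMap.mem_ker]
      exact x.2)
  have h1 := LinearMap.finrank_range_add_finrank_ker h
  have h2 : finrank k (LinearMap.range h) ≤ finrank k (LinearMap.ker f) :=
    Submodule.finrank_le _
  let e : LinearMap.ker h →ₗ[k] LinearMap.ker g :=
    ((LinearMap.ker (f * g)).subtype.comp (LinearMap.ker h).subtype).codRestrict _ (fun x => by
      rw [LinearMap.mem_ker]
      have h3 := x.2
      rw [LinearMap.mem_ker] at h3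
      exact congrArg (fun z : LinearMap.ker f => (z : V)) h3)
  have h3 : finrank k (LinearMap.ker h) ≤ finrank k (LinearMap.ker g) := by
    apply LinearMap.finrank_le_finrank_of_injective (f := e)
    intro x y hxy
    apply Subtype.ext
    apply Subtype.ext
    exact congrArg (fun z : LinearMap.ker g => (z : V)) hxy
  omega

lemma finrank_ker_prod_le (T : Module.End k V) (Q : k[X]) (m : ℕ) (S : Finset k)
    (h : ∀ ζ ∈ S, finrank k (LinearMap.ker (T - algebraMap k _ ζ)) ≤ m) :
    finrank k (LinearMap.ker (aeval T ((∏ ζ ∈ S, (X - C ζ)) * Q))) ≤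
      S.card * m + finrank k (LinearMap.ker (aeval T Q)) := by
  classical
  induction S using Finset.induction_on with
  | empty =>
    rw [Finset.prod_empty, one_mul]
    exact Nat.le_add_left _ _
  | insert a S ha ih =>
    rw [Finset.prod_insert ha, mul_assoc, map_mul, Finset.card_insert_of_notMem ha]
    have h1 := finrank_ker_mul_le (aeval T (X - C a)) (aeval T ((∏ ζ ∈ S, (X - C ζ)) * Q))
    have h2 := h a (Finset.mem_insert_self a S)
    have h3 := ih (fun ζ hζ => h ζ (Finset.mem_insert_of_mem hζ))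
    have h4 : aeval T (X - C a) = T - algebraMap k _ a := by simp
    rw [h4] at h1 ⊢
    rw [add_mul, one_mul]
    omega

/-- **Counting dimensions by eigenspaces.** -/
theorem finrank_le_of_eigen (T : Module.End k V) {N q m : ℕ} (hN : 0 < N) (hq : q ∣ N)
    {ζ₀ : k} (hζ₀ : IsPrimitiveRoot ζ₀ N) (hT : T ^ N = 1)
    (h : ∀ ζ : k, ζ ^ N = 1 → ζ ^ q ≠ 1 → finrank k (LinearMap.ker (T - algebraMap k _ ζ)) ≤ m) :
    finrank k V ≤ m * N + finrank k (LinearMap.ker (T ^ q - 1)) := by
  classical
  obtain ⟨r, hr⟩ := hq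
  have hq0 : 0 < q := by
    rcases Nat.eq_zero_or_pos q with h0 | h0
    · rw [h0, zero_mul] at hr; omega
    · exact h0
  have hr0 : 0 < r := by
    rcases Nat.eq_zero_or_pos r with h0 | h0
    · rw [h0, mul_zero] at hr; omega
    · exact h0
  have hprim : IsPrimitiveRoot (ζ₀ ^ r) q := hζ₀.pow hN (by rw [hr, mul_comm])
  have h1 : (X ^ N - 1 : k[X]) = (∏ ζ ∈ (nthRootsFinset N (1 : k)).filter (fun ζ => ζ ^ q ≠ 1),
      (X - C ζ)) * (X ^ q - 1) := by
    rw [X_pow_sub_one_eq_prod hN hζ₀, X_pow_sub_one_eq_prod hq0 hprim]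
    rw [← Finset.prod_filter_mul_prod_filter_not (nthRootsFinset N (1 : k)) (fun ζ => ζ ^ q ≠ 1)]
    congr 1
    apply Finset.prod_congr _ (fun _ _ => rfl)
    ext ζ
    rw [Finset.mem_filter, mem_nthRootsFinset hN, mem_nthRootsFinset hq0, not_not]
    constructor
    · exact fun h => h.2
    · intro h
      exact ⟨by rw [hr, pow_mul, h, one_pow], h⟩
  have h2 := finrank_ker_prod_le T (X ^ q - 1) m
    ((nthRootsFinset N (1 : k)).filter (fun ζ => ζ ^ q ≠ 1)) (fun ζ hζ => by
      rw [Finset.mem_filter, mem_nthRootsFinset hN] at hζ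
      exact h ζ hζ.1 hζ.2)
  rw [← h1] at h2
  have h3 : aeval T (X ^ N - 1 : k[X]) = 0 := by simp [hT]
  have h4 : aeval T (X ^ q - 1 : k[X]) = T ^ q - 1 := by simp
  rw [h3, h4, LinearMap.ker_zero, finrank_top] at h2
  have h5 : ((nthRootsFinset N (1 : k)).filter (fun ζ => ζ ^ q ≠ 1)).card ≤ N := by
    refine (Finset.card_filter_le _ _).trans ?_
    rw [hζ₀.card_nthRootsFinset]
  calc finrank k V ≤ _ := h2
    _ ≤ m * N + finrank k (LinearMap.ker (T ^ q - 1)) := by
      rw [mul_comm m]
      exact Nat.add_le_add_right (Nat.mul_le_mul_right _ h5) _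

end lin

end Pool.Agent.Helper864WL
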