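import Pool.Agent.Helper864_WL.Level

set_option autoImplicit false
set_option linter.unusedSectionVars false

/-!
# `ℤ_p`-extensions
-/

namespace Pool.Agent.Helper864WL

open NumberField TensorProduct Pool.Agent.W289.SL Module

variable {p : ℕ} [Fact p.Prime] {Ω : Type} [Field Ω] {K : Type} [Field K] [Algebra K Ω] {d : ℕ}

variable (p) in
/-- `K_∞/K` is a `ℤ_p`-extension -/
def IsZpExtension (Kinf : IntermediateField K Ω) : Prop :=
  IsGalois K Kinf ∧ Nonempty ((Kinf ≃ₐ[K] Kinf) ≃ₜ* Multiplicative ℤ_[p])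

lemma exists_chi [Normal K Ω] {Kinf : IntermediateField K Ω} (h : IsZpExtension p Kinf) :
    ∃ χ : (Ω ≃ₐ[K] Ω) →* Multiplicative ℤ_[p], Continuous χ ∧ Function.Surjective χ ∧
      χ.ker = Kinf.fixingSubgroup := by
  obtain ⟨hg, ⟨e⟩⟩ := h
  refine ⟨e.toMulEquiv.toMonoidHom.comp (AlgEquiv.restrictNormalHom Kinf), ?_, ?_, ?_⟩
  · exact e.continuous.comp (InfiniteGalois.restrictNormalHom_continuous Kinf)
  · exact e.toMulEquiv.surjective.comp (AlgEquiv.restrictNormalHom_surjective (E := Ω))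
  · rw [← IntermediateField.restrictNormalHom_ker]
    ext g
    rw [MonoidHom.mem_ker, MonoidHom.mem_ker]
    constructor
    · intro h1
      exact e.toMulEquiv.injective (h1.trans (map_one e.toMulEquiv).symm)
    · intro h1
      change e.toMulEquiv (AlgEquiv.restrictNormalHom Kinf g) = 1
      rw [h1, map_one]

lemma exists_fd_le {χ : (Ω ≃ₐ[K] Ω) →* Multiplicative ℤ_[p]} (hχ : Continuous χ) (n : ℕ) :
    ∃ E : IntermediateField K Ω, FiniteDimensional K E ∧ E.fixingSubgroup ≤ lev χ n := by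
  have h1 : IsOpen {x : ℤ_[p] | (p : ℤ_[p]) ^ n ∣ x} := by
    have h2 : {x : ℤ_[p] | (p : ℤ_[p]) ^ n ∣ x} = Metric.closedBall 0 ((p : ℝ) ^ (-n : ℤ)) := by
      ext x
      rw [Set.mem_ofPred_eq, mem_closedBall_zero_iff, PadicInt.norm_le_pow_iff_mem_span_pow,
        Ideal.mem_span_singleton]
    rw [h2]
    apply IsUltrametricDist.isOpen_closedBall
    have hp : (0 : ℝ) < p := by exact_mod_cast (Fact.out : p.Prime).pos
    positivity
  have h3 : IsOpen (lev χ n : Set (Ω ≃ₐ[K] Ω)) :=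
    (h1.preimage continuous_toAdd).preimage hχ
  have h4 : (lev χ n : Set (Ω ≃ₐ[K] Ω)) ∈ nhds 1 := h3.mem_nhds (one_mem _)
  rw [krullTopology_mem_nhds_one_iff] at h4
  exact h4

/-- Leopoldt kernels over number fields are finite-dimensional -/
lemma fd_leopoldtKernel [CharZero Ω] [NumberField K] [Algebra.IsAlgebraic ℚ Ω] [Normal K Ω]
    (ρ : (Ω ≃ₐ[K] Ω) →* GL (Fin d) ℂ_[p]) (H : Subgroup (Ω ≃ₐ[K] Ω)) (E : IntermediateField K Ω)
    [FiniteDimensional K E] (hE : E.fixingSubgroup ≤ H) :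
    FiniteDimensional ℂ_[p] (leopoldtKernel ρ H) := by
  classical
  obtain ⟨θ⟩ := Pool.Agent.W254.PA.exists_theta p
  have hnf : NumberField E := NumberField.of_module_finite K E
  have : Algebra.IsAlgebraic E Ω := Algebra.IsAlgebraic.tower_top (K := K) E
  have hnorm : Normal E Ω := Normal.tower_top_of_normal K E Ω
  have hs : ∀ v : InfinitePlace E, ∃ t : Ω →+* ℂ,
      InfinitePlace.mk (t.comp (algebraMap E Ω)) = v := by
    intro v
    obtain ⟨t, ht⟩ := exists_extend (Ω := Ω) v.embedding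
    exact ⟨t, by rw [ht, InfinitePlace.mk_embedding]⟩
  choose s hs using hs
  let Λ : leopoldtKernel ρ H →ₗ[ℂ_[p]] (InfinitePlace E → Fin d → ℂ_[p]) :=
    (LinearMap.pi fun v => LinearMap.pi fun j => (lamT θ (s v)).comp (LinearMap.proj j)).comp
      (leopoldtKernel ρ H).subtype
  have hΛ : Function.Injective Λ := by
    rw [injective_iff_map_eq_zero]
    intro y hy
    apply Subtype.ext
    refine eq_zero_of_places (E := E) θ (fun g i j => ρ (g.restrictScalars K) i j) s hs y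
      (fun g j => ?_) fun v j => ?_
    · refine y.2.1 (g.restrictScalars K) (hE ?_) j
      rw [IntermediateField.mem_fixingSubgroup_iff]
      intro x hx
      exact g.commutes ⟨x, hx⟩
    · exact congrFun (congrFun hy v) j
  exact FiniteDimensional.of_injective Λ hΛ

/-- **Main theorem**, with the hypothesis that the conjugates of `K_∞` are different. -/
theorem main_cd [CharZero Ω] [NumberField K] [IsAlgClosed Ω] [Algebra.IsAlgebraic ℚ Ω]
    [IsGalois K Ω]
    {Kinf : IntermediateField K Ω} (hK : IsZpExtension p Kinf)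
    (hcd : ∀ a : RingAut Ω, a ∉ (toR : (Ω ≃ₐ[K] Ω) →* RingAut Ω).range →
      ∃ β β' : Ω ≃ₐ[K] Ω, toR β' = a⁻¹ * toR β * a ∧ ∃ x ∈ Kinf, β x ≠ β' x)
    {ρ : (Ω ≃ₐ[K] Ω) →* GL (Fin d) ℂ_[p]} (hirr : IsIrred ρ)
    (halg : ∀ g i j, IsAlgebraic ℚ (ρ g i j)) (hker : ρ.ker.FiniteIndex)
    (w : InfinitePlace K → InfinitePlace Ω) (hw : ∀ v, (w v).comap (algebraMap K Ω) = v) :
    ∃ C : ℕ, ∀ E : IntermediateField K Ω, E ≤ Kinf → FiniteDimensional K E →
      FiniteDimensional ℂ_[p] (leopoldtKernel ρ E.fixingSubgroup) ∧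
      finrank ℂ_[p] (leopoldtKernel ρ E.fixingSubgroup) ≤
        (archMult ρ w ^ 2 / (archMult ρ w + finrank ℚ K * d)) * finrank K E + C := by
  obtain ⟨χ, hcont, hsurj, hker'⟩ := exists_chi hK
  have hfd : ∀ n, FiniteDimensional ℂ_[p] (leopoldtKernel ρ (lev χ n)) := by
    intro n
    obtain ⟨E, hEf, hE⟩ := exists_fd_le hcont n
    exact fd_leopoldtKernel ρ _ E hE
  obtain ⟨C, hC⟩ := level_bound hirr halg hker hsurj w hw (fun a ha => by
    obtain ⟨β, β', h1, x, hx, hne⟩ := hcd a ha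
    refine ⟨β, β', h1, fun h => hne ?_⟩
    have h2 : β⁻¹ * β' ∈ χ.ker := by
      rw [MonoidHom.mem_ker, map_mul, map_inv, h, inv_mul_cancel]
    rw [hker', IntermediateField.mem_fixingSubgroup_iff] at h2
    have h3 : β (β⁻¹ (β' x)) = β x := congrArg β (h2 x hx)
    have h4 : β (β⁻¹ (β' x)) = β' x := by
      change (β * β⁻¹) (β' x) = β' x
      rw [mul_inv_cancel]
      rfl
    rw [← h3, h4]) hfd
  refine ⟨C, fun E hEK hEf => ⟨fd_leopoldtKernel ρ _ E le_rfl, ?_⟩⟩
  have hle : χ.ker ≤ E.fixingSubgroup := by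
    rw [hker']
    exact IntermediateField.fixingSubgroup_le hEK
  have hnormal : E.fixingSubgroup.Normal := by
    constructor
    intro h hh g
    have h1 : g * h * g⁻¹ = h * (h⁻¹ * g * h * g⁻¹) := by group
    rw [h1]
    refine E.fixingSubgroup.mul_mem hh (hle ?_)
    rw [MonoidHom.mem_ker, map_mul, map_mul, map_mul, map_inv, map_inv,
      mul_comm (χ h)⁻¹ (χ g), inv_mul_cancel_right, mul_inv_cancel]
  have hidx : finrank K E = E.fixingSubgroup.index :=
    IntermediateField.finrank_eq_fixingSubgroup_index Ω E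
  have hpos : 0 < finrank K E := finrank_pos
  obtain ⟨n, hn, hdvd⟩ := lev_le_of_index χ hnormal hle hsurj (by omega)
  have i1 := hfd n
  calc finrank ℂ_[p] (leopoldtKernel ρ E.fixingSubgroup) ≤
      finrank ℂ_[p] (leopoldtKernel ρ (lev χ n)) :=
        Submodule.finrank_mono (leopoldtKernel_mono hn)
    _ ≤ (archMult ρ w ^ 2 / (archMult ρ w + finrank ℚ K * d)) * p ^ n + C := hC n
    _ ≤ (archMult ρ w ^ 2 / (archMult ρ w + finrank ℚ K * d)) * finrank K E + C := by
        have h1 : p ^ n ≤ finrank K E := by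
          rw [hidx]
          exact Nat.le_of_dvd (by omega) hdvd
        exact Nat.add_le_add_right (Nat.mul_le_mul_left _ h1) _

/-- The conjugates of `K_∞/K` are different: for every automorphism `a` of `Ω` which is not the
identity on `K` there is an automorphism `β` fixing `K` such that `β' = a⁻¹ β a` also fixes `K` and
`β`, `β'` are different on `K_∞`. -/
def ConjDistinct (Kinf : IntermediateField K Ω) : Prop :=
  ∀ a : Ω ≃+* Ω, (∃ x : K, a (algebraMap K Ω x) ≠ algebraMap K Ω x) →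
    ∃ β β' : Ω ≃ₐ[K] Ω, (∀ x, a (β' x) = β (a x)) ∧ ∃ x ∈ Kinf, β x ≠ β' x

lemma finiteIndex_of_isOpen [IsGalois K Ω] {H : Subgroup (Ω ≃ₐ[K] Ω)}
    (hH : IsOpen (H : Set (Ω ≃ₐ[K] Ω))) : H.FiniteIndex := by
  have h4 : (H : Set (Ω ≃ₐ[K] Ω)) ∈ nhds 1 := hH.mem_nhds (one_mem _)
  rw [krullTopology_mem_nhds_one_iff] at h4
  obtain ⟨E, hEf, hE⟩ := h4
  have h1 : E.fixingSubgroup.FiniteIndex := by
    constructor
    have hidx : finrank K E = E.fixingSubgroup.index :=
      IntermediateField.finrank_eq_fixingSubgroup_index Ω E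
    have hpos : 0 < finrank K E := finrank_pos
    omega
  exact Subgroup.finiteIndex_of_le hE

theorem main_final [NumberField K] [IsAlgClosure K Ω]
    {Kinf : IntermediateField K Ω} (hK : IsZpExtension p Kinf) (hcd : ConjDistinct Kinf)
    {ρ : (Ω ≃ₐ[K] Ω) →* GL (Fin d) ℂ_[p]} (hopen : IsOpen (ρ.ker : Set (Ω ≃ₐ[K] Ω)))
    (halg : ∀ g i j, IsAlgebraic ℚ (ρ g i j)) (hirr : IsIrred ρ)
    (w : InfinitePlace K → InfinitePlace Ω) (hw : ∀ v, (w v).comap (algebraMap K Ω) = v) :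
    ∃ C : ℕ, ∀ E : IntermediateField K Ω, E ≤ Kinf → FiniteDimensional K E →
      FiniteDimensional ℂ_[p] (leopoldtKernel ρ E.fixingSubgroup) ∧
      finrank ℂ_[p] (leopoldtKernel ρ E.fixingSubgroup) ≤
        (archMult ρ w ^ 2 / (archMult ρ w + finrank ℚ K * d)) * finrank K E + C := by
  have i1 : CharZero Ω := charZero_of_injective_algebraMap (algebraMap K Ω).injective
  have i2 : IsAlgClosed Ω := IsAlgClosure.isAlgClosed K
  have i3 : Algebra.IsAlgebraic K Ω := IsAlgClosure.isAlgebraic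
  have i4 : Algebra.IsAlgebraic ℚ Ω := Algebra.IsAlgebraic.trans ℚ K Ω
  have i5 : IsGalois K Ω := IsAlgClosure.isGalois K Ω
  refine main_cd hK (fun a ha => ?_) hirr halg (finiteIndex_of_isOpen hopen) w hw
  rw [mem_range_toR] at ha
  push Not at ha
  obtain ⟨β, β', h1, h2⟩ := hcd a ha
  refine ⟨β, β', ?_, h2⟩
  apply (mul_right_injective a)
  change a * toR β' = a * (a⁻¹ * toR β * a)
  rw [mul_assoc, mul_inv_cancel_left]
  ext x
  exact h1 x

end Pool.Agent.Helper864WL
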