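import Pool.Agent.Helper864_WL.Small

set_option autoImplicit false
set_option linter.unusedSectionVars false

/-!
# Independence of conjugates
-/

namespace Pool.Agent.Helper864WL

open NumberField TensorProduct Pool.Agent.W289.SL Module

variable {p : ℕ} [Fact p.Prime] {Ω : Type} [Field Ω]

/-- the action of an automorphism of the field `Ω` -/
noncomputable def ract (g : RingAut Ω) : UU p Ω →ₗ[ℂ_[p]] UU p Ω :=
  act p ((g : Ω ≃+* Ω) : Ω →+* Ω)

lemma ract_mul (g h : RingAut Ω) (x : UU p Ω) : ract (g * h) x = ract g (ract h x) := by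
  unfold ract
  rw [act_comp]
  rfl

lemma ract_one (x : UU p Ω) : ract (1 : RingAut Ω) x = x := act_id x

lemma ract_inv (g : RingAut Ω) (x : UU p Ω) : ract g⁻¹ (ract g x) = x := by
  rw [← ract_mul, inv_mul_cancel, ract_one]

lemma indep_conjΩ {J ι : Type} [Fintype J] [Fintype ι] (y : ι → UU p Ω)
    (hy : LinearIndependent ℂ_[p] y) (α : J → RingAut Ω) (N : Subgroup (RingAut Ω))
    (χ : J → (N →* ℂ_[p])) (hχ : Function.Injective χ)
    (h : ∀ j (β : N) i, ract (β : RingAut Ω) (ract (α j) (y i)) = χ j β • ract (α j) (y i)) :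
    LinearIndependent ℂ_[p] (fun q : J × ι => ract (α q.1) (y q.2)) := by
  classical
  rw [Fintype.linearIndependent_iff] at hy ⊢
  intro c hc
  let v : J → UU p Ω := fun j => ∑ i, c (j, i) • ract (α j) (y i)
  have hv : ∀ j (β : N), ract (β : RingAut Ω) (v j) = χ j β • v j := by
    intro j β
    simp only [v]
    rw [map_sum, Finset.smul_sum]
    refine Finset.sum_congr rfl fun i _ => ?_
    rw [map_smul, h, smul_comm]
  have hsum : ∑ j, v j = 0 := by
    rw [← hc, Fintype.sum_prod_type]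
  have hv0 : ∀ j, v j = 0 := by
    intro j
    rw [← Module.forall_dual_apply_eq_zero_iff ℂ_[p]]
    intro f
    have h1 := linearIndependent_monoidHom N ℂ_[p]
    have h2 : LinearIndependent ℂ_[p] (fun j : J => (χ j : N → ℂ_[p])) := h1.comp χ hχ
    rw [Fintype.linearIndependent_iff] at h2
    refine h2 (fun j => f (v j)) ?_ j
    funext β
    rw [Finset.sum_apply, Pi.zero_apply]
    have h3 : ract (β : RingAut Ω) (∑ j, v j) = 0 := by rw [hsum, map_zero]
    rw [map_sum] at h3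
    have h4 := congrArg f h3
    rw [map_sum, map_zero] at h4
    rw [← h4]
    refine Finset.sum_congr rfl fun j _ => ?_
    rw [hv, map_smul, Pi.smul_apply, smul_eq_mul, smul_eq_mul, mul_comm]
  rintro ⟨j, i⟩
  refine hy (fun i => c (j, i)) ?_ i
  have h1 := congrArg (ract (α j)⁻¹) (hv0 j)
  rw [map_zero] at h1
  rw [← h1]
  simp only [v]
  rw [map_sum]
  refine Finset.sum_congr rfl fun i _ => ?_
  rw [map_smul, ract_inv]

section rep

variable {K : Type} [Field K] [Algebra K Ω] {d : ℕ}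

/-- the automorphism of `Ω` underlying a `K`-automorphism -/
def toR : (Ω ≃ₐ[K] Ω) →* RingAut Ω where
  toFun g := (g : Ω ≃+* Ω)
  map_one' := rfl
  map_mul' _ _ := rfl

lemma toR_injective : Function.Injective (toR : (Ω ≃ₐ[K] Ω) →* RingAut Ω) := by
  intro g h hgh
  ext x
  exact congrArg (fun f : Ω ≃+* Ω => f x) hgh

lemma toR_apply (g : Ω ≃ₐ[K] Ω) (x : Ω) : (toR g : Ω ≃+* Ω) x = g x := rfl

lemma mem_range_toR (β : RingAut Ω) :
    β ∈ (toR : (Ω ≃ₐ[K] Ω) →* RingAut Ω).range ↔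
      ∀ x : K, (β : Ω ≃+* Ω) (algebraMap K Ω x) = algebraMap K Ω x := by
  constructor
  · rintro ⟨g, rfl⟩ x
    rw [toR_apply]
    exact g.commutes x
  · intro h
    exact ⟨AlgEquiv.ofRingEquiv (f := (β : Ω ≃+* Ω)) h, by ext x; rfl⟩

/-- `ρ` is irreducible -/
def IsIrred (ρ : (Ω ≃ₐ[K] Ω) →* GL (Fin d) ℂ_[p]) : Prop :=
  ∀ W : Submodule ℂ_[p] (Fin d → ℂ_[p]),
    (∀ g : Ω ≃ₐ[K] Ω, ∀ x ∈ W, (ρ g : Matrix (Fin d) (Fin d) ℂ_[p]).mulVec x ∈ W) →
      W = ⊥ ∨ W = ⊤

/-- the tuples `y` with `g y_j = κ(g) ∑ ρ(g)_{ij} y_i` for all `g` -/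
def Xsp (ρ : (Ω ≃ₐ[K] Ω) →* GL (Fin d) ℂ_[p]) (κ : (Ω ≃ₐ[K] Ω) →* ℂ_[p]) :
    Submodule ℂ_[p] (Fin d → UU p Ω) where
  carrier := {y | ∀ g j, ract (toR g) (y j) = ∑ i, (κ g * ρ g i j) • y i}
  zero_mem' g j := by simp
  add_mem' {x y} hx hy g j := by
    rw [Pi.add_apply, map_add, hx, hy, ← Finset.sum_add_distrib]
    refine Finset.sum_congr rfl fun i _ => ?_
    rw [Pi.add_apply, smul_add]
  smul_mem' c {x} hx g j := by
    rw [Pi.smul_apply, map_smul, hx, Finset.smul_sum]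
    refine Finset.sum_congr rfl fun i _ => ?_
    rw [Pi.smul_apply, smul_comm]

lemma indep_of_irred {ρ : (Ω ≃ₐ[K] Ω) →* GL (Fin d) ℂ_[p]} (hρ : IsIrred ρ)
    {κ : (Ω ≃ₐ[K] Ω) →* ℂ_[p]} {y : Fin d → UU p Ω} (hy : y ∈ Xsp ρ κ) (hy0 : y ≠ 0) :
    LinearIndependent ℂ_[p] y := by
  classical
  let W : Submodule ℂ_[p] (Fin d → ℂ_[p]) := LinearMap.ker (Fintype.linearCombination ℂ_[p] y)
  have hW : ∀ c, c ∈ W ↔ ∑ j, c j • y j = 0 := by
    intro c
    rw [LinearMap.mem_ker, Fintype.linearCombination_apply]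
  rw [Fintype.linearIndependent_iff]
  have hκ : ∀ g, κ g ≠ 0 := by
    intro g h
    have h1 : κ g * κ g⁻¹ = 1 := by rw [← map_mul, mul_inv_cancel, map_one]
    rw [h, zero_mul] at h1
    exact zero_ne_one h1
  have hst : ∀ g : Ω ≃ₐ[K] Ω, ∀ x ∈ W, (ρ g : Matrix (Fin d) (Fin d) ℂ_[p]).mulVec x ∈ W := by
    intro g c hc
    rw [hW] at hc ⊢
    have h1 := congrArg (ract (toR g)) hc
    rw [map_zero, map_sum] at h1
    have h2 : κ g • ∑ i, ((ρ g : Matrix (Fin d) (Fin d) ℂ_[p]).mulVec c) i • y i = 0 := by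
      rw [← h1, Finset.smul_sum]
      have h3 : ∀ j ∈ Finset.univ, ract (toR g) (c j • y j) =
          ∑ i, (c j * (κ g * ρ g i j)) • y i := by
        intro j _
        rw [map_smul, hy, Finset.smul_sum]
        refine Finset.sum_congr rfl fun i _ => ?_
        rw [smul_smul]
      rw [Finset.sum_congr rfl h3, Finset.sum_comm]
      refine Finset.sum_congr rfl fun i _ => ?_
      rw [smul_smul, ← Finset.sum_smul]
      congr 1
      rw [Matrix.mulVec, dotProduct, Finset.mul_sum]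
      refine Finset.sum_congr rfl fun j _ => ?_
      ring
    exact (smul_eq_zero.1 h2).resolve_left (hκ g)
  rcases hρ W hst with h | h
  · intro c hc
    have h1 : c ∈ W := (hW c).2 hc
    rw [h, Submodule.mem_bot] at h1
    intro i
    rw [h1, Pi.zero_apply]
  · exfalso
    apply hy0
    funext j
    have h1 : Pi.single j (1 : ℂ_[p]) ∈ W := by rw [h]; exact Submodule.mem_top
    rw [hW, Finset.sum_eq_single j] at h1
    · rwa [Pi.single_eq_same, one_smul] at h1
    · intro i _ hi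
      rw [Pi.single_eq_of_ne hi, zero_smul]
    · intro hj
      exact absurd (Finset.mem_univ j) hj

end rep

end Pool.Agent.Helper864WL
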