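import Pool.Agent.Helper864_WL.RankQ
import Pool.Agent.Helper864_WL.Burnside
import Pool.Agent.Helper864_WL.Conj

set_option autoImplicit false
set_option linter.unusedSectionVars false

/-!
# Bound for the Leopoldt kernel in the isotypic component of a twist of `ρ`
-/

namespace Pool.Agent.Helper864WL

open NumberField TensorProduct Pool.Agent.W289.SL Module
open Pool.Agent.W332.SL6 (log_mem)
open Pool.Agent.W254.PA (LgP)

variable {p : ℕ} [Fact p.Prime] {Ω : Type} [Field Ω] {K : Type} [Field K] [Algebra K Ω] {d : ℕ}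

/-- independence with multiplicities -/
lemma indep_mult {ρ : (Ω ≃ₐ[K] Ω) →* GL (Fin d) ℂ_[p]} (hρ : IsIrred ρ) (hd : 0 < d)
    {κ : (Ω ≃ₐ[K] Ω) →* ℂ_[p]} {n : ℕ} (b : Fin n → Fin d → UU p Ω) (hb : ∀ k, b k ∈ Xsp ρ κ)
    (hli : LinearIndependent ℂ_[p] b) :
    LinearIndependent ℂ_[p] (fun q : Fin n × Fin d => b q.1 q.2) := by
  classical
  rw [Fintype.linearIndependent_iff] at hli ⊢
  intro c hc
  have hκ : ∀ g, κ g ≠ 0 := by
    intro g h
    have h1 : κ g * κ g⁻¹ = 1 := by rw [← map_mul, mul_inv_cancel, map_one]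
    rw [h, zero_mul] at h1
    exact zero_ne_one h1
  have key : ∀ M : Matrix (Fin d) (Fin d) ℂ_[p],
      ∑ k, ∑ i, (M.mulVec fun j => c (k, j)) i • b k i = 0 := by
    intro M
    have hM : M ∈ Submodule.span ℂ_[p]
        (Set.range fun g : Ω ≃ₐ[K] Ω => (ρ g : Matrix (Fin d) (Fin d) ℂ_[p])) := by
      rw [burnside ρ hρ hd]
      exact Submodule.mem_top
    refine Submodule.span_induction (p := fun M _ =>
      ∑ k, ∑ i, (M.mulVec fun j => c (k, j)) i • b k i = 0) ?_ ?_ ?_ ?_ hM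
    · rintro _ ⟨g, rfl⟩
      have h1 := congrArg (ract (toR g)) hc
      rw [map_zero, map_sum, Fintype.sum_prod_type] at h1
      have h2 : κ g • ∑ k, ∑ i, ((ρ g : Matrix (Fin d) (Fin d) ℂ_[p]).mulVec
          fun j => c (k, j)) i • b k i = 0 := by
        rw [← h1, Finset.smul_sum]
        refine Finset.sum_congr rfl fun k _ => ?_
        rw [Finset.smul_sum]
        have h3 : ∀ j ∈ Finset.univ, ract (toR g) (c (k, j) • b k j) =
            ∑ i, (c (k, j) * (κ g * ρ g i j)) • b k i := by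
          intro j _
          rw [map_smul, hb k g j, Finset.smul_sum]
          refine Finset.sum_congr rfl fun i _ => ?_
          rw [smul_smul]
        rw [Finset.sum_congr rfl h3, Finset.sum_comm]
        refine Finset.sum_congr rfl fun i _ => ?_
        rw [smul_smul, ← Finset.sum_smul]
        congr 1
        rw [Matrix.mulVec, dotProduct, Finset.mul_sum]
        refine Finset.sum_congr rfl fun j _ => ?_
        ring
      exact (smul_eq_zero.1 h2).resolve_left (hκ g)
    · simp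
    · intro M M' _ _ h h'
      simp only [Matrix.add_mulVec, Pi.add_apply, add_smul, Finset.sum_add_distrib, h, h', add_zero]
    · intro a M _ h
      simp only [Matrix.smul_mulVec, Pi.smul_apply, smul_eq_mul, mul_smul, ← Finset.smul_sum, h,
        smul_zero]
  rintro ⟨k, j⟩
  refine hli (fun k => c (k, j)) ?_ k
  funext i
  have h1 := key (Matrix.single i j 1)
  have hE : ∀ (v : Fin d → ℂ_[p]) i', (Matrix.single i j (1 : ℂ_[p])).mulVec v i' =
      if i = i' then v j else 0 := by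
    intro v i'
    rw [Matrix.mulVec, dotProduct, Finset.sum_eq_single j]
    · by_cases h : i = i'
      · rw [if_pos h, h, Matrix.single_apply_same, one_mul]
      · rw [if_neg h, Matrix.single_apply_of_row_ne h, zero_mul]
    · intro j' _ hj'
      have h2 : Matrix.single i j (1 : ℂ_[p]) i' j' = 0 := by
        simp [Matrix.single, Ne.symm hj']
      rw [h2, zero_mul]
    · intro h
      exact absurd (Finset.mem_univ j) h
  rw [Finset.sum_apply, Pi.zero_apply, ← h1]
  refine Finset.sum_congr rfl fun k _ => ?_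
  rw [Finset.sum_eq_single i]
  · rw [hE, if_pos rfl]
    rfl
  · intro i' _ hi'
    rw [hE, if_neg (Ne.symm hi'), zero_smul]
  · intro h
    exact absurd (Finset.mem_univ i) h

/-- the logarithm of an element with algebraic coordinates -/
lemma logT_mem [CharZero Ω] [Algebra.IsAlgebraic ℚ Ω] {L : ℂ_[p] → ℂ_[p]} (hL : IsIwasawaLog p L)
    (σ : Ω →+* ℂ_[p]) {x : UU p Ω} (hx : HasCo 1 x) :
    logT hL σ x ∈ Submodule.span (algebraicClosure ℚ ℂ_[p])
      ((LgP p (𝕂 := ℂ_[p]) : Submodule ℚ ℂ_[p]) : Set ℂ_[p]) := by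
  refine AddSubmonoid.closure_induction (motive := fun x _ => logT hL σ x ∈
    Submodule.span (algebraicClosure ℚ ℂ_[p])
      ((LgP p (𝕂 := ℂ_[p]) : Submodule ℚ ℂ_[p]) : Set ℂ_[p])) ?_ ?_ ?_ hx
  · rintro _ ⟨a, ha, u, rfl⟩
    obtain ⟨b, rfl⟩ := Submodule.mem_one.1 ha
    rw [logT_tmul, ← Algebra.smul_def]
    exact Submodule.smul_mem _ _ (Submodule.subset_span (log_mem hL (nearU_unitΩ σ _)))
  · rw [map_zero]; exact zero_mem _
  · rintro x y - - h1 h2
    rw [map_add]; exact add_mem h1 h2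

/-- Brumer's theorem -/
lemma brumerΩ [CharZero Ω] [Algebra.IsAlgebraic ℚ Ω] {L : ℂ_[p] → ℂ_[p]} (hL : IsIwasawaLog p L)
    (σ : Ω →+* ℂ_[p]) {x : UU p Ω} (hx : HasCo 1 x) (h0 : logT hL σ x = 0) : x = 0 := by
  by_contra hne
  have hfd1 : FiniteDimensional (algebraicClosure ℚ ℂ_[p])
      (1 : Submodule (algebraicClosure ℚ ℂ_[p]) ℂ_[p]) := by
    rw [Submodule.one_eq_span]
    infer_instance
  have hone : finrank (algebraicClosure ℚ ℂ_[p])
      (1 : Submodule (algebraicClosure ℚ ℂ_[p]) ℂ_[p]) = 1 := by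
    rw [Submodule.one_eq_span, finrank_span_singleton one_ne_zero]
  have h1 := core_ineq hL σ 1 (fun _ : Unit => x)
    (linearIndependent_unique_iff.2 hne) (fun _ => hx) (fun _ => h0)
  rw [hone] at h1
  simp at h1

/-- **Bound for the Leopoldt kernel in an isotypic component.** -/
theorem eigen_bound [CharZero Ω] [Algebra.IsAlgebraic ℚ Ω] [IsAlgClosed Ω] [NumberField K]
    [Algebra.IsAlgebraic K Ω] {ρ : (Ω ≃ₐ[K] Ω) →* GL (Fin d) ℂ_[p]} (hρ : IsIrred ρ)
    {κ : (Ω ≃ₐ[K] Ω) →* ℂ_[p]} (N : Subgroup (RingAut Ω)) (hN : N.Normal)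
    (c : N →* (Ω ≃ₐ[K] Ω)) (hc : ∀ β, toR (c β) = β) (hρN : ∀ β, ρ (c β) = 1)
    (α : (K →+* Ω) → RingAut Ω)
    (hsep : ∀ τ τ', τ ≠ τ' → ∃ g g' : N,
      (g' : RingAut Ω) = ((α τ)⁻¹ * α τ')⁻¹ * g * ((α τ)⁻¹ * α τ') ∧ κ (c g) ≠ κ (c g'))
    [FiniteDimensional ℂ_[p] (Xsp ρ κ)]
    (hX : ∀ φ : ℂ_[p] →ₗ[algebraicClosure ℚ ℂ_[p]] ℂ_[p], ∀ x ∈ Xsp ρ κ,
      (fun j => tw φ (x j)) ∈ Xsp ρ κ)
    (W : Submodule ℂ_[p] (Fin d → UU p Ω)) (hW : W ≤ Xsp ρ κ) {L : ℂ_[p] → ℂ_[p]}
    (hL : IsIwasawaLog p L) (hlog : ∀ y ∈ W, ∀ (σ : Ω →+* ℂ_[p]) j, logT hL σ (y j) = 0) :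
    finrank ℂ_[p] W * (finrank ℚ K * d + finrank ℂ_[p] (Xsp ρ κ)) ≤
      finrank ℂ_[p] (Xsp ρ κ) * finrank ℂ_[p] (Xsp ρ κ) := by
  classical
  rcases Nat.eq_zero_or_pos d with hd | hd
  · subst hd
    have h1 : finrank ℂ_[p] W = 0 := finrank_zero_of_subsingleton
    rw [h1, zero_mul]
    exact Nat.zero_le _
  obtain ⟨B, hB⟩ := exists_alg_basis (Xsp ρ κ) hX
  obtain ⟨σ⟩ : Nonempty (Ω →+* ℂ_[p]) := by
    obtain ⟨f, -⟩ := exists_extend (K := ℚ) (Ω := Ω) (algebraMap ℚ ℂ_[p])
    exact ⟨f⟩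
  let n' := finrank ℂ_[p] (Xsp ρ κ)
  let b : Fin n' → Fin d → UU p Ω := fun k => ((B k : Xsp ρ κ) : Fin d → UU p Ω)
  have hbli : LinearIndependent ℂ_[p] b :=
    B.linearIndependent.map' (Xsp ρ κ).subtype (Submodule.ker_subtype _)
  have hbX : ∀ k, b k ∈ Xsp ρ κ := fun k => (B k).2
  have hmult := indep_mult hρ hd b hbX hbli
  -- the conjugates
  let conj : RingAut Ω → (N →* N) := fun a =>
    { toFun := fun β => ⟨a⁻¹ * β * a, by
        have := hN.conj_mem β β.2 a⁻¹
        rwa [inv_inv] at this⟩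
      map_one' := by ext1; simp
      map_mul' := fun x y => by
        ext1
        change a⁻¹ * ((x : RingAut Ω) * y) * a = a⁻¹ * x * a * (a⁻¹ * y * a)
        group }
  have hconj : ∀ a β, ((conj a β : N) : RingAut Ω) = a⁻¹ * β * a := fun a β => rfl
  let χ : (K →+* Ω) → (N →* ℂ_[p]) := fun τ => κ.comp (c.comp (conj (α τ)))
  have hχ : Function.Injective χ := by
    intro τ τ' h
    by_contra hne
    obtain ⟨g, g', hg, hgg⟩ := hsep τ τ' hne
    apply hgg
    let β : N := ⟨α τ * g * (α τ)⁻¹, hN.conj_mem g g.2 (α τ)⟩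
    have h1 : conj (α τ) β = g := by
      apply Subtype.ext
      rw [hconj]
      change (α τ)⁻¹ * (α τ * g * (α τ)⁻¹) * α τ = g
      group
    have h2 : conj (α τ') β = g' := by
      apply Subtype.ext
      rw [hconj, hg]
      change (α τ')⁻¹ * (α τ * g * (α τ)⁻¹) * α τ' = _
      group
    have h3 := DFunLike.congr_fun h β
    change κ (c (conj (α τ) β)) = κ (c (conj (α τ') β)) at h3
    rwa [h1, h2] at h3
  have hind := indep_conjΩ (fun q : Fin n' × Fin d => b q.1 q.2) hmult α N χ hχ (by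
    rintro τ β ⟨k, i⟩
    have h1 : ract (β : RingAut Ω) (ract (α τ) (b k i)) =
        ract (α τ) (ract ((conj (α τ) β : N) : RingAut Ω) (b k i)) := by
      rw [← ract_mul, ← ract_mul, hconj]
      congr 2
      group
    change ract (β : RingAut Ω) (ract (α τ) (b k i)) = χ τ β • ract (α τ) (b k i)
    rw [h1, ← hc, hbX k, hρN]
    rw [Finset.sum_eq_single i]
    · rw [map_smul]
      congr 1
      simp [χ]
    · intro j _ hj
      simp [Matrix.one_apply_ne hj]
    · intro h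
      exact absurd (Finset.mem_univ i) h)
  -- the linear forms
  let lam : (K →+* Ω) × Fin d → (Xsp ρ κ →ₗ[ℂ_[p]] ℂ_[p]) := fun q =>
    ((logT hL σ).comp (ract (α q.1))).comp ((LinearMap.proj q.2).comp (Xsp ρ κ).subtype)
  have hlam : ∀ q (x : Xsp ρ κ), lam q x = logT hL σ (ract (α q.1) ((x : Fin d → UU p Ω) q.2)) :=
    fun q x => rfl
  let W' : Submodule ℂ_[p] (Xsp ρ κ) := W.comap (Xsp ρ κ).subtype
  have hW' : finrank ℂ_[p] W' = finrank ℂ_[p] W := by
    have h1 : W'.map (Xsp ρ κ).subtype = W := by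
      rw [Submodule.map_comap_subtype]
      exact inf_eq_right.2 hW
    conv_rhs => rw [← h1]
    exact (LinearEquiv.finrank_eq (Submodule.equivMapOfInjective _
      (Submodule.injective_subtype _) W')).symm.symm
  have hlamW : ∀ q, W' ≤ LinearMap.ker (lam q) := by
    intro q x hx
    rw [LinearMap.mem_ker, hlam]
    unfold ract
    rw [logT_act]
    exact hlog _ hx _ _
  let r := finrank ℂ_[p] (Xsp ρ κ ⧸ W')
  have hr : r + finrank ℂ_[p] W = n' := by
    rw [← hW']
    exact Submodule.finrank_quotient_add_finrank W'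
  let F := Module.finBasis ℂ_[p] (Xsp ρ κ ⧸ W')
  let m := Fintype.card ((K →+* Ω) × Fin d)
  have hm : m = finrank ℚ K * d := by
    change Fintype.card ((K →+* Ω) × Fin d) = _
    rw [Fintype.card_prod, NumberField.Embeddings.card, Fintype.card_fin]
  let e : Fin m ≃ (K →+* Ω) × Fin d := (Fintype.equivFin _).symm
  have hfac : ∀ q (x : Xsp ρ κ), lam q x =
      ∑ t, (W'.liftQ (lam q) (hlamW q) (F t)) * F.repr (W'.mkQ x) t := by
    intro q x
    have h1 : lam q x = W'.liftQ (lam q) (hlamW q) (W'.mkQ x) := rfl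
    rw [h1]
    conv_lhs => rw [← F.sum_repr (W'.mkQ x)]
    rw [map_sum]
    refine Finset.sum_congr rfl fun t _ => ?_
    rw [map_smul, smul_eq_mul, mul_comm]
  have hcoact : ∀ (τ : K →+* Ω) (k : Fin n' × Fin d), HasCo 1 (ract (α τ) (b k.1 k.2)) :=
    fun τ k => (hB k.1 k.2).act _
  have hrank := rank_Q m n' r (fun i t => W'.liftQ (lam (e i)) (hlamW (e i)) (F t))
    (fun t k => F.repr (W'.mkQ (B k)) t) (fun i k => lam (e i) (B k))
    (fun i k => by
      rw [hlam]
      exact logT_mem hL σ (hcoact (e i).1 (k, (e i).2)))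
    (fun i k => hfac (e i) (B k)) (by
      intro a ha
      -- the corresponding element with algebraic coordinates vanishes
      let v : UU p Ω := ∑ i, ∑ k, (a i k : ℂ_[p]) • ract (α (e i).1) (b k (e i).2)
      have hv1 : HasCo 1 v := HasCo.sum _ fun i _ => HasCo.sum _ fun k _ =>
        (hcoact (e i).1 (k, (e i).2)).smul (Submodule.mem_one.2 ⟨a i k, rfl⟩)
      have hv2 : logT hL σ v = 0 := by
        rw [← ha]
        simp only [v]
        rw [map_sum]
        refine Finset.sum_congr rfl fun i _ => ?_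
        rw [map_sum]
        refine Finset.sum_congr rfl fun k _ => ?_
        rw [map_smul, smul_eq_mul, hlam]
      have hv3 := brumerΩ hL σ hv1 hv2
      rw [Fintype.linearIndependent_iff] at hind
      have h1 := hind (fun q => (a (e.symm (q.1, q.2.2)) q.2.1 : ℂ_[p])) (by
        rw [← hv3]
        simp only [v]
        rw [Fintype.sum_prod_type]
        have h2 : ∀ τ : K →+* Ω, ∑ q : Fin n' × Fin d,
            (a (e.symm (τ, q.2)) q.1 : ℂ_[p]) • ract (α τ) (b q.1 q.2) =
            ∑ j, ∑ k, (a (e.symm (τ, j)) k : ℂ_[p]) • ract (α τ) (b k j) := by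
          intro τ
          rw [Fintype.sum_prod_type, Finset.sum_comm]
        rw [Finset.sum_congr rfl fun τ _ => h2 τ]
        rw [← Fintype.sum_prod_type' (f := fun (τ : K →+* Ω) (j : Fin d) =>
          ∑ k, (a (e.symm (τ, j)) k : ℂ_[p]) • ract (α τ) (b k j))]
        rw [← Equiv.sum_comp e]
        refine Finset.sum_congr rfl fun i _ => ?_
        refine Finset.sum_congr rfl fun k _ => ?_
        have h3 : e.symm ((e i).1, (e i).2) = i := e.symm_apply_apply i
        rw [h3])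
      intro i k
      have h2 := h1 ((e i).1, (k, (e i).2))
      have h3 : e.symm ((e i).1, (e i).2) = i := e.symm_apply_apply i
      simp only [h3] at h2
      exact Subtype.ext h2)
  rw [hm] at hrank
  have h5 : r * (finrank ℚ K * d + n') + finrank ℂ_[p] W * (finrank ℚ K * d + n') =
      n' * (finrank ℚ K * d + n') := by rw [← add_mul, hr]
  change finrank ℂ_[p] W * (finrank ℚ K * d + n') ≤ n' * n'
  have h6 : n' * (finrank ℚ K * d + n') = finrank ℚ K * d * n' + n' * n' := by ring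
  omega

lemma div_bound {δ D n n' : ℕ} (h : δ * (D + n') ≤ n' * n') (hn : n' ≤ n) (hδ : δ ≤ n')
    (hpos : 0 < n + D) : δ ≤ n ^ 2 / (n + D) := by
  rw [Nat.le_div_iff_mul_le hpos]
  obtain ⟨k, rfl⟩ : ∃ k, n = n' + k := ⟨n - n', by omega⟩
  nlinarith [Nat.mul_le_mul_right k hδ]

end Pool.Agent.Helper864WL
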