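import Pool.Agent.Helper864_WL.Sep
import Pool.Agent.Helper864_WL.Rank
import Pool.Agent.W289.SL.LogEx

set_option autoImplicit false
set_option linter.unusedSectionVars false

/-!
# The Leopoldt kernel at the levels of a `ℤ_p`-extension
-/

namespace Pool.Agent.Helper864WL

open NumberField TensorProduct Pool.Agent.W289.SL Module

variable {p : ℕ} [Fact p.Prime] {Ω : Type} [Field Ω] {K : Type} [Field K] [Algebra K Ω] {d : ℕ}

lemma tact_of_eigen {ρ : (Ω ≃ₐ[K] Ω) →* GL (Fin d) ℂ_[p]} {χ : (Ω ≃ₐ[K] Ω) →* Multiplicative ℤ_[p]}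
    {n : ℕ} {γ : Ω ≃ₐ[K] Ω} (hγ : χ γ = Multiplicative.ofAdd 1) {y : Fin d → UU p Ω}
    (hy : y ∈ leopoldtKernel ρ (lev χ n)) {ζ : ℂ_[p]} (hζ : ζ ^ p ^ n = 1)
    (hyζ : tact ρ γ y = ζ • y) (g : Ω ≃ₐ[K] Ω) :
    tact ρ g y = (psi n ζ hζ).comp χ g • y := by
  obtain ⟨u, hu, hg⟩ := exists_pow_mul χ hγ n g
  have h1 : ∀ i : ℕ, (tact ρ γ ^ i) y = ζ ^ i • y := by
    intro i
    induction i with
    | zero => simp
    | succ i ih => rw [pow_succ, Module.End.mul_apply, hyζ, map_smul, ih, smul_smul, pow_succ,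
        mul_comm]
  rw [MonoidHom.comp_apply, psi_apply]
  conv_lhs => rw [hg]
  rw [tact_mul, tact_pow, Module.End.mul_apply, (mem_leopoldtKernel.1 hy).1 u hu, h1]

lemma mem_Xsp_iff {ρ : (Ω ≃ₐ[K] Ω) →* GL (Fin d) ℂ_[p]} {κ : (Ω ≃ₐ[K] Ω) →* ℂ_[p]}
    {y : Fin d → UU p Ω} : y ∈ Xsp ρ κ ↔ ∀ g, tact ρ g y = κ g • y := by
  constructor
  · intro h g
    exact (tact_eq_smul_iff ρ g (κ g) y).2 (h g)
  · intro h g
    exact (tact_eq_smul_iff ρ g (κ g) y).1 (h g)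

lemma tw_mem_Xsp {ρ : (Ω ≃ₐ[K] Ω) →* GL (Fin d) ℂ_[p]}
    (halg : ∀ g i j, IsAlgebraic ℚ (ρ g i j)) {κ : (Ω ≃ₐ[K] Ω) →* ℂ_[p]}
    (hκ : ∀ g, IsAlgebraic ℚ (κ g)) (φ : ℂ_[p] →ₗ[algebraicClosure ℚ ℂ_[p]] ℂ_[p])
    (x : Fin d → UU p Ω) (hx : x ∈ Xsp ρ κ) : (fun j => tw φ (x j)) ∈ Xsp ρ κ := by
  intro g j
  have h1 : ract (toR g) (tw φ (x j)) = tw φ (ract (toR g) (x j)) := (tw_act φ _ (x j)).symm
  rw [h1, hx g j, map_sum]
  refine Finset.sum_congr rfl fun i _ => ?_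
  exact tw_smul φ ((hκ g).mul (halg g i j)) (x i)

lemma tact_level {ρ : (Ω ≃ₐ[K] Ω) →* GL (Fin d) ℂ_[p]} {χ : (Ω ≃ₐ[K] Ω) →* Multiplicative ℤ_[p]}
    {n m : ℕ} (hmn : m ≤ n) {γ : Ω ≃ₐ[K] Ω} (hγ : χ γ = Multiplicative.ofAdd 1)
    {y : Fin d → UU p Ω} (hy : y ∈ leopoldtKernel ρ (lev χ n))
    (hym : (tact ρ γ ^ p ^ m) y = y) : y ∈ leopoldtKernel ρ (lev χ m) := by
  rw [mem_leopoldtKernel] at hy ⊢
  refine ⟨fun g hg => ?_, hy.2⟩
  obtain ⟨u, hu, hgu⟩ := exists_pow_mul χ hγ n g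
  have h1 := dvd_sub_val n (Multiplicative.toAdd (χ g))
  set i := (PadicInt.toZModPow n (Multiplicative.toAdd (χ g)) : ZMod (p ^ n)).val with hi
  have h2 : (p : ℤ_[p]) ^ m ∣ (i : ℤ_[p]) := by
    have h3 := (pow_dvd_pow (p : ℤ_[p]) hmn).trans h1
    have h4 : (p : ℤ_[p]) ^ m ∣ Multiplicative.toAdd (χ g) := hg
    have h5 := h4.sub h3
    rwa [sub_sub_cancel] at h5
  have h3 : p ^ m ∣ i := by
    have h4 : (p : ℤ_[p]) ^ m ∣ ((i : ℤ) : ℤ_[p]) := by exact_mod_cast h2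
    rw [PadicInt.pow_p_dvd_int_iff] at h4
    exact_mod_cast h4
  obtain ⟨j, hj⟩ := h3
  rw [hgu, tact_mul, tact_pow, Module.End.mul_apply, hy.1 u hu, hj, pow_mul]
  have h4 : ∀ j : ℕ, ((tact ρ γ ^ p ^ m) ^ j) y = y := by
    intro j
    induction j with
    | zero => simp
    | succ j ih => rw [pow_succ, Module.End.mul_apply, hym, ih]
  exact h4 j

/-- **The Leopoldt kernel at the levels of a `ℤ_p`-extension.** -/
theorem level_bound [CharZero Ω] [NumberField K] [IsAlgClosed Ω] [Algebra.IsAlgebraic ℚ Ω]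
    [Normal K Ω]
    {ρ : (Ω ≃ₐ[K] Ω) →* GL (Fin d) ℂ_[p]} (hirr : IsIrred ρ)
    (halg : ∀ g i j, IsAlgebraic ℚ (ρ g i j)) (hker : ρ.ker.FiniteIndex)
    {χ : (Ω ≃ₐ[K] Ω) →* Multiplicative ℤ_[p]} (hsurj : Function.Surjective χ)
    (w : InfinitePlace K → InfinitePlace Ω) (hw : ∀ v, (w v).comap (algebraMap K Ω) = v)
    (hcd : ∀ a : RingAut Ω, a ∉ (toR : (Ω ≃ₐ[K] Ω) →* RingAut Ω).range →
      ∃ β β' : Ω ≃ₐ[K] Ω, toR β' = a⁻¹ * toR β * a ∧ χ β ≠ χ β')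
    (hfd : ∀ n, FiniteDimensional ℂ_[p] (leopoldtKernel ρ (lev χ n))) :
    ∃ C, ∀ n, finrank ℂ_[p] (leopoldtKernel ρ (lev χ n)) ≤
      (archMult ρ w ^ 2 / (archMult ρ w + finrank ℚ K * d)) * p ^ n + C := by
  classical
  choose α hα using fun τ : K →+* Ω => exists_autΩ (Ω := Ω) τ
  obtain ⟨N, hN, hNf, c, hc, hρN⟩ := exists_N ρ hker
  obtain ⟨n₀, hn₀⟩ := exists_sep χ hcd α hα N hN hNf c hc
  obtain ⟨γ, hγ⟩ := hsurj (Multiplicative.ofAdd 1)
  obtain ⟨L, hL⟩ := exists_iwasawaLog p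
  refine ⟨finrank ℂ_[p] (leopoldtKernel ρ (lev χ n₀)), fun n => ?_⟩
  have i1 := hfd n
  have i0 := hfd n₀
  rcases le_total n n₀ with hn | hn
  · exact (Submodule.finrank_mono (leopoldtKernel_mono (lev_anti χ hn))).trans
      (Nat.le_add_left _ _)
  -- the operator
  let T : Module.End ℂ_[p] (leopoldtKernel ρ (lev χ n)) :=
    (tact ρ γ).restrict (fun y hy => tact_mem (lev_normal χ n) hy γ)
  have hTc : ∀ (i : ℕ) (y : leopoldtKernel ρ (lev χ n)),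
      (((T ^ i) y : leopoldtKernel ρ (lev χ n)) : Fin d → UU p Ω) = (tact ρ γ ^ i) y := by
    intro i y
    induction i generalizing y with
    | zero => simp
    | succ i ih =>
      rw [pow_succ, Module.End.mul_apply, ih, pow_succ, Module.End.mul_apply]
      rfl
  have hTN : T ^ p ^ n = 1 := by
    apply LinearMap.ext
    intro y
    apply Subtype.ext
    rw [hTc, ← tact_pow]
    refine (mem_leopoldtKernel.1 y.2).1 _ ?_
    rw [mem_lev, map_pow, hγ, toAdd_pow, toAdd_ofAdd, nsmul_eq_mul, mul_one, Nat.cast_pow]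
  obtain ⟨ζ₀, hζ₀⟩ : ∃ ζ : ℂ_[p], IsPrimitiveRoot ζ (p ^ n) := by
    have hp0 : p ^ n ≠ 0 := pow_ne_zero _ (Fact.out : p.Prime).ne_zero
    have : NeZero ((p ^ n : ℕ) : ℂ_[p]) := ⟨by exact_mod_cast hp0⟩
    have : NeZero (p ^ n) := ⟨hp0⟩
    exact HasEnoughRootsOfUnity.exists_primitiveRoot ℂ_[p] (p ^ n)
  have hmain := finrank_le_of_eigen T
    (m := archMult ρ w ^ 2 / (archMult ρ w + finrank ℚ K * d))
    (pow_pos (Fact.out : p.Prime).pos n) (pow_dvd_pow p hn) hζ₀ hTN (by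
    intro ζ hζ hζ1
    let W : Submodule ℂ_[p] (Fin d → UU p Ω) :=
      (LinearMap.ker (T - algebraMap ℂ_[p] _ ζ)).map (leopoldtKernel ρ (lev χ n)).subtype
    have hWr : finrank ℂ_[p] W = finrank ℂ_[p] (LinearMap.ker (T - algebraMap ℂ_[p] _ ζ)) :=
      LinearEquiv.finrank_eq (Submodule.equivMapOfInjective _
        (Submodule.injective_subtype _) _).symm
    have hWy : ∀ y ∈ W, y ∈ leopoldtKernel ρ (lev χ n) ∧ tact ρ γ y = ζ • y := by
      rintro _ ⟨y, hy, rfl⟩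
      refine ⟨y.2, ?_⟩
      have h1 : T y - ζ • y = 0 := hy
      have h2 := congrArg (fun z : leopoldtKernel ρ (lev χ n) => (z : Fin d → UU p Ω))
        (sub_eq_zero.1 h1)
      exact h2
    have hWX : W ≤ Xsp ρ ((psi n ζ hζ).comp χ) := by
      intro y hy
      obtain ⟨h1, h2⟩ := hWy y hy
      exact mem_Xsp_iff.2 fun g => tact_of_eigen hγ h1 hζ h2 g
    obtain ⟨hXfd, hXr⟩ := finrank_Xsp_le ρ w hw ((psi n ζ hζ).comp χ) (by
      intro v g hg
      have h1 := sq_eq_one_of_stab (w v) g hg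
      have h2 : χ g * χ g = 1 := by rw [← map_mul, h1, map_one]
      have h3 : χ g = 1 := by
        apply Multiplicative.toAdd.injective
        have h4 := congrArg Multiplicative.toAdd h2
        rw [toAdd_mul, toAdd_one] at h4
        rw [toAdd_one]
        exact add_self_eq_zero.1 h4
      rw [MonoidHom.comp_apply, h3, map_one])
    have hκalg : ∀ g, IsAlgebraic ℚ ((psi n ζ hζ).comp χ g) := by
      intro g
      have h1 := psi_pow n ζ hζ (χ g)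
      have h2 : IsAlgebraic ℚ ((psi n ζ hζ (χ g)) ^ p ^ n) := by rw [h1]; exact isAlgebraic_one
      exact h2.of_pow (pow_pos (Fact.out : p.Prime).pos n)
    have hb := eigen_bound hirr N hN c hc hρN α (hn₀ n ζ hζ hζ1)
      (fun φ x hx => tw_mem_Xsp halg hκalg φ x hx) W hWX hL
      (fun y hy σ j => (mem_leopoldtKernel.1 (hWy y hy).1).2 L hL σ j)
    have hle : finrank ℂ_[p] W ≤ finrank ℂ_[p] (Xsp ρ ((psi n ζ hζ).comp χ)) :=
      Submodule.finrank_mono hWX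
    rw [← hWr]
    rcases Nat.eq_zero_or_pos (archMult ρ w + finrank ℚ K * d) with h0 | h0
    · have h1 : finrank ℂ_[p] W = 0 := by omega
      rw [h1]
      exact Nat.zero_le _
    · exact div_bound hb hXr hle h0)
  refine hmain.trans (Nat.add_le_add_left ?_ _)
  -- the part of low level
  let f : LinearMap.ker (T ^ p ^ n₀ - 1) →ₗ[ℂ_[p]] leopoldtKernel ρ (lev χ n₀) :=
    ((leopoldtKernel ρ (lev χ n)).subtype.comp
      (LinearMap.ker (T ^ p ^ n₀ - 1)).subtype).codRestrict _ (fun y => by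
        refine tact_level hn hγ y.1.2 ?_
        have h1 : (T ^ p ^ n₀) y.1 - y.1 = 0 := y.2
        have h2 := congrArg (fun z : leopoldtKernel ρ (lev χ n) => (z : Fin d → UU p Ω))
          (sub_eq_zero.1 h1)
        simp only [hTc] at h2
        exact h2)
  refine LinearMap.finrank_le_finrank_of_injective (f := f) ?_
  intro x y hxy
  apply Subtype.ext
  apply Subtype.ext
  exact congrArg (fun z : leopoldtKernel ρ (lev χ n₀) => (z : Fin d → UU p Ω)) hxy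

end Pool.Agent.Helper864WL
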