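import Mathlib

set_option autoImplicit false
set_option linter.unusedSectionVars false

/-!
# Transfer of invariant homomorphisms, and homomorphisms to `ℤ_p`
-/

namespace Pool.Agent.Helper864WL

open Module

section transfer

variable {G A : Type*} [Group G] [CommGroup A] {N : Subgroup G} [N.FiniteIndex]

/-- the transfer of an invariant homomorphism on a normal subgroup -/
lemma transfer_of_invariant (hN : N.Normal) (φ : N →* A)
    (hφ : ∀ (s : G) (g g' : N), (g' : G) = s⁻¹ * g * s → φ g' = φ g) (g : N) :
    MonoidHom.transfer φ (g : G) = φ g ^ N.index := by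
  classical
  let T : N.LeftTransversal := default
  rw [MonoidHom.transfer_def φ T (g : G)]
  unfold Subgroup.leftTransversals.diff
  let _ : Fintype (G ⧸ N) := N.fintypeQuotientOfFiniteIndex
  have hfix : ∀ q : G ⧸ N, (g : G)⁻¹ • q = q := by
    intro q
    induction q using QuotientGroup.induction_on with
    | H t =>
      change ((((g : G)⁻¹ * t : G)) : G ⧸ N) = (t : G ⧸ N)
      rw [QuotientGroup.eq]
      have h1 : ((g : G)⁻¹ * t)⁻¹ * t = t⁻¹ * g * t := by group
      rw [h1]
      have := hN.conj_mem g g.2 t⁻¹
      rwa [inv_inv] at this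
  rw [Finset.prod_congr rfl (g := fun _ => φ g)]
  · rw [Finset.prod_const, Finset.card_univ, ← Nat.card_eq_fintype_card]
    rfl
  · intro q _
    apply hφ ((T.2.leftQuotientEquiv q : T.1) : G) g
    have h2 := Subgroup.smul_apply_eq_smul_apply_inv_smul (g : G) T q
    change ((T.2.leftQuotientEquiv q : T.1) : G)⁻¹ * (((g : G) • T).2.leftQuotientEquiv q : G) = _
    rw [h2, hfix, smul_eq_mul, mul_assoc]

end transfer

end Pool.Agent.Helper864WL
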