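import Pool.Agent.Helper864_WL.ZpExt
import Pool.Agent.Helper864_WL.Divide
import Pool.Agent.Helper864_WL.Transfer

set_option autoImplicit false
set_option linter.unusedSectionVars false

/-!
# `ℤ_p`-extensions which do not come from a smaller field have different conjugates
-/

namespace Pool.Agent.Helper864WL

open Module NumberField

variable {p : ℕ} [Fact p.Prime] {Ω : Type} [Field Ω] {K : Type} [Field K] [Algebra K Ω]

variable (p) in
/-- `K_∞/K` is lifted: it is the compositum of `K` with a `ℤ_p`-extension of a proper subfield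
of `K` -/
def IsLifted (Kinf : IntermediateField K Ω) : Prop :=
  ∃ k : Subfield Ω, k < (algebraMap K Ω).fieldRange ∧ ∃ L : IntermediateField k Ω,
    IsZpExtension p L ∧ Kinf.toSubfield = L.toSubfield ⊔ (algebraMap K Ω).fieldRange

/-- subfields which are finite over `ℚ` -/
lemma fd_toIntermediateField [CharZero Ω] {k F : Subfield Ω} (h : ∀ x, algebraMap k Ω x ∈ F)
    (hF : FiniteDimensional ℚ F) : FiniteDimensional k (F.toIntermediateField h) := by
  have h1 : FiniteDimensional ℚ (F.toIntermediateField h) := hF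
  exact Module.Finite.of_restrictScalars_finite ℚ k _

lemma fd_range [CharZero Ω] [NumberField K] (E : IntermediateField K Ω) [FiniteDimensional K E] :
    FiniteDimensional ℚ E.toSubfield := by
  have h1 : FiniteDimensional ℚ E := Module.Finite.trans K E
  exact h1

section stab

variable (N : Subgroup (RingAut Ω)) {A : Type*} [CommGroup A] (φ : N →* A)

/-- the stabilizer of a homomorphism on a normal subgroup -/
def stabHom (hN : N.Normal) : Subgroup (RingAut Ω) where
  carrier := {s | ∀ g g' : N, (g' : RingAut Ω) = s⁻¹ * g * s → φ g' = φ g}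
  one_mem' := by
    intro g g' h
    rw [inv_one, one_mul, mul_one] at h
    rw [Subtype.ext h]
  mul_mem' := by
    intro s t hs ht g g' h
    have h1 : s⁻¹ * g * s ∈ N := by
      have := hN.conj_mem g g.2 s⁻¹
      rwa [inv_inv] at this
    rw [← hs g ⟨_, h1⟩ rfl]
    apply ht
    rw [h]
    change (s * t)⁻¹ * g * (s * t) = t⁻¹ * (s⁻¹ * g * s) * t
    group
  inv_mem' := by
    intro s hs g g' h
    apply (hs g' g _).symm
    rw [h]
    group

end stab

lemma exists_lift [CharZero Ω] [NumberField K] [IsAlgClosed Ω] [Algebra.IsAlgebraic ℚ Ω]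
    [IsGalois K Ω] [Algebra.IsAlgebraic K Ω]
    {Kinf : IntermediateField K Ω} (hK : IsZpExtension p Kinf) (a : RingAut Ω)
    (ha : a ∉ (toR : (Ω ≃ₐ[K] Ω) →* RingAut Ω).range)
    (h : ∀ β β' : Ω ≃ₐ[K] Ω, toR β' = a⁻¹ * toR β * a → ∀ x ∈ Kinf, β x = β' x) :
    IsLifted p Kinf := by
  classical
  obtain ⟨χ, hχc, hχs, hχk⟩ := exists_chi hK
  obtain ⟨N, hN, hNf, c, hc, -⟩ := exists_N (p := p) (Ω := Ω) (K := K) (d := 0)
    (1 : (Ω ≃ₐ[K] Ω) →* GL (Fin 0) ℂ_[p]) (by
      rw [MonoidHom.ker_one]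
      infer_instance)
  -- the same values on conjugates
  have hχa : ∀ β β' : Ω ≃ₐ[K] Ω, toR β' = a⁻¹ * toR β * a → χ β' = χ β := by
    intro β β' hβ
    have h1 : β⁻¹ * β' ∈ χ.ker := by
      rw [hχk, IntermediateField.mem_fixingSubgroup_iff]
      intro x hx
      change β⁻¹ (β' x) = x
      rw [← h β β' hβ x hx]
      change (β⁻¹ * β) x = x
      rw [inv_mul_cancel]
      rfl
    rw [MonoidHom.mem_ker, map_mul, map_inv, inv_mul_eq_one] at h1
    exact h1.symm
  let φ : N →* Multiplicative ℤ_[p] := χ.comp c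
  let S := stabHom N φ hN
  have hSK : ∀ g : Ω ≃ₐ[K] Ω, toR g ∈ S := by
    intro s g g' hg
    have h1 : c g' = s⁻¹ * c g * s := by
      apply toR_injective
      rw [map_mul, map_mul, map_inv, hc, hc, hg]
    change χ (c g') = χ (c g)
    rw [h1, map_mul, map_mul, map_inv, mul_comm, mul_inv_cancel_left]
  have hSa : a ∈ S := by
    intro g g' hg
    exact hχa _ _ (by rw [hc, hc, hg])
  -- the fixed field
  let k : Subfield Ω := FixedPoints.subfield S Ω
  have hk : ∀ x : Ω, x ∈ k ↔ ∀ s ∈ S, (s : Ω ≃+* Ω) x = x := by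
    intro x
    constructor
    · intro hx s hs
      exact hx ⟨s, hs⟩
    · intro hx s
      exact hx s.1 s.2
  have hkK : ∀ x ∈ k, x ∈ (algebraMap K Ω).fieldRange := by
    intro x hx
    rw [hk] at hx
    rw [RingHom.mem_fieldRange]
    have h1 := (InfiniteGalois.mem_range_algebraMap_iff_fixed (k := K) x).2 fun f =>
      hx (toR f) (hSK f)
    exact h1
  have hne : k < (algebraMap K Ω).fieldRange := by
    refine lt_of_le_of_ne hkK ?_
    intro heq
    apply ha
    rw [mem_range_toR]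
    intro x
    have h1 : algebraMap K Ω x ∈ k := by
      rw [heq]
      exact ⟨x, rfl⟩
    exact (hk _).1 h1 a hSa
  refine ⟨k, hne, ?_⟩
  -- Galois theory over `k`
  have i1 : Algebra.IsAlgebraic k Ω := Algebra.IsAlgebraic.tower_top (K := ℚ) k
  have i2 : IsAlgClosure k Ω := ⟨inferInstance, i1⟩
  have i3 : IsGalois k Ω := IsAlgClosure.isGalois k Ω
  have hrestr : ∀ g : Ω ≃ₐ[K] Ω, ∀ x : k, toR g (x : Ω) = (x : Ω) := by
    intro g x
    exact (hk _).1 x.2 _ (hSK g)
  let res : (Ω ≃ₐ[K] Ω) → (Ω ≃ₐ[k] Ω) := fun g =>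
    AlgEquiv.ofRingEquiv (f := ((toR g : RingAut Ω) : Ω ≃+* Ω)) (hrestr g)
  have hres : ∀ g, toR (res g) = toR g := fun g => by ext x; rfl
  -- nbhds
  have hnb : ∀ E : IntermediateField K Ω, FiniteDimensional K E →
      ∃ E' : IntermediateField k Ω, FiniteDimensional k E' ∧ ∀ g ∈ E'.fixingSubgroup,
        ∃ g' ∈ E.fixingSubgroup, res g' = g := by
    intro E hE
    have h1 : ∀ x : k, algebraMap k Ω x ∈ E.toSubfield := by
      intro x
      obtain ⟨y, hy⟩ := hkK x x.2
      change (x : Ω) ∈ E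
      rw [← hy]
      exact E.algebraMap_mem y
    refine ⟨E.toSubfield.toIntermediateField h1, fd_toIntermediateField h1 (fd_range E), ?_⟩
    intro g hg
    rw [IntermediateField.mem_fixingSubgroup_iff] at hg
    have h2 : ∀ x ∈ E, g x = x := fun x hx => hg x hx
    let g' : Ω ≃ₐ[K] Ω := AlgEquiv.ofRingEquiv (f := (g : Ω ≃+* Ω)) (fun x =>
      h2 _ (E.algebraMap_mem x))
    refine ⟨g', ?_, by ext x; rfl⟩
    rw [IntermediateField.mem_fixingSubgroup_iff]
    exact h2
  let Sk : Subgroup (Ω ≃ₐ[k] Ω) := S.comap toR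
  have hSk : Sk = ⊤ := by
    obtain ⟨E', hE', hE'2⟩ := hnb ⊥ inferInstance
    have h1 : E'.fixingSubgroup ≤ Sk := by
      intro g hg
      obtain ⟨g', -, rfl⟩ := hE'2 g hg
      change toR (res g') ∈ S
      rw [hres]
      exact hSK g'
    have h2 : IsOpen (Sk : Set (Ω ≃ₐ[k] Ω)) :=
      Subgroup.isOpen_mono h1 (IntermediateField.fixingSubgroup_isOpen E')
    have h3 : IsClosed (Sk : Set (Ω ≃ₐ[k] Ω)) := Subgroup.isClosed_of_isOpen _ h2
    have h4 : (IntermediateField.fixedField Sk).fixingSubgroup = Sk :=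
      InfiniteGalois.fixingSubgroup_fixedField ⟨Sk, h3⟩
    have h5 : IntermediateField.fixedField Sk = ⊥ := by
      rw [eq_bot_iff]
      intro x hx
      rw [IntermediateField.mem_fixedField_iff] at hx
      rw [IntermediateField.mem_bot]
      have h6 : x ∈ k := by
        rw [hk]
        intro s hs
        let s' : Ω ≃ₐ[k] Ω := AlgEquiv.ofRingEquiv (f := (s : Ω ≃+* Ω)) (fun y =>
          (hk _).1 y.2 s hs)
        exact hx s' hs
      exact ⟨⟨x, h6⟩, rfl⟩
    rw [← h4, h5, IntermediateField.fixingSubgroup_bot]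
  have hSall : ∀ g : Ω ≃ₐ[k] Ω, toR g ∈ S := by
    intro g
    have h1 : g ∈ Sk := by rw [hSk]; trivial
    exact h1
  -- transfer
  let Nk : Subgroup (Ω ≃ₐ[k] Ω) := N.comap toR
  have hNk : Nk.Normal := hN.comap toR
  have hNkf : Nk.FiniteIndex := by
    constructor
    have h1 : (N.comap (toR : (Ω ≃ₐ[k] Ω) →* RingAut Ω)).index ∣ N.index := by
      rw [Subgroup.index_comap]
      exact Subgroup.relIndex_dvd_index_of_normal N _
    exact fun h2 => hNf.index_ne_zero (Nat.eq_zero_of_zero_dvd (h2 ▸ h1))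
  let incl : Nk →* N :=
    { toFun := fun g => ⟨toR g.1, g.2⟩
      map_one' := rfl
      map_mul' := fun _ _ => rfl }
  let φk : Nk →* Multiplicative ℤ_[p] := φ.comp incl
  let ψ : (Ω ≃ₐ[k] Ω) →* Multiplicative ℤ_[p] := MonoidHom.transfer φk
  have hψN : ∀ g : Nk, ψ g = φk g ^ Nk.index := fun g =>
    transfer_of_invariant hNk φk (fun s g g' hg => by
      refine hSall s (incl g) (incl g') ?_
      change toR (g' : Ω ≃ₐ[k] Ω) = (toR s)⁻¹ * toR (g : Ω ≃ₐ[k] Ω) * toR s
      rw [hg, map_mul, map_mul, map_inv]) g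
  have htf : ∀ (m : ℕ) (x y : Multiplicative ℤ_[p]), m ≠ 0 → x ^ m = y ^ m → x = y := by
    intro m x y hm hxy
    apply Multiplicative.toAdd.injective
    have h1 := congrArg Multiplicative.toAdd hxy
    rw [toAdd_pow, toAdd_pow, nsmul_eq_mul, nsmul_eq_mul] at h1
    exact mul_left_cancel₀ (by exact_mod_cast hm) h1
  have hn : Nk.index ≠ 0 := hNkf.index_ne_zero
  have hψK : ∀ g : Ω ≃ₐ[K] Ω, ψ (res g) = χ g ^ Nk.index := by
    intro g
    have h1 : (res g) ^ Nk.index ∈ Nk := Subgroup.pow_index_mem Nk _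
    have h2 := hψN ⟨_, h1⟩
    have h3 : c (incl ⟨_, h1⟩) = g ^ Nk.index := by
      apply toR_injective
      rw [hc]
      change toR ((res g) ^ Nk.index) = _
      rw [map_pow, hres, map_pow]
    have h4 : φk ⟨_, h1⟩ = χ g ^ Nk.index := by
      change χ (c (incl ⟨_, h1⟩)) = _
      rw [h3, map_pow]
    rw [h4] at h2
    apply htf Nk.index _ _ hn
    rw [← h2, map_pow]
  have hψc : Continuous ψ := by
    apply continuous_of_continuousAt_one
    intro U hU
    rw [map_one] at hU
    have h1 : Continuous fun g : Ω ≃ₐ[K] Ω => χ g ^ Nk.index := hχc.pow _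
    have h2 : (fun g : Ω ≃ₐ[K] Ω => χ g ^ Nk.index) ⁻¹' U ∈ nhds 1 := by
      apply h1.continuousAt
      have h3 : (fun g : Ω ≃ₐ[K] Ω => χ g ^ Nk.index) 1 = 1 := by
        change χ 1 ^ Nk.index = 1
        rw [map_one, one_pow]
      rw [h3]
      exact hU
    rw [krullTopology_mem_nhds_one_iff] at h2
    obtain ⟨E, hEf, hE⟩ := h2
    obtain ⟨E', hE', hE'2⟩ := hnb E hEf
    have h3 : (E'.fixingSubgroup : Set (Ω ≃ₐ[k] Ω)) ∈ nhds 1 :=
      (IntermediateField.fixingSubgroup_isOpen E').mem_nhds (one_mem _)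
    change ψ ⁻¹' U ∈ nhds 1
    refine Filter.mem_of_superset h3 ?_
    intro g hg
    obtain ⟨g', hg', rfl⟩ := hE'2 g hg
    change ψ (res g') ∈ U
    rw [hψK]
    exact hE hg'
  obtain ⟨r, ψ', hψ'c, hψ's, hψ'⟩ := exists_divide ψ hψc hn (fun z => by
    obtain ⟨g, hg⟩ := hχs z
    exact ⟨res g, by rw [hψK, hg]⟩)
  refine ⟨IntermediateField.fixedField ψ'.ker, isZp_of_chi hψ'c hψ's, ?_⟩
  have hfix := fixing_ker hψ'c
  set L := IntermediateField.fixedField ψ'.ker with hL
  have hpr : p ^ r ≠ 0 := pow_ne_zero _ (Fact.out : p.Prime).ne_zero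
  -- compare the fixing subgroups
  have hmem : ∀ x : K, algebraMap K Ω x ∈ L.toSubfield ⊔ (algebraMap K Ω).fieldRange := fun x =>
    (le_sup_right : _ ≤ L.toSubfield ⊔ (algebraMap K Ω).fieldRange) ⟨x, rfl⟩
  let M : IntermediateField K Ω :=
    (L.toSubfield ⊔ (algebraMap K Ω).fieldRange).toIntermediateField hmem
  have hMK : M.fixingSubgroup = Kinf.fixingSubgroup := by
    ext g
    rw [← hχk, MonoidHom.mem_ker, IntermediateField.mem_fixingSubgroup_iff]
    have h1 : χ g = 1 ↔ res g ∈ L.fixingSubgroup := by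
      rw [hfix, MonoidHom.mem_ker]
      constructor
      · intro h2
        apply htf (p ^ r) _ _ hpr
        rw [← hψ', hψK, h2, one_pow, one_pow]
      · intro h2
        apply htf Nk.index _ _ hn
        rw [← hψK, hψ', h2, one_pow, one_pow]
    rw [h1, IntermediateField.mem_fixingSubgroup_iff]
    constructor
    · intro h2 x hx
      exact h2 x ((le_sup_left : _ ≤ L.toSubfield ⊔ (algebraMap K Ω).fieldRange) hx)
    · intro h2 x hx
      have h3 : L.toSubfield ⊔ (algebraMap K Ω).fieldRange ≤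
          RingHom.eqLocusField (g : Ω →+* Ω) (RingHom.id Ω) := by
        apply sup_le
        · intro y hy
          exact h2 y hy
        · rintro _ ⟨y, rfl⟩
          exact g.commutes y
      exact h3 hx
  have h1 : M = Kinf := by
    rw [← InfiniteGalois.fixedField_fixingSubgroup M, hMK,
      InfiniteGalois.fixedField_fixingSubgroup]
  rw [← h1]
  rfl

theorem conjDistinct_of_not_isLifted [NumberField K] [IsAlgClosure K Ω]
    {Kinf : IntermediateField K Ω} (hK : IsZpExtension p Kinf) (h : ¬ IsLifted p Kinf) :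
    ConjDistinct Kinf := by
  have i1 : CharZero Ω := charZero_of_injective_algebraMap (algebraMap K Ω).injective
  have i2 : IsAlgClosed Ω := IsAlgClosure.isAlgClosed K
  have i3 : Algebra.IsAlgebraic K Ω := IsAlgClosure.isAlgebraic
  have i4 : Algebra.IsAlgebraic ℚ Ω := Algebra.IsAlgebraic.trans ℚ K Ω
  have i5 : IsGalois K Ω := IsAlgClosure.isGalois K Ω
  intro a ha
  by_contra hcon
  push Not at hcon
  apply h
  refine exists_lift hK a ?_ ?_
  · rw [mem_range_toR]
    push Not
    exact ha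
  · intro β β' hβ x hx
    refine hcon β β' ?_ x hx
    intro y
    have h1 : a * toR β' = toR β * a := by
      rw [hβ, mul_assoc, mul_inv_cancel_left]
    exact congrArg (fun f : Ω ≃+* Ω => f y) h1

end Pool.Agent.Helper864WL
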