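import Pool.Agent.Helper864_WL.Conj

set_option autoImplicit false
set_option linter.unusedSectionVars false

/-!
# The archimedean multiplicity
-/

namespace Pool.Agent.Helper864WL

open NumberField TensorProduct Pool.Agent.W289.SL Module
open Pool.Agent.W254.PA (exists_theta)

variable {p : ℕ} [Fact p.Prime]

/-- embeddings which agree on the base differ by an automorphism -/
lemma exists_autE {E Ω M : Type} [Field E] [Field Ω] [Algebra E Ω] [Normal E Ω] [Field M]
    (f g : Ω →+* M) (h : f.comp (algebraMap E Ω) = g.comp (algebraMap E Ω)) :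
    ∃ τ : Ω ≃ₐ[E] Ω, f = g.comp (τ : Ω →+* Ω) := by
  let := g.toAlgebra
  let : Algebra E M := (g.comp (algebraMap E Ω)).toAlgebra
  have : IsScalarTower E Ω M := IsScalarTower.of_algebraMap_eq fun x => rfl
  let f' : Ω →ₐ[E] M := { f with commutes' := fun x => RingHom.congr_fun h x }
  let e := Normal.algHomEquivAut E M Ω
  refine ⟨e f', ?_⟩
  have h1 : e.symm (e f') = f' := e.symm_apply_apply f'
  ext x
  have h2 := congrArg (fun φ : Ω →ₐ[E] M => φ x) h1
  exact h2.symm

section inj

variable {Ω : Type} [Field Ω] [CharZero Ω] [Algebra.IsAlgebraic ℚ Ω]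

/-- a tuple on which `Gal(Ω/E)` acts through matrices and which is killed by the real logarithms at
one embedding above each infinite place of `E` is zero -/
lemma eq_zero_of_places {E : Type} [Field E] [Algebra E Ω] [Normal E Ω] {d : ℕ}
    (θ : ℂ_[p] ≃+* ℂ) (R : (Ω ≃ₐ[E] Ω) → Fin d → Fin d → ℂ_[p]) (s : InfinitePlace E → (Ω →+* ℂ))
    (hs : ∀ v, InfinitePlace.mk ((s v).comp (algebraMap E Ω)) = v) (y : Fin d → UU p Ω)
    (hy : ∀ (g : Ω ≃ₐ[E] Ω) j, ract (toR g) (y j) = ∑ i, R g i j • y i)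
    (h0 : ∀ v j, lamT θ (s v) (y j) = 0) : y = 0 := by
  have key : ∀ v (g : Ω ≃ₐ[E] Ω) j, lamT θ ((s v).comp (g : Ω →+* Ω)) (y j) = 0 := by
    intro v g j
    rw [← lamT_act]
    have h1 : act p (g : Ω →+* Ω) (y j) = ∑ i, R g i j • y i := hy g j
    rw [h1, map_sum]
    refine Finset.sum_eq_zero fun i _ => ?_
    rw [map_smul, h0, smul_zero]
  funext j
  refine eq_zero_of_lamT θ (y j) fun t => ?_
  obtain ⟨v, hv⟩ : ∃ v, v = InfinitePlace.mk (t.comp (algebraMap E Ω)) := ⟨_, rfl⟩
  have h1 := (hs v).trans hv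
  rcases InfinitePlace.mk_eq_iff.1 h1 with h2 | h2
  · obtain ⟨g, rfl⟩ := exists_autE t (s v) h2.symm
    exact key v g j
  · obtain ⟨g, hg⟩ := exists_autE ((starRingEnd ℂ).comp t) (s v) (by
      rw [RingHom.comp_assoc, ← h2]
      ext x
      exact Complex.conj_conj _)
    have h3 := key v g j
    rw [← hg] at h3
    rw [← h3]
    exact lamT_congr θ _ _ (fun y => by
      rw [RingHom.comp_apply, RCLike.norm_conj]) _

end inj

section mult

variable {Ω : Type} [Field Ω] {K : Type} [Field K] [Algebra K Ω] {d : ℕ}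

/-- the vectors fixed by the decomposition group of an infinite place of `Ω` -/
def fixedVec (ρ : (Ω ≃ₐ[K] Ω) →* GL (Fin d) ℂ_[p]) (w : InfinitePlace Ω) :
    Submodule ℂ_[p] (Fin d → ℂ_[p]) where
  carrier := {x | ∀ g ∈ MulAction.stabilizer (Ω ≃ₐ[K] Ω) w,
    (ρ g : Matrix (Fin d) (Fin d) ℂ_[p]).mulVec x = x}
  zero_mem' g _ := Matrix.mulVec_zero _
  add_mem' {x y} hx hy g hg := by rw [Matrix.mulVec_add, hx g hg, hy g hg]
  smul_mem' c {x} hx g hg := by rw [Matrix.mulVec_smul, hx g hg]

/-- the row vectors fixed by the decomposition group of an infinite place of `Ω` -/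
def fixedRow (ρ : (Ω ≃ₐ[K] Ω) →* GL (Fin d) ℂ_[p]) (w : InfinitePlace Ω) :
    Submodule ℂ_[p] (Fin d → ℂ_[p]) where
  carrier := {x | ∀ g ∈ MulAction.stabilizer (Ω ≃ₐ[K] Ω) w,
    (ρ g : Matrix (Fin d) (Fin d) ℂ_[p]).vecMul x = x}
  zero_mem' g _ := Matrix.zero_vecMul _
  add_mem' {x y} hx hy g hg := by
    change Matrix.vecMul (x + y) _ = _
    rw [Matrix.add_vecMul]
    have h1 : Matrix.vecMul x _ = x := hx g hg
    have h2 : Matrix.vecMul y _ = y := hy g hg
    rw [h1, h2]
  smul_mem' c {x} hx g hg := by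
    change Matrix.vecMul (c • x) _ = _
    rw [Matrix.smul_vecMul]
    have h1 : Matrix.vecMul x _ = x := hx g hg
    rw [h1]

lemma stab_two (w : InfinitePlace Ω) : ∃ c ∈ MulAction.stabilizer (Ω ≃ₐ[K] Ω) w,
    ∀ g ∈ MulAction.stabilizer (Ω ≃ₐ[K] Ω) w, g = 1 ∨ g = c := by
  by_cases h : ∃ c ∈ MulAction.stabilizer (Ω ≃ₐ[K] Ω) w, c ≠ 1
  · obtain ⟨c, hc, hc1⟩ := h
    refine ⟨c, hc, fun g hg => ?_⟩
    rw [← InfinitePlace.mk_embedding w, InfinitePlace.mem_stabilizer_mk_iff] at hc hg
    rcases hg with h1 | h1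
    · exact Or.inl h1
    · exact Or.inr (h1.ext (hc.resolve_left hc1))
  · push Not at h
    exact ⟨1, one_mem _, fun g hg => Or.inl (h g hg)⟩

lemma finrank_fixedRow_le (ρ : (Ω ≃ₐ[K] Ω) →* GL (Fin d) ℂ_[p]) (w : InfinitePlace Ω) :
    finrank ℂ_[p] (fixedRow ρ w) ≤ finrank ℂ_[p] (fixedVec ρ w) := by
  obtain ⟨c, hc, hcu⟩ := stab_two (K := K) w
  let A : Matrix (Fin d) (Fin d) ℂ_[p] := (ρ c : Matrix (Fin d) (Fin d) ℂ_[p]) - 1
  have h1 : fixedVec ρ w = LinearMap.ker A.mulVecLin := by
    ext x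
    rw [LinearMap.mem_ker, Matrix.mulVecLin_apply, Matrix.sub_mulVec, Matrix.one_mulVec,
      sub_eq_zero]
    constructor
    · intro h
      exact h c hc
    · intro h g hg
      rcases hcu g hg with rfl | rfl
      · rw [map_one]
        exact Matrix.one_mulVec x
      · exact h
  have h2 : fixedRow ρ w = LinearMap.ker A.transpose.mulVecLin := by
    ext x
    rw [LinearMap.mem_ker, Matrix.mulVecLin_apply, Matrix.mulVec_transpose, Matrix.vecMul_sub,
      Matrix.vecMul_one, sub_eq_zero]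
    constructor
    · intro h
      exact h c hc
    · intro h g hg
      rcases hcu g hg with rfl | rfl
      · rw [map_one]
        exact Matrix.vecMul_one x
      · exact h
  have h3 := LinearMap.finrank_range_add_finrank_ker A.mulVecLin
  have h4 := LinearMap.finrank_range_add_finrank_ker A.transpose.mulVecLin
  have h5 : A.transpose.rank = A.rank := Matrix.rank_transpose A
  rw [Matrix.rank, Matrix.rank] at h5
  rw [h1, h2]
  omega

lemma sq_eq_one_of_stab (w : InfinitePlace Ω) (g : Ω ≃ₐ[K] Ω)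
    (hg : g ∈ MulAction.stabilizer (Ω ≃ₐ[K] Ω) w) : g * g = 1 := by
  rw [← InfinitePlace.mk_embedding w, InfinitePlace.mem_stabilizer_mk_iff] at hg
  rcases hg with h1 | h1
  · rw [h1, one_mul]
  · ext x
    apply w.embedding.injective
    change w.embedding (g (g x)) = w.embedding x
    rw [h1.eq, h1.eq, star_star]

/-- the sum over the infinite places of the dimensions of the spaces fixed by the decomposition
groups -/
noncomputable def archMult [NumberField K] (ρ : (Ω ≃ₐ[K] Ω) →* GL (Fin d) ℂ_[p])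
    (w : InfinitePlace K → InfinitePlace Ω) : ℕ :=
  ∑ v, finrank ℂ_[p] (fixedVec ρ (w v))

/-- **Bound for the multiplicity.** -/
theorem finrank_Xsp_le [NumberField K] [CharZero Ω] [Algebra.IsAlgebraic ℚ Ω] [Normal K Ω]
    (ρ : (Ω ≃ₐ[K] Ω) →* GL (Fin d) ℂ_[p]) (w : InfinitePlace K → InfinitePlace Ω)
    (hw : ∀ v, (w v).comap (algebraMap K Ω) = v) (κ : (Ω ≃ₐ[K] Ω) →* ℂ_[p])
    (hκ : ∀ v, ∀ g ∈ MulAction.stabilizer (Ω ≃ₐ[K] Ω) (w v), κ g = 1) :
    FiniteDimensional ℂ_[p] (Xsp ρ κ) ∧ finrank ℂ_[p] (Xsp ρ κ) ≤ archMult ρ w := by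
  classical
  obtain ⟨θ⟩ := exists_theta p
  let s : InfinitePlace K → (Ω →+* ℂ) := fun v => (w v).embedding
  have hs : ∀ v, InfinitePlace.mk ((s v).comp (algebraMap K Ω)) = v := by
    intro v
    have h1 := hw v
    rw [← InfinitePlace.mk_embedding (w v), InfinitePlace.comap_mk] at h1
    exact h1
  let Λ : Xsp ρ κ →ₗ[ℂ_[p]] (∀ v : InfinitePlace K, fixedRow ρ (w v)) :=
    { toFun := fun y v => ⟨fun j => lamT θ (s v) ((y : Fin d → UU p Ω) j), by
        intro g hg
        funext j
        have h1 := y.2 g j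
        have h2 := congrArg (lamT θ (s v)) h1
        rw [map_sum] at h2
        have h3 : lamT θ (s v) (ract (toR g) ((y : Fin d → UU p Ω) j)) =
            lamT θ (s v) ((y : Fin d → UU p Ω) j) := by
          unfold ract
          rw [lamT_act]
          apply lamT_congr
          intro x
          rw [← InfinitePlace.mk_embedding (w v), InfinitePlace.mem_stabilizer_mk_iff] at hg
          rcases hg with h4 | h4
          · rw [h4]; rfl
          · have h5 := h4.eq x
            change ‖(w v).embedding (g x)‖ = ‖(w v).embedding x‖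
            rw [h5]
            exact RCLike.norm_conj _
        rw [h3] at h2
        rw [h2, Matrix.vecMul, dotProduct]
        refine Finset.sum_congr rfl fun i _ => ?_
        rw [map_smul, hκ v g hg, one_mul, smul_eq_mul, mul_comm]⟩
      map_add' := fun x y => by
        funext v
        apply Subtype.ext
        funext j
        exact map_add (lamT θ (s v)) _ _
      map_smul' := fun c x => by
        funext v
        apply Subtype.ext
        funext j
        exact map_smul (lamT θ (s v)) _ _ }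
  have hΛ : Function.Injective Λ := by
    rw [injective_iff_map_eq_zero]
    intro y hy
    apply Subtype.ext
    refine eq_zero_of_places (E := K) θ (fun g i j => κ g * ρ g i j) s hs y y.2 fun v j => ?_
    have h1 := congrArg (fun z : (∀ v : InfinitePlace K, fixedRow ρ (w v)) =>
      ((z v : Fin d → ℂ_[p]) j)) hy
    exact h1
  have hfd : FiniteDimensional ℂ_[p] (Xsp ρ κ) := FiniteDimensional.of_injective Λ hΛ
  refine ⟨hfd, (LinearMap.finrank_le_finrank_of_injective hΛ).trans ?_⟩
  rw [Module.finrank_pi_fintype]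
  exact Finset.sum_le_sum fun v _ => finrank_fixedRow_le ρ (w v)

end mult

end Pool.Agent.Helper864WL
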