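import Pool.Agent.Helper864_WL.PartR

/-!
# The rank of matrices of `p`-adic logarithms with coefficients in a number field
-/

set_option autoImplicit false

namespace Pool.Agent.Helper864WL

open Module Finset Pool.Agent.H301R2.ZG Pool.Agent.W254.HP Pool.Agent.W254.PA
open Pool.Agent.H301R2.SSE (dg bs om om_alg om_ne cc mul_om ortho_le int_basis
  finrank_int_le_rat finrank_int_le_c tau tau_coe tau_eq_zero)

lemma arith_count {m l r D s κ σ μ : ℕ} (hcon : r * (m + l) < m * l) (hD : 1 ≤ D)
    (hs : s = m + m * D + 1) (hσ : σ = m * s) (hκ1 : κ + 1 = D * (m + l) * s) (hμ : μ + σ = κ) :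
    (κ + 1) * (r + m * D) + 1 ≤ m * κ + (m * D) * μ := by
  have h1 : D * s * (r * (m + l) + 1) ≤ D * s * (m * l) := Nat.mul_le_mul_left _ hcon
  have h2 : s ≤ D * s := Nat.le_mul_of_pos_left s hD
  have h3 : m * D * (κ + 1) = m * D * μ + m * D * σ + m * D := by rw [← hμ]; ring
  have h4 : m * (κ + 1) = m * κ + m := by ring
  have h5 : (κ + 1) * (r + m * D) = D * s * (r * (m + l)) + m * D * (κ + 1) := by
    rw [hκ1]; ring
  have h6 : m * (κ + 1) = D * s * (m * l) + m * D * σ := by
    rw [hκ1, hσ]; ring
  nlinarith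

lemma arith_final {m l t D s κ R : ℕ} (ht : 1 ≤ t) (htm : t ≤ m)
    (hκ1 : κ + 1 = D * (m + l) * s) (hR : D * t ≤ R)
    (h : (R + l * D) * (m * s) ≤ t * κ) : False := by
  have h1 : (D * t + l * D) * (m * s) ≤ t * κ :=
    (Nat.mul_le_mul_right _ (Nat.add_le_add_right hR _)).trans h
  have h2 : t * κ + t = t * (D * (m + l) * s) := by rw [← hκ1]; ring
  have h3 : t * (D * (m + l) * s) ≤ (D * t + l * D) * (m * s) := by
    have h4 : t * (D * (m + l) * s) = D * s * (t * m) + D * s * l * t := by ring
    have h5 : (D * t + l * D) * (m * s) = D * s * (t * m) + D * s * l * m := by ring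
    rw [h4, h5]
    exact Nat.add_le_add_left (Nat.mul_le_mul_left _ htm) _
  omega

variable (K : IntermediateField ℚ ℂ) [FiniteDimensional ℚ K] (𝓛 : Submodule ℚ ℂ)

/-- **Waldschmidt's bound for the rank**, coefficients in a number field. -/
theorem rank_K (hO : ObsProp0 𝓛) (m l r : ℕ) (X : Fin m → Fin r → ℂ) (Y : Fin r → Fin l → ℂ)
    (a : Fin m → Fin l → ℂ) (u : Fin m → Fin l → Fin (dg K) → ℂ)
    (hu : ∀ i j h, u i j h ∈ 𝓛) (ha : ∀ i j, a i j = ∑ h, om K h * u i j h)
    (hXY : ∀ i j, a i j = ∑ ρ, X i ρ * Y ρ j)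
    (hind : ∀ c : Fin m → Fin l → K, ∑ i, ∑ j, (c i j : ℂ) * a i j = 0 → ∀ i j, c i j = 0) :
    m * l ≤ r * (m + l) := by
  classical
  by_contra hcon
  rw [not_le] at hcon
  have hD : 1 ≤ dg K := Nat.one_le_iff_ne_zero.mpr (NeZero.ne (dg K))
  have hm : 0 < m := by
    rcases Nat.eq_zero_or_pos m with h | h
    · rw [h, zero_mul] at hcon; omega
    · exact h
  have hl : 0 < l := by
    rcases Nat.eq_zero_or_pos l with h | h
    · rw [h, mul_zero] at hcon; omega
    · exact h
  obtain ⟨s, hs⟩ : ∃ s, s = m + m * dg K + 1 := ⟨_, rfl⟩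
  have hspos : 0 < s := by omega
  obtain ⟨κ, hκ1⟩ : ∃ κ, κ + 1 = dg K * (m + l) * s := by
    refine ⟨dg K * (m + l) * s - 1, ?_⟩
    have : 0 < dg K * (m + l) * s := by positivity
    omega
  have hle : m * s ≤ κ := by
    have h1 : m * s + 1 ≤ dg K * (m + l) * s := by
      calc m * s + 1 ≤ m * s + l * s := by
            have : 0 < l * s := by positivity
            omega
        _ = 1 * (m + l) * s := by ring
        _ ≤ dg K * (m + l) * s := by gcongr
    omega
  obtain ⟨μ, hμ⟩ : ∃ μ, μ + m * s = κ := ⟨κ - m * s, by omega⟩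
  obtain ⟨N, Rm, G0, hN1, hineq, hperp, hG0⟩ := partR K 𝓛 hO m l r X Y a u hu ha hXY κ μ (m * s) hμ
    (arith_count hcon hD hs rfl hκ1 hμ) (by positivity)
  -- the annihilator of `N` over `K`
  let F : Submodule K (Fin m → K) :=
    { carrier := {c | ∀ α ∈ N, ∑ i, α i * ((c i : K) : ℂ) = 0}
      zero_mem' := fun α _ => by simp
      add_mem' := fun {x y} hx hy α hα => by
        have h1 := hx α hα
        have h2 := hy α hα
        calc ∑ i, α i * (((x + y) i : K) : ℂ) = ∑ i, α i * ((x i : K) : ℂ) +
            ∑ i, α i * ((y i : K) : ℂ) := by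
              rw [← Finset.sum_add_distrib]
              refine Finset.sum_congr rfl fun i _ => ?_
              rw [Pi.add_apply]
              push_cast
              ring
          _ = 0 := by rw [h1, h2, add_zero]
      smul_mem' := fun c x hx α hα => by
        have h1 := hx α hα
        calc ∑ i, α i * (((c • x) i : K) : ℂ) = (c : ℂ) * ∑ i, α i * ((x i : K) : ℂ) := by
              rw [Finset.mul_sum]
              refine Finset.sum_congr rfl fun i _ => ?_
              rw [Pi.smul_apply, smul_eq_mul]
              push_cast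
              ring
          _ = 0 := by rw [h1, mul_zero] }
  obtain ⟨e, v, hv, hev⟩ := exists_dual F
  have hFN : finrank K F + finrank ℂ N ≤ m := by
    let W : Submodule ℂ (Fin m → ℂ) :=
      Submodule.span ℂ (Set.range fun k : Fin (finrank K F) => fun i => ((v k i : K) : ℂ))
    have hli : LinearIndependent ℂ (fun k : Fin (finrank K F) => fun i => ((v k i : K) : ℂ)) := by
      rw [Fintype.linearIndependent_iff]
      intro c hc k
      have h1 := congrFun hc (e k)
      rw [Finset.sum_apply, Pi.zero_apply, Finset.sum_eq_single k] at h1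
      · have h2 := hev k k
        simp only [Pi.smul_apply, smul_eq_mul, h2, if_true, OneMemClass.coe_one, mul_one] at h1
        exact h1
      · intro k' _ hk'
        have h2 := hev k k'
        rw [if_neg (Ne.symm hk')] at h2
        simp [h2]
      · intro h; exact absurd (Finset.mem_univ _) h
    have hW : finrank ℂ W = finrank K F := by
      have h1 := finrank_span_eq_card hli
      rw [Fintype.card_fin] at h1
      exact h1
    have h1 := ortho_le N W (by
      intro α hα c hc
      refine Submodule.span_induction (p := fun c _ => ∑ i, α i * c i = 0) ?_ ?_ ?_ ?_ hc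
      · rintro _ ⟨k, rfl⟩
        exact hv k α hα
      · simp
      · intro x y _ _ hx hy
        simp only [Pi.add_apply, mul_add, Finset.sum_add_distrib, hx, hy, add_zero]
      · intro b x _ hx
        have h2 : ∀ i, α i * (b • x) i = b * (α i * x i) := by
          intro i
          rw [Pi.smul_apply, smul_eq_mul]
          ring
        rw [Finset.sum_congr rfl fun i _ => h2 i, ← Finset.mul_sum, hx, mul_zero])
    omega
  have hRm := finrank_Rm_ge K Rm F (fun t ht α hα => hperp t ht α hα)
  -- a form over `K` which vanishes on `F`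
  obtain ⟨c, hc0, hc⟩ : ∃ c : Fin m → K, c ≠ 0 ∧ ∀ f ∈ F, ∑ i, c i * f i = 0 := by
    let g : (Fin m → K) →ₗ[K] (Fin (finrank K F) → K) :=
      { toFun := fun c k => ∑ i, c i * v k i
        map_add' := by
          intro a b; funext k
          simp only [Pi.add_apply, add_mul, Finset.sum_add_distrib]
        map_smul' := by
          intro c a; funext k
          simp only [Pi.smul_apply, smul_eq_mul, RingHom.id_apply, mul_assoc, Finset.mul_sum] }
    have hlt : finrank K (Fin (finrank K F) → K) < finrank K (Fin m → K) := by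
      rw [Module.finrank_fintype_fun_eq_card, Module.finrank_fintype_fun_eq_card, Fintype.card_fin,
        Fintype.card_fin]
      omega
    obtain ⟨c, hcker, hc0⟩ := Submodule.exists_mem_ne_zero_of_ne_bot
      (LinearMap.ker_ne_bot_of_finrank_lt (f := g) hlt)
    refine ⟨c, hc0, fun f hf => ?_⟩
    have h1 : ∀ i, f i = ∑ k, f (e k) * v k i := fun i => pivot_expand F e v hv hev f hf i
    have h2 : ∀ i, c i * f i = ∑ k, f (e k) * (c i * v k i) := by
      intro i
      rw [h1 i, Finset.mul_sum]
      refine Finset.sum_congr rfl fun k _ => ?_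
      ring
    rw [Finset.sum_congr rfl fun i _ => h2 i, Finset.sum_comm]
    refine Finset.sum_eq_zero fun k _ => ?_
    rw [← Finset.mul_sum]
    have h3 : ∑ i, c i * v k i = 0 := congrFun (LinearMap.mem_ker.1 hcker) k
    rw [h3, mul_zero]
  obtain ⟨i0, hi0⟩ : ∃ i, c i ≠ 0 := by
    by_contra hh
    push Not at hh
    exact hc0 (funext hh)
  -- the group `G0` is trivial
  have hG00 : ∀ s ∈ G0, s = 0 := by
    intro s hs
    obtain ⟨κ', hκ'⟩ := comb_twoPi K Rm (fun q => c (f1 q) * bs K (f2 q)) (by
      intro t ht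
      have h1 := hc _ (fun α hα => hperp t ht α hα)
      have h2 := sum_kk K t (fun i => (c i : ℂ))
      have h3 : ∑ i, ((kk K t i : K) : ℂ) * (c i : ℂ) = 0 := by
        have h4 := congrArg (fun z : K => (z : ℂ)) h1
        push_cast at h4
        rw [← h4]
        refine Finset.sum_congr rfl fun i _ => ?_
        ring
      rw [h3] at h2
      rw [← h2]
      refine Finset.sum_congr rfl fun q _ => ?_
      push_cast
      unfold om
      ring) (fun q => ∑ p, um K u (f1 q) (f2 q) p * (s p : ℂ)) 0 (fun m' hm' => ⟨0, by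
        rw [hG0 s hs m' hm']; simp⟩)
    rw [mul_zero] at hκ'
    have h5 : ∑ q, ((c (f1 q) * bs K (f2 q) : K) : ℂ) *
        ∑ p, um K u (f1 q) (f2 q) p * (s p : ℂ) =
        ∑ i, ∑ j, ((c i * kk K (fun p => (s p : ℚ)) j : K) : ℂ) * a i j := by
      rw [sum_pr]
      refine Finset.sum_congr rfl fun i _ => ?_
      have h6 : ∀ h ∈ (Finset.univ : Finset (Fin (dg K))),
          ((c (f1 (pr i h)) * bs K (f2 (pr i h)) : K) : ℂ) *
          ∑ p, um K u (f1 (pr i h)) (f2 (pr i h)) p * (s p : ℂ) =
          ∑ p, (c i : ℂ) * (s p : ℂ) * (om K h * um K u i h p) := by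
        intro h _
        rw [f1_pr, f2_pr, Finset.mul_sum]
        refine Finset.sum_congr rfl fun p _ => ?_
        push_cast
        unfold om
        ring
      rw [Finset.sum_congr rfl h6, Finset.sum_comm]
      have h7 : ∀ p ∈ (Finset.univ : Finset (Fin (l * dg K))),
          ∑ h, (c i : ℂ) * (s p : ℂ) * (om K h * um K u i h p) =
          (c i : ℂ) * (om K (f2 p) * a i (f1 p) * ((s p : ℚ) : ℂ)) := by
        intro p _
        rw [← Finset.mul_sum]
        have h8 := factA K a (fun _ _ => (0 : K)) u (by
          intro i j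
          rw [ha i j]
          simp) i p
        have h9 : av K (fun _ _ => (0 : K)) i p = 0 := by
          unfold av
          simp
        rw [h9, zero_add] at h8
        rw [← h8]
        push_cast
        ring
      rw [Finset.sum_congr rfl h7, ← Finset.mul_sum, sum_kk K (fun p => (s p : ℚ)) (fun j => a i j),
        Finset.mul_sum]
      refine Finset.sum_congr rfl fun j _ => ?_
      push_cast
      ring
    rw [h5] at hκ'
    have h10 := hind _ hκ'
    have h11 := kk_zero K (fun p => (s p : ℚ)) (fun j =>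
      (mul_eq_zero.1 (h10 i0 j)).resolve_left hi0)
    funext p
    have h12 : (s p : ℚ) = 0 := congrFun h11 p
    have h13 : s p = 0 := by exact_mod_cast h12
    rw [h13]
    rfl
  have hG0r : finrank ℤ G0 = 0 := by
    have h1 : G0 = ⊥ := by
      rw [eq_bot_iff]
      intro s hs
      rw [hG00 s hs]
      exact AddSubgroup.zero_mem _
    rw [h1]
    exact finrank_zero_of_subsingleton
  rw [hG0r, Nat.sub_zero] at hineq
  have ht1 : finrank ℂ N ≤ m := by omega
  refine arith_final hN1 ht1 hκ1 (R := finrank ℤ Rm) ?_ hineq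
  have h1 : dg K * (finrank K F + finrank ℂ N) ≤ dg K * m := Nat.mul_le_mul_left _ hFN
  have h2 : dg K * (finrank K F + finrank ℂ N) = dg K * finrank K F + dg K * finrank ℂ N := by
    ring
  have h3 : dg K * m = m * dg K := by ring
  omega

end Pool.Agent.Helper864WL
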