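import Pool.Agent.Helper864_WL.RankK
import Pool.Agent.Helper864_WL.Coord

/-!
# The rank of matrices of `p`-adic logarithms with algebraic coefficients
-/

set_option autoImplicit false
set_option linter.unusedSectionVars false

namespace Pool.Agent.Helper864WL

open Module Finset
open Pool.Agent.W254.PA (exists_theta LgP Lθ mem_Lθ exists_fieldP span_KP alg_map alg_symm)
open Pool.Agent.H301R2.SSE (dg om)

variable {p : ℕ} [Fact p.Prime]

/-- **Waldschmidt's bound for the rank**, algebraic coefficients. -/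
theorem rank_Q (m l r : ℕ) (X : Fin m → Fin r → ℂ_[p]) (Y : Fin r → Fin l → ℂ_[p])
    (a : Fin m → Fin l → ℂ_[p])
    (ha : ∀ i j, a i j ∈ Submodule.span (algebraicClosure ℚ ℂ_[p])
      ((LgP p (𝕂 := ℂ_[p]) : Submodule ℚ ℂ_[p]) : Set ℂ_[p]))
    (hXY : ∀ i j, a i j = ∑ ρ, X i ρ * Y ρ j)
    (hind : ∀ c : Fin m → Fin l → algebraicClosure ℚ ℂ_[p],
      ∑ i, ∑ j, (c i j : ℂ_[p]) * a i j = 0 → ∀ i j, c i j = 0) :
    m * l ≤ r * (m + l) := by
  classical
  obtain ⟨θ⟩ := exists_theta p
  have ha' := fun i j => Submodule.mem_span_set'.1 (ha i j)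
  choose n c u hcu using ha'
  -- the number field
  obtain ⟨K, hK, hKmem⟩ := exists_fieldP (E := ℂ)
    (Finset.univ.biUnion fun ij : Fin m × Fin l =>
      Finset.univ.image fun k : Fin (n ij.1 ij.2) => θ ((c ij.1 ij.2 k : _) : ℂ_[p])) (by
      intro z hz
      simp only [Finset.mem_biUnion, Finset.mem_univ, true_and, Finset.mem_image] at hz
      obtain ⟨ij, k, rfl⟩ := hz
      exact alg_map θ (mem_algebraicClosure_iff.1 (c ij.1 ij.2 k).2))
  have hfd : FiniteDimensional ℚ K := hK.to_finiteDimensional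
  have hmem : ∀ i j, θ (a i j) ∈ Submodule.span K ((Lθ p θ : Submodule ℚ ℂ) : Set ℂ) := by
    intro i j
    rw [← hcu i j, map_sum]
    refine Submodule.sum_mem _ fun k _ => ?_
    have h1 : θ ((c i j k : algebraicClosure ℚ ℂ_[p]) • ((u i j k : _) : ℂ_[p])) =
        (⟨θ (c i j k : ℂ_[p]), hKmem _ (by
          simp only [Finset.mem_biUnion, Finset.mem_univ, true_and, Finset.mem_image]
          exact ⟨(i, j), k, rfl⟩)⟩ : K) • θ ((u i j k : _) : ℂ_[p]) := by
      rw [Algebra.smul_def, map_mul]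
      rfl
    rw [h1]
    refine Submodule.smul_mem _ _ (Submodule.subset_span ?_)
    rw [SetLike.mem_coe, mem_Lθ, θ.symm_apply_apply]
    exact (u i j k).2
  have hrep := fun i j => span_KP K (Lθ p θ) (hmem i j)
  choose v hv hva using hrep
  refine rank_K K (Lθ p θ) (obsProp0_padic p Pool.Agent.H301R2.SSE.zeg θ) m l r
    (fun i ρ => θ (X i ρ)) (fun ρ j => θ (Y ρ j)) (fun i j => θ (a i j)) v hv hva ?_ ?_
  · intro i j
    rw [hXY, map_sum]
    exact Finset.sum_congr rfl fun ρ _ => map_mul θ _ _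
  · intro b hb i j
    have h1 : ∀ i j, IsAlgebraic ℚ (θ.symm ((b i j : K) : ℂ)) := fun i j =>
      alg_symm θ ((Algebra.IsAlgebraic.isAlgebraic (R := ℚ) (b i j)).algebraMap (A := ℂ))
    have h2 := hind (fun i j => ⟨θ.symm ((b i j : K) : ℂ), mem_algebraicClosure_iff.2 (h1 i j)⟩) (by
      apply θ.injective
      rw [map_zero, ← hb, map_sum]
      refine Finset.sum_congr rfl fun i _ => ?_
      rw [map_sum]
      refine Finset.sum_congr rfl fun j _ => ?_
      rw [map_mul]
      congr 1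
      exact θ.apply_symm_apply _) i j
    have h3 : θ.symm ((b i j : K) : ℂ) = 0 := congrArg Subtype.val h2
    have h4 : ((b i j : K) : ℂ) = 0 := (map_eq_zero θ.symm).1 h3
    exact Subtype.ext h4

end Pool.Agent.Helper864WL
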