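import Pool.Agent.Helper864_WL.Zp

set_option autoImplicit false
set_option linter.unusedSectionVars false

/-!
# Separation of the conjugates of the characters of `Gal(K_∞/K)`
-/

namespace Pool.Agent.Helper864WL

open NumberField TensorProduct Pool.Agent.W289.SL Module

variable {p : ℕ} [Fact p.Prime] {Ω : Type} [Field Ω] [CharZero Ω] {K : Type} [Field K]
  [NumberField K] [Algebra K Ω] {d : ℕ}

lemma finiteIndex_range : (toR : (Ω ≃ₐ[K] Ω) →* RingAut Ω).range.FiniteIndex := by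
  classical
  have h1 : Finite (RingAut Ω ⧸ (toR : (Ω ≃ₐ[K] Ω) →* RingAut Ω).range) := by
    let f : RingAut Ω ⧸ (toR : (Ω ≃ₐ[K] Ω) →* RingAut Ω).range → (K →+* Ω) := fun q =>
      Quotient.liftOn' q (fun a => ((a : Ω ≃+* Ω) : Ω →+* Ω).comp (algebraMap K Ω)) (by
        intro a b hab
        rw [QuotientGroup.leftRel_apply, mem_range_toR] at hab
        ext x
        have h2 := congrArg (a : Ω ≃+* Ω) (hab x)
        have h3 : (a : Ω ≃+* Ω) ((a⁻¹ * b : RingAut Ω) (algebraMap K Ω x)) =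
            (b : Ω ≃+* Ω) (algebraMap K Ω x) := by
          change (a * (a⁻¹ * b) : RingAut Ω) (algebraMap K Ω x) = _
          rw [mul_inv_cancel_left]
        rw [h3] at h2
        exact h2.symm)
    refine Finite.of_injective f ?_
    intro q q' h
    induction q using Quotient.inductionOn' with
    | h a =>
      induction q' using Quotient.inductionOn' with
      | h b =>
        apply Quotient.sound'
        rw [QuotientGroup.leftRel_apply, mem_range_toR]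
        intro x
        have h2 : (a : Ω ≃+* Ω) (algebraMap K Ω x) = (b : Ω ≃+* Ω) (algebraMap K Ω x) :=
          RingHom.congr_fun h x
        change (a⁻¹ : RingAut Ω) ((b : Ω ≃+* Ω) (algebraMap K Ω x)) = _
        rw [← h2]
        change (a⁻¹ * a : RingAut Ω) (algebraMap K Ω x) = _
        rw [inv_mul_cancel]
        rfl
  exact Subgroup.finiteIndex_of_finite_quotient

lemma exists_N (ρ : (Ω ≃ₐ[K] Ω) →* GL (Fin d) ℂ_[p]) (hρ : ρ.ker.FiniteIndex) :
    ∃ N : Subgroup (RingAut Ω), N.Normal ∧ N.FiniteIndex ∧ ∃ c : N →* (Ω ≃ₐ[K] Ω),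
      (∀ β, toR (c β) = β) ∧ ∀ β, ρ (c β) = 1 := by
  classical
  let H : Subgroup (RingAut Ω) := ρ.ker.map toR
  have hrange := finiteIndex_range (Ω := Ω) (K := K)
  have hH : H.FiniteIndex := by
    constructor
    rw [Subgroup.index_map]
    refine mul_ne_zero ?_ hrange.index_ne_zero
    have h1 : (ρ.ker ⊔ (toR : (Ω ≃ₐ[K] Ω) →* RingAut Ω).ker).FiniteIndex :=
      Subgroup.finiteIndex_of_le le_sup_left
    exact h1.index_ne_zero
  have hle : H.normalCore ≤ (toR : (Ω ≃ₐ[K] Ω) →* RingAut Ω).range := by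
    refine (Subgroup.normalCore_le H).trans ?_
    rintro _ ⟨g, -, rfl⟩
    exact ⟨g, rfl⟩
  let c : H.normalCore →* (Ω ≃ₐ[K] Ω) :=
    (MonoidHom.ofInjective (toR_injective (K := K) (Ω := Ω))).symm.toMonoidHom.comp
      (Subgroup.inclusion hle)
  have hc : ∀ β, toR (c β) = β := by
    intro β
    have h1 := (MonoidHom.ofInjective (toR_injective (K := K) (Ω := Ω))).apply_symm_apply
      (Subgroup.inclusion hle β)
    exact congrArg Subtype.val h1
  refine ⟨H.normalCore, inferInstance, inferInstance, c, hc, fun β => ?_⟩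
  obtain ⟨h, hh, hβ⟩ := Subgroup.normalCore_le H β.2
  have h1 : c β = h := toR_injective ((hc β).trans hβ.symm)
  rw [h1]
  exact hh

lemma exists_not_dvd {x : ℤ_[p]} (hx : x ≠ 0) : ∃ m : ℕ, ¬ (p : ℤ_[p]) ^ (m + 1) ∣ x :=
  FiniteMultiplicity.of_not_isUnit PadicInt.prime_p.not_isUnit hx

/-- **Separation.** -/
theorem exists_sep (χ : (Ω ≃ₐ[K] Ω) →* Multiplicative ℤ_[p])
    (hcd : ∀ a : RingAut Ω, a ∉ (toR : (Ω ≃ₐ[K] Ω) →* RingAut Ω).range →
      ∃ β β' : Ω ≃ₐ[K] Ω, toR β' = a⁻¹ * toR β * a ∧ χ β ≠ χ β')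
    (α : (K →+* Ω) → RingAut Ω) (hα : ∀ τ x, (α τ : Ω ≃+* Ω) (algebraMap K Ω x) = τ x)
    [IsAlgClosed Ω]
    (N : Subgroup (RingAut Ω)) (hN : N.Normal) (hNf : N.FiniteIndex) (c : N →* (Ω ≃ₐ[K] Ω))
    (hc : ∀ β, toR (c β) = β) [Algebra.IsAlgebraic K Ω] [Algebra.IsAlgebraic ℚ Ω] :
    ∃ n₀ : ℕ, ∀ (n : ℕ) (ζ : ℂ_[p]) (hζ : ζ ^ p ^ n = 1), ζ ^ p ^ n₀ ≠ 1 →
      ∀ τ τ' : K →+* Ω, τ ≠ τ' → ∃ g g' : N,
        (g' : RingAut Ω) = ((α τ)⁻¹ * α τ')⁻¹ * g * ((α τ)⁻¹ * α τ') ∧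
        (psi n ζ hζ).comp χ (c g) ≠ (psi n ζ hζ).comp χ (c g') := by
  classical
  have key : ∀ q : (K →+* Ω) × (K →+* Ω), q.1 ≠ q.2 → ∃ (m : ℕ) (g g' : N),
      (g' : RingAut Ω) = ((α q.1)⁻¹ * α q.2)⁻¹ * g * ((α q.1)⁻¹ * α q.2) ∧
      ¬ (p : ℤ_[p]) ^ (m + 1) ∣
        Multiplicative.toAdd (χ (c g)) - Multiplicative.toAdd (χ (c g')) := by
    rintro ⟨τ, τ'⟩ hne
    obtain ⟨β, β', hβ, hχ⟩ := hcd _ (not_mem_range hα hne)
    have hg : toR β ^ N.index ∈ N := Subgroup.pow_index_mem N _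
    have hg' : toR β' ^ N.index ∈ N := Subgroup.pow_index_mem N _
    have hcg : c ⟨_, hg⟩ = β ^ N.index := by
      apply toR_injective
      rw [hc, map_pow]
    have hcg' : c ⟨_, hg'⟩ = β' ^ N.index := by
      apply toR_injective
      rw [hc, map_pow]
    have hne0 : Multiplicative.toAdd (χ (c ⟨_, hg⟩)) - Multiplicative.toAdd (χ (c ⟨_, hg'⟩)) ≠
        0 := by
      rw [hcg, hcg', map_pow χ, map_pow χ, toAdd_pow, toAdd_pow, ← smul_sub]
      intro h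
      rcases smul_eq_zero.1 h with h1 | h1
      · exact hNf.index_ne_zero h1
      · exact hχ (Multiplicative.toAdd.injective (sub_eq_zero.1 h1))
    obtain ⟨m, hm⟩ := exists_not_dvd hne0
    refine ⟨m, ⟨_, hg⟩, ⟨_, hg'⟩, ?_, hm⟩
    change toR β' ^ N.index = _
    rw [hβ]
    have h1 : ((α τ)⁻¹ * α τ')⁻¹ * toR β * ((α τ)⁻¹ * α τ') =
        ((α τ)⁻¹ * α τ')⁻¹ * toR β * (((α τ)⁻¹ * α τ')⁻¹)⁻¹ := by rw [inv_inv]
    rw [h1, conj_pow, inv_inv]
  choose! m g g' h1 h2 using key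
  refine ⟨Finset.univ.sup m, fun n ζ hζ hζ0 τ τ' hne => ⟨g (τ, τ'), g' (τ, τ'),
    h1 (τ, τ') hne, fun h => h2 (τ, τ') hne ?_⟩⟩
  have h3 := psi_sep hζ hζ0 h
  refine (pow_dvd_pow _ ?_).trans h3
  exact Nat.add_le_add_right (Finset.le_sup (f := m) (Finset.mem_univ (τ, τ'))) 1

end Pool.Agent.Helper864WL
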