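import Pool.Agent.Helper864_WL.Coord

set_option autoImplicit false
set_option linter.unusedSectionVars false

/-!
# Vectors with small coordinate spaces in spaces defined over the algebraic numbers
-/

namespace Pool.Agent.Helper864WL

open NumberField TensorProduct Pool.Agent.W289.SL Module

variable {p : ℕ} [Fact p.Prime] {Ω : Type} [Field Ω]

/-- a stable subspace is spanned by tuples with algebraic coordinates -/
lemma mem_span_alg {d : ℕ} (X : Submodule ℂ_[p] (Fin d → UU p Ω))
    (hX : ∀ φ : ℂ_[p] →ₗ[algebraicClosure ℚ ℂ_[p]] ℂ_[p], ∀ x ∈ X, (fun j => tw φ (x j)) ∈ X)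
    (x : Fin d → UU p Ω) (hx : x ∈ X) :
    x ∈ Submodule.span ℂ_[p] {y : Fin d → UU p Ω | y ∈ X ∧ ∀ j, HasCo 1 (y j)} := by
  classical
  obtain ⟨ι, B, u, hB⟩ := exists_basis p Ω
  -- the space of coordinates
  let S : Set ℂ_[p] := Set.range fun q : (Σ j : Fin d, (B.repr (x j)).support) =>
    B.repr (x q.1) q.2
  have hSf : S.Finite := Set.finite_range _
  let A : Submodule (algebraicClosure ℚ ℂ_[p]) ℂ_[p] := Submodule.span _ S
  have hAf : FiniteDimensional (algebraicClosure ℚ ℂ_[p]) A :=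
    FiniteDimensional.span_of_finite _ hSf
  have hxA : ∀ j i, B.repr (x j) i ∈ A := by
    intro j i
    by_cases h : i ∈ (B.repr (x j)).support
    · exact Submodule.subset_span ⟨⟨j, i, h⟩, rfl⟩
    · rw [Finsupp.notMem_support_iff.1 h]; exact A.zero_mem
  let bA := Module.finBasis (algebraicClosure ℚ ℂ_[p]) A
  choose f hf using fun k => LinearMap.exists_extend (bA.coord k)
  let φ : Fin (finrank (algebraicClosure ℚ ℂ_[p]) A) →
      (ℂ_[p] →ₗ[algebraicClosure ℚ ℂ_[p]] ℂ_[p]) := fun k =>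
    (Algebra.linearMap (algebraicClosure ℚ ℂ_[p]) ℂ_[p]).comp (f k)
  have hφ : ∀ c ∈ A, c = ∑ k, (bA k : ℂ_[p]) * φ k c := by
    intro c hc
    have h1 := bA.sum_repr ⟨c, hc⟩
    have h2 := congrArg (fun z : A => (z : ℂ_[p])) h1
    simp only [Submodule.coe_sum, Submodule.coe_smul] at h2
    rw [← h2]
    conv_rhs => rw [h2]
    refine Finset.sum_congr rfl fun k _ => ?_
    have h3 : f k c = bA.repr ⟨c, hc⟩ k := by
      have h4 := congrArg (fun g : A →ₗ[algebraicClosure ℚ ℂ_[p]] _ => g ⟨c, hc⟩) (hf k)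
      exact h4
    change _ = (bA k : ℂ_[p]) * algebraMap _ _ (f k c)
    rw [h3, Algebra.smul_def, mul_comm]
  have key : x = ∑ k, (bA k : ℂ_[p]) • (fun j => tw (φ k) (x j)) := by
    funext j
    apply B.repr.injective
    ext i
    rw [Finset.sum_apply, map_sum, Finsupp.finsetSum_apply]
    rw [hφ _ (hxA j i)]
    refine Finset.sum_congr rfl fun k _ => ?_
    rw [Pi.smul_apply, map_smul, Finsupp.smul_apply, repr_tw B hB, smul_eq_mul]
  rw [key]
  refine Submodule.sum_mem _ fun k _ => Submodule.smul_mem _ _ (Submodule.subset_span ⟨hX _ x hx, ?_⟩)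
  intro j
  refine hasCo_of_repr B hB fun i => ?_
  rw [repr_tw B hB]
  exact Submodule.mem_one.2 ⟨_, rfl⟩

/-- a stable subspace has a basis with algebraic coordinates -/
theorem exists_alg_basis {d : ℕ} (X : Submodule ℂ_[p] (Fin d → UU p Ω)) [FiniteDimensional ℂ_[p] X]
    (hX : ∀ φ : ℂ_[p] →ₗ[algebraicClosure ℚ ℂ_[p]] ℂ_[p], ∀ x ∈ X, (fun j => tw φ (x j)) ∈ X) :
    ∃ B : Basis (Fin (finrank ℂ_[p] X)) ℂ_[p] X, ∀ k j, HasCo 1 (((B k : X) : Fin d → UU p Ω) j) := by
  classical
  obtain ⟨b, hb, hspan, hli⟩ := exists_linearIndependent ℂ_[p]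
    {y : Fin d → UU p Ω | y ∈ X ∧ ∀ j, HasCo 1 (y j)}
  have hXb : Submodule.span ℂ_[p] b = X := by
    rw [hspan]
    apply le_antisymm
    · exact Submodule.span_le.2 fun y hy => hy.1
    · intro y hy
      exact mem_span_alg X hX y hy
  let B0 : Basis b ℂ_[p] (Submodule.span ℂ_[p] (Set.range ((↑) : b → Fin d → UU p Ω))) :=
    Basis.span hli
  have hXb' : Submodule.span ℂ_[p] (Set.range ((↑) : b → Fin d → UU p Ω)) = X := by
    rw [Subtype.range_coe, hXb]
  let B1 : Basis b ℂ_[p] X := B0.map (LinearEquiv.ofEq _ _ hXb')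
  have hB1 : ∀ i : b, ((B1 i : X) : Fin d → UU p Ω) = i := by
    intro i
    change ((LinearEquiv.ofEq _ _ hXb' (B0 i) : X) : Fin d → UU p Ω) = i
    rw [LinearEquiv.coe_ofEq_apply]
    exact congrArg _ (Basis.span_apply hli i)
  have hfin : Finite b := Module.Finite.finite_basis B1
  have : Fintype b := Fintype.ofFinite b
  have hcard : Fintype.card b = finrank ℂ_[p] X := (finrank_eq_card_basis B1).symm
  refine ⟨B1.reindex (Fintype.equivFinOfCardEq hcard), fun k j => ?_⟩
  rw [Basis.reindex_apply, hB1]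
  exact (hb ((Fintype.equivFinOfCardEq hcard).symm k).2).2 j

/-- **Small coordinate spaces.** -/
theorem exists_small {d : ℕ} (X W : Submodule ℂ_[p] (Fin d → UU p Ω)) [FiniteDimensional ℂ_[p] X]
    (hX : ∀ φ : ℂ_[p] →ₗ[algebraicClosure ℚ ℂ_[p]] ℂ_[p], ∀ x ∈ X, (fun j => tw φ (x j)) ∈ X)
    (hW : W ≤ X) (n s : ℕ) (hn : finrank ℂ_[p] X ≤ n) (hs : s ≤ n)
    (hWn : n - s < finrank ℂ_[p] W) :
    ∃ x ∈ W, x ≠ 0 ∧ ∃ A : Submodule (algebraicClosure ℚ ℂ_[p]) ℂ_[p],
      FiniteDimensional (algebraicClosure ℚ ℂ_[p]) A ∧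
      finrank (algebraicClosure ℚ ℂ_[p]) A ≤ s ∧ ∀ j, HasCo A (x j) := by
  classical
  obtain ⟨b, hb, hspan, hli⟩ := exists_linearIndependent ℂ_[p]
    {y : Fin d → UU p Ω | y ∈ X ∧ ∀ j, HasCo 1 (y j)}
  have hXb : Submodule.span ℂ_[p] b = X := by
    rw [hspan]
    apply le_antisymm
    · exact Submodule.span_le.2 fun y hy => hy.1
    · intro y hy
      exact mem_span_alg X hX y hy
  -- a basis of `X` with algebraic coordinates
  let B0 : Basis b ℂ_[p] (Submodule.span ℂ_[p] (Set.range ((↑) : b → Fin d → UU p Ω))) :=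
    Basis.span hli
  have hXb' : Submodule.span ℂ_[p] (Set.range ((↑) : b → Fin d → UU p Ω)) = X := by
    rw [Subtype.range_coe, hXb]
  let B1 : Basis b ℂ_[p] X := B0.map (LinearEquiv.ofEq _ _ hXb')
  have hB1 : ∀ i : b, ((B1 i : X) : Fin d → UU p Ω) = i := by
    intro i
    change ((LinearEquiv.ofEq _ _ hXb' (B0 i) : X) : Fin d → UU p Ω) = i
    rw [LinearEquiv.coe_ofEq_apply]
    exact congrArg _ (Basis.span_apply hli i)
  have hfin : Finite b := Module.Finite.finite_basis B1
  have : Fintype b := Fintype.ofFinite b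
  have hcard : Fintype.card b = finrank ℂ_[p] X := (finrank_eq_card_basis B1).symm
  let B := B1.reindex (Fintype.equivFinOfCardEq hcard)
  have hBal : ∀ k j, HasCo 1 (((B k : X) : Fin d → UU p Ω) j) := by
    intro k j
    have h1 : ((B k : X) : Fin d → UU p Ω) = ((Fintype.equivFinOfCardEq hcard).symm k : b) := by
      change ((B1.reindex _ k : X) : Fin d → UU p Ω) = _
      rw [Basis.reindex_apply, hB1]
    rw [h1]
    exact (hb ((Fintype.equivFinOfCardEq hcard).symm k).2).2 j
  obtain ⟨n', hn'⟩ : ∃ n', n' = finrank ℂ_[p] X := ⟨_, rfl⟩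
  -- the linear forms vanishing on the vectors with few coordinates
  let t := min s (finrank ℂ_[p] X)
  let T := {k : Fin (finrank ℂ_[p] X) // t ≤ (k : ℕ)}
  let g : W →ₗ[ℂ_[p]] (T → ℂ_[p]) := LinearMap.pi fun k =>
    (B.coord k.1).comp (Submodule.inclusion hW)
  have hTcard : Fintype.card T = finrank ℂ_[p] X - t := by
    have h1 : Fintype.card {k : Fin (finrank ℂ_[p] X) // ¬ (t ≤ (k : ℕ))} = t := by
      have h2 : Fintype.card (Fin t) = t := Fintype.card_fin t
      rw [← h2]
      refine Fintype.card_congr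
        { toFun := fun k => ⟨k.1, by have := k.2; omega⟩
          invFun := fun k => ⟨⟨k, by have := k.2; have : t ≤ finrank ℂ_[p] X := min_le_right _ _; omega⟩,
            by have := k.2; simp⟩
          left_inv := fun k => by ext; rfl
          right_inv := fun k => by ext; rfl }
    have h2 := Fintype.card_subtype_compl (fun k : Fin (finrank ℂ_[p] X) => t ≤ (k : ℕ))
    have h3 := Fintype.card_subtype_le (fun k : Fin (finrank ℂ_[p] X) => t ≤ (k : ℕ))
    rw [h1, Fintype.card_fin] at h2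
    rw [Fintype.card_fin] at h3
    change Fintype.card {k : Fin (finrank ℂ_[p] X) // t ≤ (k : ℕ)} = _
    omega
  have hfW : FiniteDimensional ℂ_[p] W := Submodule.finiteDimensional_of_le hW
  have hlt : finrank ℂ_[p] (T → ℂ_[p]) < finrank ℂ_[p] W := by
    rw [Module.finrank_fintype_fun_eq_card, hTcard]
    have : t = min s (finrank ℂ_[p] X) := rfl
    omega
  obtain ⟨x, hxker, hx0⟩ := Submodule.exists_mem_ne_zero_of_ne_bot
    (LinearMap.ker_ne_bot_of_finrank_lt (f := g) hlt)
  have hxk : ∀ k : Fin (finrank ℂ_[p] X), t ≤ (k : ℕ) →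
      B.repr (Submodule.inclusion hW x) k = 0 := by
    intro k hk
    have h1 := congrFun (LinearMap.mem_ker.1 hxker) ⟨k, hk⟩
    exact h1
  refine ⟨x, x.2, fun h => hx0 (Subtype.ext h), Submodule.span _ (Set.range fun k : Fin t =>
    B.repr (Submodule.inclusion hW x) ⟨k, lt_of_lt_of_le k.2 (min_le_right _ _)⟩),
    FiniteDimensional.span_of_finite _ (Set.finite_range _), ?_, ?_⟩
  · refine (finrank_range_le_card _).trans ?_
    rw [Fintype.card_fin]
    exact min_le_left _ _
  · intro j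
    have h1 := B.sum_repr (Submodule.inclusion hW x)
    have h2 := congrArg (fun z : X => (z : Fin d → UU p Ω) j) h1
    simp only [Submodule.coe_sum, Submodule.coe_smul, Finset.sum_apply, Pi.smul_apply,
      Submodule.coe_inclusion] at h2
    rw [← h2]
    refine HasCo.sum _ fun k _ => (hBal k j).smul ?_
    by_cases hk : t ≤ (k : ℕ)
    · rw [hxk k hk]; exact Submodule.zero_mem _
    · exact Submodule.subset_span ⟨⟨k, by omega⟩, rfl⟩

end Pool.Agent.Helper864WL
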