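import Pool.Agent.Helper864_WL.Lift

set_option autoImplicit false
set_option linter.unusedSectionVars false

/-!
# The statement for Artin representations
-/

namespace Pool.Agent.Helper864WL

open NumberField TensorProduct Pool.Agent.W289.SL Module

/-- An Artin representation of `Gal(Ω/K)` of degree `d`: a homomorphism to `GL_d(ℂ_p)` with open
kernel, given by matrices whose entries are algebraic over `ℚ`. -/
structure ArtinRep (p : ℕ) [Fact p.Prime] (K Ω : Type) [Field K] [Field Ω] [Algebra K Ω]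
    (d : ℕ) where
  hom : (Ω ≃ₐ[K] Ω) →* GL (Fin d) ℂ_[p]
  isOpen_ker : IsOpen (hom.ker : Set (Ω ≃ₐ[K] Ω))
  isAlgebraic : ∀ g i j, IsAlgebraic ℚ (hom g i j)

variable {p : ℕ} [Fact p.Prime] {K Ω : Type} [Field K] [Field Ω] [Algebra K Ω] {d : ℕ}

/-- `x ∈ ℂ_p ⊗ 𝓞_Ω^×` is killed by all `p`-adic logarithms -/
def LogZero (x : UU p Ω) : Prop :=
  ∀ (L : ℂ_[p] → ℂ_[p]) (hL : IsIwasawaLog p L) (σ : Ω →+* ℂ_[p]), logT hL σ x = 0

lemma LogZero.zero : LogZero (0 : UU p Ω) := fun _ _ _ => map_zero _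

lemma LogZero.add {x y : UU p Ω} (hx : LogZero x) (hy : LogZero y) : LogZero (x + y) :=
  fun L hL σ => by rw [map_add, hx L hL σ, hy L hL σ, add_zero]

lemma LogZero.smul (c : ℂ_[p]) {x : UU p Ω} (hx : LogZero x) : LogZero (c • x) :=
  fun L hL σ => by rw [map_smul, hx L hL σ, smul_zero]

namespace ArtinRep

/-- `ρ` is irreducible -/
def Irreducible (ρ : ArtinRep p K Ω d) : Prop := 0 < d ∧ IsIrred ρ.hom

/-- the tuple `y` of elements of `ℂ_p ⊗ 𝓞_Ω^×` transforms under `g` like the basis vectors of the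
space of `ρ` -/
def Transforms (ρ : ArtinRep p K Ω d) (g : Ω ≃ₐ[K] Ω) (y : Fin d → UU p Ω) : Prop :=
  ∀ j, act p (g : Ω →+* Ω) (y j) = ∑ i, ρ.hom g i j • y i

lemma transforms_zero (ρ : ArtinRep p K Ω d) (g : Ω ≃ₐ[K] Ω) : ρ.Transforms g 0 :=
  fun j => by simp

lemma Transforms.add {ρ : ArtinRep p K Ω d} {g : Ω ≃ₐ[K] Ω} {x y : Fin d → UU p Ω}
    (hx : ρ.Transforms g x) (hy : ρ.Transforms g y) : ρ.Transforms g (x + y) := by
  intro j
  rw [Pi.add_apply, map_add, hx, hy, ← Finset.sum_add_distrib]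
  refine Finset.sum_congr rfl fun i _ => ?_
  rw [Pi.add_apply, smul_add]

lemma Transforms.smul {ρ : ArtinRep p K Ω d} {g : Ω ≃ₐ[K] Ω} (c : ℂ_[p]) {x : Fin d → UU p Ω}
    (hx : ρ.Transforms g x) : ρ.Transforms g (c • x) := by
  intro j
  rw [Pi.smul_apply, map_smul, hx, Finset.smul_sum]
  refine Finset.sum_congr rfl fun i _ => ?_
  rw [Pi.smul_apply, smul_comm]

/-- The Leopoldt kernel of `ρ` over the intermediate field `E`: the `Gal(Ω/E)`-equivariant maps
from the space of `ρ` to `ℂ_p ⊗ 𝓞_Ω^×`, given by the images of the basis vectors, whose values are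
killed by all `p`-adic logarithms. -/
def kernel (ρ : ArtinRep p K Ω d) (E : IntermediateField K Ω) :
    Submodule ℂ_[p] (Fin d → UU p Ω) where
  carrier := {y | (∀ g ∈ E.fixingSubgroup, ρ.Transforms g y) ∧ ∀ j, LogZero (y j)}
  zero_mem' := ⟨fun g _ => ρ.transforms_zero g, fun _ => LogZero.zero⟩
  add_mem' := fun hx hy => ⟨fun g hg => (hx.1 g hg).add (hy.1 g hg),
    fun j => (hx.2 j).add (hy.2 j)⟩
  smul_mem' := fun c _ hx => ⟨fun g hg => (hx.1 g hg).smul c, fun j => (hx.2 j).smul c⟩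

/-- The dimension over `ℂ_p` of the Leopoldt kernel of `ρ` over `E` is finite and at most `m`. -/
def DefectLE (ρ : ArtinRep p K Ω d) (E : IntermediateField K Ω) (m : ℕ) : Prop :=
  FiniteDimensional ℂ_[p] (ρ.kernel E) ∧ finrank ℂ_[p] (ρ.kernel E) ≤ m

/-- the sum over the infinite places `v` of `K` of the dimension of the space of vectors fixed by
the decomposition group of the place `w v` of `Ω` above `v` -/
noncomputable def arch [NumberField K] (ρ : ArtinRep p K Ω d)
    (w : InfinitePlace K → InfinitePlace Ω) : ℕ :=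
  ∑ v, finrank ℂ_[p] (fixedVec ρ.hom (w v))

end ArtinRep

/-- `w` chooses a place of `Ω` above each infinite place of `K` -/
def PlacesAbove (w : InfinitePlace K → InfinitePlace Ω) : Prop :=
  ∀ v, (w v).comap (algebraMap K Ω) = v

theorem artin_main [NumberField K] [IsAlgClosure K Ω]
    {Kinf : IntermediateField K Ω} (hK : IsZpExtension p Kinf) (hl : ¬ IsLifted p Kinf)
    {ρ : ArtinRep p K Ω d} (hρ : ρ.Irreducible)
    {w : InfinitePlace K → InfinitePlace Ω} (hw : PlacesAbove w) :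
    ∃ C : ℕ, ∀ E : IntermediateField K Ω, E ≤ Kinf → FiniteDimensional K E →
      ρ.DefectLE E (ρ.arch w ^ 2 / (ρ.arch w + finrank ℚ K * d) * finrank K E + C) := by
  obtain ⟨C, hC⟩ := main_final hK (conjDistinct_of_not_isLifted hK hl) ρ.isOpen_ker ρ.isAlgebraic
    hρ.2 w hw
  have h1 : ∀ E : IntermediateField K Ω, ρ.kernel E = leopoldtKernel ρ.hom E.fixingSubgroup := by
    intro E
    ext y
    constructor
    · rintro ⟨h1, h2⟩
      exact ⟨fun g hg j => h1 g hg j, fun L hL σ j => h2 j L hL σ⟩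
    · rintro ⟨h1, h2⟩
      exact ⟨fun g hg j => h1 g hg j, fun j L hL σ => h2 L hL σ j⟩
  refine ⟨C, fun E hE hEf => ?_⟩
  obtain ⟨h2, h3⟩ := hC E hE hEf
  unfold ArtinRep.DefectLE
  rw [h1]
  exact ⟨h2, h3⟩

end Pool.Agent.Helper864WL
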