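import Pool.Agent.Helper864_WL.Mult

set_option autoImplicit false
set_option linter.unusedSectionVars false

/-!
# The twisted action
-/

namespace Pool.Agent.Helper864WL

open NumberField TensorProduct Pool.Agent.W289.SL Module

variable {p : ℕ} [Fact p.Prime] {Ω : Type} [Field Ω] {K : Type} [Field K] [Algebra K Ω] {d : ℕ}

/-- the action on tuples twisted by `ρ` -/
noncomputable def tact (ρ : (Ω ≃ₐ[K] Ω) →* GL (Fin d) ℂ_[p]) (g : Ω ≃ₐ[K] Ω) :
    (Fin d → UU p Ω) →ₗ[ℂ_[p]] (Fin d → UU p Ω) :=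
  LinearMap.pi fun j => ∑ i, (ρ g⁻¹ i j) • ((ract (toR g)).comp (LinearMap.proj i))

lemma tact_apply (ρ : (Ω ≃ₐ[K] Ω) →* GL (Fin d) ℂ_[p]) (g : Ω ≃ₐ[K] Ω) (y : Fin d → UU p Ω)
    (j : Fin d) : tact ρ g y j = ∑ i, (ρ g⁻¹ i j) • ract (toR g) (y i) := by
  simp [tact, LinearMap.sum_apply]

lemma rho_mul_apply (ρ : (Ω ≃ₐ[K] Ω) →* GL (Fin d) ℂ_[p]) (g h : Ω ≃ₐ[K] Ω) (i j : Fin d) :
    ρ (g * h) i j = ∑ k, ρ g i k * ρ h k j := by
  rw [map_mul]
  exact Matrix.mul_apply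

lemma rho_one_apply (ρ : (Ω ≃ₐ[K] Ω) →* GL (Fin d) ℂ_[p]) (i j : Fin d) :
    ρ 1 i j = (1 : Matrix (Fin d) (Fin d) ℂ_[p]) i j := by
  rw [map_one]
  rfl

/-- `tact g y = c y` means that `g y_j = c ∑ ρ(g)_{ij} y_i` -/
lemma tact_eq_smul_iff (ρ : (Ω ≃ₐ[K] Ω) →* GL (Fin d) ℂ_[p]) (g : Ω ≃ₐ[K] Ω) (c : ℂ_[p])
    (y : Fin d → UU p Ω) :
    tact ρ g y = c • y ↔ ∀ j, ract (toR g) (y j) = ∑ i, (c * ρ g i j) • y i := by
  classical
  constructor
  · intro h j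
    have h1 : ∀ k, ∑ i, (ρ g⁻¹ i k) • ract (toR g) (y i) = c • y k := by
      intro k
      rw [← tact_apply, h, Pi.smul_apply]
    calc ract (toR g) (y j) = ∑ k, ρ g k j • ∑ i, (ρ g⁻¹ i k) • ract (toR g) (y i) := by
          simp_rw [Finset.smul_sum]
          rw [Finset.sum_comm]
          have h2 : ∀ i ∈ Finset.univ, ∑ k, ρ g k j • (ρ g⁻¹ i k) • ract (toR g) (y i) =
              ((1 : Matrix (Fin d) (Fin d) ℂ_[p]) i j) • ract (toR g) (y i) := by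
            intro i _
            have h3 : (1 : Matrix (Fin d) (Fin d) ℂ_[p]) i j = ∑ k, ρ g⁻¹ i k * ρ g k j := by
              rw [← rho_mul_apply, inv_mul_cancel, rho_one_apply]
            rw [h3, Finset.sum_smul]
            refine Finset.sum_congr rfl fun k _ => ?_
            rw [smul_smul, mul_comm]
          rw [Finset.sum_congr rfl h2, Finset.sum_eq_single j]
          · rw [Matrix.one_apply_eq, one_smul]
          · intro i _ hi
            rw [Matrix.one_apply_ne hi, zero_smul]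
          · intro hj
            exact absurd (Finset.mem_univ j) hj
      _ = ∑ i, (c * ρ g i j) • y i := by
          refine Finset.sum_congr rfl fun k _ => ?_
          rw [h1, smul_smul, mul_comm]
  · intro h
    funext j
    rw [tact_apply, Pi.smul_apply]
    have h1 : ∀ i ∈ Finset.univ, (ρ g⁻¹ i j) • ract (toR g) (y i) =
        ∑ k, (ρ g⁻¹ i j * (c * ρ g k i)) • y k := by
      intro i _
      rw [h, Finset.smul_sum]
      refine Finset.sum_congr rfl fun k _ => ?_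
      rw [smul_smul]
    rw [Finset.sum_congr rfl h1, Finset.sum_comm]
    have h2 : ∀ k ∈ Finset.univ, ∑ i, (ρ g⁻¹ i j * (c * ρ g k i)) • y k =
        (c * (1 : Matrix (Fin d) (Fin d) ℂ_[p]) k j) • y k := by
      intro k _
      have h3 : (1 : Matrix (Fin d) (Fin d) ℂ_[p]) k j = ∑ i, ρ g k i * ρ g⁻¹ i j := by
        rw [← rho_mul_apply, mul_inv_cancel, rho_one_apply]
      rw [h3, Finset.mul_sum, Finset.sum_smul]
      refine Finset.sum_congr rfl fun i _ => ?_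
      congr 1
      ring
    rw [Finset.sum_congr rfl h2, Finset.sum_eq_single j]
    · rw [Matrix.one_apply_eq, mul_one]
    · intro i _ hi
      rw [Matrix.one_apply_ne hi, mul_zero, zero_smul]
    · intro hj
      exact absurd (Finset.mem_univ j) hj

lemma tact_mul (ρ : (Ω ≃ₐ[K] Ω) →* GL (Fin d) ℂ_[p]) (g h : Ω ≃ₐ[K] Ω) :
    tact ρ (g * h) = tact ρ g * tact ρ h := by
  apply LinearMap.ext
  intro y
  funext j
  rw [Module.End.mul_apply, tact_apply, tact_apply]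
  have h1 : ∀ i ∈ Finset.univ, (ρ g⁻¹ i j) • ract (toR g) (tact ρ h y i) =
      ∑ k, (ρ h⁻¹ k i * ρ g⁻¹ i j) • ract (toR (g * h)) (y k) := by
    intro i _
    rw [tact_apply, map_sum, Finset.smul_sum]
    refine Finset.sum_congr rfl fun k _ => ?_
    rw [map_smul, ← ract_mul, ← map_mul, smul_smul, mul_comm]
  rw [Finset.sum_congr rfl h1, Finset.sum_comm]
  refine Finset.sum_congr rfl fun k _ => ?_
  rw [← Finset.sum_smul, mul_inv_rev, rho_mul_apply]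

lemma tact_one (ρ : (Ω ≃ₐ[K] Ω) →* GL (Fin d) ℂ_[p]) : tact ρ 1 = 1 := by
  apply LinearMap.ext
  intro y
  have h1 := (tact_eq_smul_iff ρ 1 1 y).2 (by
    intro j
    rw [map_one, ract_one, Finset.sum_eq_single j]
    · rw [rho_one_apply, Matrix.one_apply_eq, mul_one, one_smul]
    · intro i _ hi
      rw [rho_one_apply, Matrix.one_apply_ne hi, mul_zero, zero_smul]
    · intro hj
      exact absurd (Finset.mem_univ j) hj)
  rw [h1, one_smul]
  rfl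

/-- the twisted action as a homomorphism -/
noncomputable def tactHom (ρ : (Ω ≃ₐ[K] Ω) →* GL (Fin d) ℂ_[p]) :
    (Ω ≃ₐ[K] Ω) →* Module.End ℂ_[p] (Fin d → UU p Ω) where
  toFun := tact ρ
  map_one' := tact_one ρ
  map_mul' := tact_mul ρ

lemma tact_pow (ρ : (Ω ≃ₐ[K] Ω) →* GL (Fin d) ℂ_[p]) (g : Ω ≃ₐ[K] Ω) (n : ℕ) :
    tact ρ (g ^ n) = tact ρ g ^ n := map_pow (tactHom ρ) g n

/-- The Leopoldt kernel of `ρ` over the fixed field of `H`: the `Gal(Ω/Ω^H)`-equivariant maps from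
the space of `ρ` to `ℂ_p ⊗ 𝓞_Ω^×` (given by the images `y_j` of the basis vectors) whose values are
killed by all `p`-adic logarithms. -/
def leopoldtKernel (ρ : (Ω ≃ₐ[K] Ω) →* GL (Fin d) ℂ_[p]) (H : Subgroup (Ω ≃ₐ[K] Ω)) :
    Submodule ℂ_[p] (Fin d → UU p Ω) where
  carrier := {y | (∀ g ∈ H, ∀ j, act p (g : Ω →+* Ω) (y j) = ∑ i, ρ g i j • y i) ∧
    ∀ (L : ℂ_[p] → ℂ_[p]) (hL : IsIwasawaLog p L) (σ : Ω →+* ℂ_[p]) (j : Fin d),
      logT hL σ (y j) = 0}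
  zero_mem' := ⟨fun g _ j => by simp, fun L hL σ j => by simp⟩
  add_mem' {x y} hx hy := by
    refine ⟨fun g hg j => ?_, fun L hL σ j => ?_⟩
    · rw [Pi.add_apply, map_add, hx.1 g hg, hy.1 g hg, ← Finset.sum_add_distrib]
      refine Finset.sum_congr rfl fun i _ => ?_
      rw [Pi.add_apply, smul_add]
    · rw [Pi.add_apply, map_add, hx.2, hy.2, add_zero]
  smul_mem' c {x} hx := by
    refine ⟨fun g hg j => ?_, fun L hL σ j => ?_⟩
    · rw [Pi.smul_apply, map_smul, hx.1 g hg, Finset.smul_sum]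
      refine Finset.sum_congr rfl fun i _ => ?_
      rw [Pi.smul_apply, smul_comm]
    · rw [Pi.smul_apply, map_smul, hx.2, smul_zero]

lemma mem_leopoldtKernel {ρ : (Ω ≃ₐ[K] Ω) →* GL (Fin d) ℂ_[p]} {H : Subgroup (Ω ≃ₐ[K] Ω)}
    {y : Fin d → UU p Ω} : y ∈ leopoldtKernel ρ H ↔ (∀ g ∈ H, tact ρ g y = y) ∧
      ∀ (L : ℂ_[p] → ℂ_[p]) (hL : IsIwasawaLog p L) (σ : Ω →+* ℂ_[p]) (j : Fin d),
      logT hL σ (y j) = 0 := by
  have h1 : ∀ g : Ω ≃ₐ[K] Ω, (∀ j, act p (g : Ω →+* Ω) (y j) = ∑ i, ρ g i j • y i) ↔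
      tact ρ g y = y := by
    intro g
    have h2 := tact_eq_smul_iff ρ g 1 y
    rw [one_smul] at h2
    rw [h2]
    simp only [one_mul]
    rfl
  constructor
  · rintro ⟨h, h'⟩
    exact ⟨fun g hg => (h1 g).1 (h g hg), h'⟩
  · rintro ⟨h, h'⟩
    exact ⟨fun g hg => (h1 g).2 (h g hg), h'⟩

lemma leopoldtKernel_mono {ρ : (Ω ≃ₐ[K] Ω) →* GL (Fin d) ℂ_[p]} {H H' : Subgroup (Ω ≃ₐ[K] Ω)}
    (h : H ≤ H') : leopoldtKernel ρ H' ≤ leopoldtKernel ρ H := by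
  rintro y ⟨h1, h2⟩
  exact ⟨fun g hg => h1 g (h hg), h2⟩

lemma log_tact {ρ : (Ω ≃ₐ[K] Ω) →* GL (Fin d) ℂ_[p]} {y : Fin d → UU p Ω}
    (hy : ∀ (L : ℂ_[p] → ℂ_[p]) (hL : IsIwasawaLog p L) (σ : Ω →+* ℂ_[p]) (j : Fin d),
      logT hL σ (y j) = 0) (g : Ω ≃ₐ[K] Ω) (L : ℂ_[p] → ℂ_[p]) (hL : IsIwasawaLog p L)
    (σ : Ω →+* ℂ_[p]) (j : Fin d) : logT hL σ (tact ρ g y j) = 0 := by
  rw [tact_apply, map_sum]
  refine Finset.sum_eq_zero fun i _ => ?_
  rw [map_smul]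
  unfold ract
  rw [logT_act, hy, smul_zero]

/-- the twisted action preserves the Leopoldt kernel of a normal subgroup -/
lemma tact_mem {ρ : (Ω ≃ₐ[K] Ω) →* GL (Fin d) ℂ_[p]} {H : Subgroup (Ω ≃ₐ[K] Ω)} (hH : H.Normal)
    {y : Fin d → UU p Ω} (hy : y ∈ leopoldtKernel ρ H) (g : Ω ≃ₐ[K] Ω) :
    tact ρ g y ∈ leopoldtKernel ρ H := by
  rw [mem_leopoldtKernel] at hy ⊢
  refine ⟨fun h hh => ?_, fun L hL σ j => log_tact hy.2 g L hL σ j⟩
  have h1 : h * g = g * (g⁻¹ * h * g) := by group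
  have h2 : g⁻¹ * h * g ∈ H := by
    have := hH.conj_mem h hh g⁻¹
    rwa [inv_inv] at this
  rw [← Module.End.mul_apply, ← tact_mul, h1, tact_mul, Module.End.mul_apply, hy.1 _ h2]

end Pool.Agent.Helper864WL
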