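import Pool.Agent.Helper864_WL.Twist
import Pool.Agent.Helper864_WL.Eigen

set_option autoImplicit false
set_option linter.unusedSectionVars false

/-!
# Characters of `ℤ_p`
-/

namespace Pool.Agent.Helper864WL

open NumberField TensorProduct Pool.Agent.W289.SL Module

variable {p : ℕ} [Fact p.Prime]

lemma pow_val_eq {n : ℕ} {ζ : ℂ_[p]} (hζ : ζ ^ p ^ n = 1) (a : ℕ) :
    ζ ^ (a % p ^ n) = ζ ^ a := by
  conv_rhs => rw [← Nat.mod_add_div a (p ^ n), pow_add, pow_mul, hζ, one_pow, mul_one]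

/-- the character of `ℤ_p` with `1 ↦ ζ`, where `ζ ^ (p ^ n) = 1` -/
noncomputable def psi (n : ℕ) (ζ : ℂ_[p]) (hζ : ζ ^ p ^ n = 1) :
    Multiplicative ℤ_[p] →* ℂ_[p] where
  toFun x := ζ ^ (PadicInt.toZModPow n (Multiplicative.toAdd x) : ZMod (p ^ n)).val
  map_one' := by
    rw [toAdd_one, map_zero, ZMod.val_zero, pow_zero]
  map_mul' x y := by
    have : NeZero (p ^ n) := ⟨pow_ne_zero _ (Fact.out : p.Prime).ne_zero⟩
    rw [toAdd_mul, map_add, ZMod.val_add, pow_val_eq hζ, pow_add]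

lemma psi_apply (n : ℕ) (ζ : ℂ_[p]) (hζ : ζ ^ p ^ n = 1) (x : Multiplicative ℤ_[p]) :
    psi n ζ hζ x = ζ ^ (PadicInt.toZModPow n (Multiplicative.toAdd x) : ZMod (p ^ n)).val := rfl

lemma dvd_sub_val (n : ℕ) (x : ℤ_[p]) :
    (p : ℤ_[p]) ^ n ∣ x - ((PadicInt.toZModPow n x : ZMod (p ^ n)).val : ℤ_[p]) := by
  have : NeZero (p ^ n) := ⟨pow_ne_zero _ (Fact.out : p.Prime).ne_zero⟩
  rw [← Ideal.mem_span_singleton, ← PadicInt.ker_toZModPow, RingHom.mem_ker, map_sub,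
    map_natCast, ZMod.natCast_zmod_val, sub_self]

lemma psi_pow (n : ℕ) (ζ : ℂ_[p]) (hζ : ζ ^ p ^ n = 1) (x : Multiplicative ℤ_[p]) :
    (psi n ζ hζ x) ^ p ^ n = 1 := by
  rw [psi_apply, ← pow_mul, mul_comm, pow_mul, hζ, one_pow]

lemma psi_sep {n m : ℕ} {ζ : ℂ_[p]} (hζ : ζ ^ p ^ n = 1) (hm : ζ ^ p ^ m ≠ 1)
    {x y : Multiplicative ℤ_[p]} (h : psi n ζ hζ x = psi n ζ hζ y) :
    (p : ℤ_[p]) ^ (m + 1) ∣ Multiplicative.toAdd x - Multiplicative.toAdd y := by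
  have hp : p.Prime := Fact.out
  obtain ⟨k, hk, hord⟩ := (Nat.dvd_prime_pow hp).1 (orderOf_dvd_of_pow_eq_one hζ)
  have hkm : m + 1 ≤ k := by
    by_contra hcon
    apply hm
    apply orderOf_dvd_iff_pow_eq_one.1
    rw [hord]
    exact pow_dvd_pow _ (by omega)
  have hζ0 : ζ ≠ 0 := by
    intro h0
    rw [h0, zero_pow (pow_ne_zero _ hp.ne_zero)] at hζ
    exact zero_ne_one hζ
  rw [psi_apply, psi_apply] at h
  set a := (PadicInt.toZModPow n (Multiplicative.toAdd x) : ZMod (p ^ n)).val with ha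
  set b := (PadicInt.toZModPow n (Multiplicative.toAdd y) : ZMod (p ^ n)).val with hb
  have key : ∀ a b : ℕ, a ≤ b → ζ ^ a = ζ ^ b → (p : ℤ_[p]) ^ k ∣ (b : ℤ_[p]) - (a : ℤ_[p]) := by
    intro a b hab h
    have h1 : ζ ^ (b - a) = 1 := by
      have h2 : ζ ^ a * ζ ^ (b - a) = ζ ^ a * 1 := by
        rw [← pow_add, Nat.add_sub_cancel' hab, mul_one, h]
      exact mul_left_cancel₀ (pow_ne_zero _ hζ0) h2
    have h2 := orderOf_dvd_of_pow_eq_one h1
    rw [hord] at h2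
    obtain ⟨c, hc⟩ := h2
    rw [← Nat.cast_sub hab, hc]
    push_cast
    exact Dvd.intro _ rfl
  have h1 : (p : ℤ_[p]) ^ k ∣ (a : ℤ_[p]) - (b : ℤ_[p]) := by
    rcases le_total a b with hab | hab
    · rw [← neg_sub, dvd_neg]
      exact key a b hab h
    · exact key b a hab h.symm
  have h2 := dvd_sub_val n (Multiplicative.toAdd x)
  have h3 := dvd_sub_val n (Multiplicative.toAdd y)
  have h4 : Multiplicative.toAdd x - Multiplicative.toAdd y =
      (Multiplicative.toAdd x - (a : ℤ_[p])) - (Multiplicative.toAdd y - (b : ℤ_[p])) +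
        ((a : ℤ_[p]) - (b : ℤ_[p])) := by ring
  rw [h4]
  have hk' : (p : ℤ_[p]) ^ k ∣ (p : ℤ_[p]) ^ n := pow_dvd_pow _ hk
  exact (pow_dvd_pow _ hkm).trans (((hk'.trans h2).sub (hk'.trans h3)).add h1)

section levels

variable {G : Type*} [Group G] (χ : G →* Multiplicative ℤ_[p])

/-- the subgroup of elements `g` with `χ g` divisible by `p ^ n` -/
def lev (n : ℕ) : Subgroup G where
  carrier := {g | (p : ℤ_[p]) ^ n ∣ Multiplicative.toAdd (χ g)}
  one_mem' := by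
    change (p : ℤ_[p]) ^ n ∣ Multiplicative.toAdd (χ 1)
    rw [map_one, toAdd_one]
    exact dvd_zero _
  mul_mem' {a b} ha hb := by
    change (p : ℤ_[p]) ^ n ∣ Multiplicative.toAdd (χ (a * b))
    rw [map_mul, toAdd_mul]
    exact dvd_add ha hb
  inv_mem' {a} ha := by
    change (p : ℤ_[p]) ^ n ∣ Multiplicative.toAdd (χ a⁻¹)
    rw [map_inv, toAdd_inv, dvd_neg]
    exact ha

lemma mem_lev {n : ℕ} {g : G} : g ∈ lev χ n ↔ (p : ℤ_[p]) ^ n ∣ Multiplicative.toAdd (χ g) :=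
  Iff.rfl

lemma lev_normal (n : ℕ) : (lev χ n).Normal := by
  constructor
  intro g hg h
  have h1 : χ (h * g * h⁻¹) = χ g := by
    rw [map_mul, map_mul, map_inv, mul_comm (χ h), mul_assoc, mul_inv_cancel, mul_one]
  rw [mem_lev, h1]
  exact hg

lemma lev_anti {m n : ℕ} (h : m ≤ n) : lev χ n ≤ lev χ m := by
  intro g hg
  exact (pow_dvd_pow _ h).trans hg

lemma exists_pow_mul {γ : G} (hγ : χ γ = Multiplicative.ofAdd 1) (n : ℕ) (g : G) :
    ∃ u ∈ lev χ n, g =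
      γ ^ (PadicInt.toZModPow n (Multiplicative.toAdd (χ g)) : ZMod (p ^ n)).val * u := by
  refine ⟨(γ ^ (PadicInt.toZModPow n (Multiplicative.toAdd (χ g)) : ZMod (p ^ n)).val)⁻¹ * g,
    ?_, by rw [mul_inv_cancel_left]⟩
  rw [mem_lev, map_mul, map_inv, map_pow, hγ, toAdd_mul, toAdd_inv, toAdd_pow, toAdd_ofAdd,
    nsmul_eq_mul, mul_one, neg_add_eq_sub]
  exact dvd_sub_val n _

/-- a normal subgroup containing the kernel of `χ`, of finite index, contains a level -/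
lemma lev_le_of_index {H : Subgroup G} (hH : H.Normal) (hker : χ.ker ≤ H)
    (hsurj : Function.Surjective χ) (hfin : H.index ≠ 0) :
    ∃ n, lev χ n ≤ H ∧ p ^ n ∣ H.index := by
  have hp : p.Prime := Fact.out
  obtain ⟨n, u, hu, hn⟩ := Nat.exists_eq_pow_mul_and_not_dvd hfin p hp.ne_one
  refine ⟨n, fun g hg => ?_, by rw [hn]; exact Dvd.intro _ rfl⟩
  obtain ⟨z, hz⟩ := hg
  have huu : IsUnit (u : ℤ_[p]) := by
    rw [PadicInt.isUnit_iff, PadicInt.norm_natCast_eq_one_iff]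
    exact (Nat.Prime.coprime_iff_not_dvd hp).2 hu
  obtain ⟨v, hv⟩ := huu
  obtain ⟨h, hh⟩ := hsurj (Multiplicative.ofAdd (((v⁻¹ : ℤ_[p]ˣ) : ℤ_[p]) * z))
  have h1 : h ^ H.index ∈ H := Subgroup.pow_index_mem H h
  have h2 : (h ^ H.index)⁻¹ * g ∈ H := by
    apply hker
    rw [MonoidHom.mem_ker, map_mul, map_inv, map_pow, hh]
    apply Multiplicative.toAdd.injective
    rw [toAdd_mul, toAdd_inv, toAdd_pow, toAdd_ofAdd, hz, hn, toAdd_one, nsmul_eq_mul]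
    push_cast
    rw [← hv]
    have h3 : (v : ℤ_[p]) * ((v⁻¹ : ℤ_[p]ˣ) : ℤ_[p]) = 1 := v.mul_inv
    linear_combination (-(p : ℤ_[p]) ^ n * z) * h3
  have h3 := H.mul_mem h1 h2
  rwa [mul_inv_cancel_left] at h3

end levels

end Pool.Agent.Helper864WL
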