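import Pool.Agent.Helper864_WL.Field

set_option autoImplicit false
set_option linter.unusedSectionVars false

/-!
# Construction of `ℤ_p`-extensions
-/

namespace Pool.Agent.Helper864WL

open Module

variable {p : ℕ} [Fact p.Prime] {Ω : Type} [Field Ω] {K : Type} [Field K] [Algebra K Ω]

lemma fixing_ker [IsGalois K Ω] {ψ : (Ω ≃ₐ[K] Ω) →* Multiplicative ℤ_[p]} (hψ : Continuous ψ) :
    (IntermediateField.fixedField ψ.ker).fixingSubgroup = ψ.ker := by
  have hcl : IsClosed (ψ.ker : Set (Ω ≃ₐ[K] Ω)) := by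
    have h1 : (ψ.ker : Set (Ω ≃ₐ[K] Ω)) = ψ ⁻¹' {1} := by
      ext g
      simp [MonoidHom.mem_ker]
    rw [h1]
    exact isClosed_singleton.preimage hψ
  exact InfiniteGalois.fixingSubgroup_fixedField ⟨ψ.ker, hcl⟩

lemma isZp_of_chi [IsGalois K Ω] {ψ : (Ω ≃ₐ[K] Ω) →* Multiplicative ℤ_[p]} (hψ : Continuous ψ)
    (hs : Function.Surjective ψ) : IsZpExtension p (IntermediateField.fixedField ψ.ker) := by
  classical
  have hfix := fixing_ker hψ
  set L := IntermediateField.fixedField ψ.ker with hL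
  have hgal : IsGalois K L := by
    rw [← InfiniteGalois.normal_iff_isGalois, hfix]
    exact MonoidHom.normal_ker ψ
  refine ⟨hgal, ?_⟩
  have hrs : Function.Surjective (AlgEquiv.restrictNormalHom L : (Ω ≃ₐ[K] Ω) →* (L ≃ₐ[K] L)) :=
    AlgEquiv.restrictNormalHom_surjective (E := Ω)
  have hker : (AlgEquiv.restrictNormalHom L : (Ω ≃ₐ[K] Ω) →* (L ≃ₐ[K] L)).ker = ψ.ker := by
    rw [IntermediateField.restrictNormalHom_ker, hfix]
  let f : (L ≃ₐ[K] L) →* Multiplicative ℤ_[p] :=
    (AlgEquiv.restrictNormalHom L : (Ω ≃ₐ[K] Ω) →* (L ≃ₐ[K] L)).liftOfSurjective hrs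
      ⟨ψ, hker.le⟩
  have hf : ∀ g, f (AlgEquiv.restrictNormalHom L g) = ψ g := by
    intro g
    exact MonoidHom.liftOfRightInverse_comp_apply _ _ _ ⟨ψ, hker.le⟩ g
  have hfbij : Function.Bijective f := by
    constructor
    · rw [injective_iff_map_eq_one]
      intro x hx
      obtain ⟨g, rfl⟩ := hrs x
      rw [hf] at hx
      have h1 : g ∈ ψ.ker := hx
      rw [← hker] at h1
      exact h1
    · intro z
      obtain ⟨g, hg⟩ := hs z
      exact ⟨AlgEquiv.restrictNormalHom L g, by rw [hf, hg]⟩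
  have hq : Topology.IsQuotientMap
      (AlgEquiv.restrictNormalHom L : (Ω ≃ₐ[K] Ω) →* (L ≃ₐ[K] L)) :=
    Topology.IsQuotientMap.of_surjective_continuous hrs
      (InfiniteGalois.restrictNormalHom_continuous L)
  have hfc : Continuous f := by
    rw [hq.continuous_iff]
    have h1 : (f ∘ (AlgEquiv.restrictNormalHom L : (Ω ≃ₐ[K] Ω) →* (L ≃ₐ[K] L))) = ψ := by
      funext g
      exact hf g
    rw [h1]
    exact hψ
  let e : (L ≃ₐ[K] L) ≃* Multiplicative ℤ_[p] := MulEquiv.ofBijective f hfbij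
  have he : Continuous e := hfc
  exact ⟨{ e with
    continuous_toFun := he
    continuous_invFun := (Continuous.homeoOfEquivCompactToT2 (f := e.toEquiv) he).continuous_invFun
    }⟩

end Pool.Agent.Helper864WL
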